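import Pool.Agent.R412.ABG.DualVec

/-!
# Trivial and adjoint components of modules over `sl₃`
-/

set_option autoImplicit false
set_option linter.unusedSimpArgs false
set_option linter.unusedSectionVars false

noncomputable section

open Module LieModule LieAlgebra.SpecialLinear

namespace Pool.Agent.R412.ABG

/-- The Lie algebra `sl₃`. -/
abbrev sl3 (k : Type*) [Field k] : Type _ := sl (Fin 3) k

variable {k : Type*} [Field k]

variable (k) in
/-- The matrix unit `E_{ij}`. -/
def E (i j : Fin 3) (h : i ≠ j) : sl3 k := single i j h 1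

theorem E_val (i j : Fin 3) (h : i ≠ j) : (E k i j h).val = Matrix.single i j 1 := rfl

theorem sl3_ext {x y : sl3 k} (h : ∀ i j, x.val i j = y.val i j) : x = y :=
  Subtype.ext (Matrix.ext h)

theorem E_lie_apply (i j : Fin 3) (h : i ≠ j) (x : sl3 k) (a b : Fin 3) :
    (⁅E k i j h, x⁆).val a b = (if a = i then x.val j b else 0) - (if b = j then x.val a i else 0) := by
  rw [sl_bracket, E_val, Matrix.sub_apply, Matrix.mul_apply, Matrix.mul_apply]
  congr 1
  · rw [Finset.sum_eq_single j]
    · by_cases h1 : a = i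
      · subst h1; simp
      · rw [if_neg h1, Matrix.single_apply_of_ne, zero_mul]
        tauto
    · intro c _ hc
      rw [Matrix.single_apply_of_ne, zero_mul]
      tauto
    · simp
  · rw [Finset.sum_eq_single i]
    · by_cases h1 : b = j
      · subst h1; simp
      · rw [if_neg h1, Matrix.single_apply_of_ne, mul_zero]
        tauto
    · intro c _ hc
      rw [Matrix.single_apply_of_ne, mul_zero]
      tauto
    · simp

theorem E_apply (i j : Fin 3) (h : i ≠ j) (a b : Fin 3) :
    (E k i j h).val a b = if a = i ∧ b = j then 1 else 0 := by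
  rw [E_val, Matrix.single_apply]
  simp only [eq_comm]

theorem tr_zero (x : sl3 k) : x.val 0 0 + x.val 1 1 + x.val 2 2 = 0 := by
  have h : Matrix.trace x.val = 0 := x.2
  rwa [Matrix.trace, Fin.sum_univ_three] at h

variable (k) in
/-- `E₁₂` -/
abbrev e1 : sl3 k := E k 0 1 (by decide)
variable (k) in
/-- `E₂₃` -/
abbrev e2 : sl3 k := E k 1 2 (by decide)
variable (k) in
/-- `E₂₁` -/
abbrev f1 : sl3 k := E k 1 0 (by decide)
variable (k) in
/-- `E₃₂` -/
abbrev f2 : sl3 k := E k 2 1 (by decide)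

theorem add_val (x y : sl3 k) (i j : Fin 3) : (x + y).val i j = x.val i j + y.val i j := rfl
theorem sub_val (x y : sl3 k) (i j : Fin 3) : (x - y).val i j = x.val i j - y.val i j := rfl
theorem neg_val (x : sl3 k) (i j : Fin 3) : (-x).val i j = -x.val i j := rfl
theorem smul_val (c : k) (x : sl3 k) (i j : Fin 3) : (c • x).val i j = c * x.val i j := rfl
theorem nsmul_val (c : ℕ) (x : sl3 k) (i j : Fin 3) : (c • x).val i j = c • x.val i j := rfl
theorem zsmul_val (c : ℤ) (x : sl3 k) (i j : Fin 3) : (c • x).val i j = c • x.val i j := rfl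
theorem zero_val (i j : Fin 3) : (0 : sl3 k).val i j = 0 := rfl

variable (k) in
/-- The standard Chevalley generators of `sl₃`. -/
def SS [CharZero k] : Chev (sl3 k) where
  e₁ := e1 k
  e₂ := e2 k
  f₁ := f1 k
  f₂ := f2 k
  h₁ := ⁅e1 k, f1 k⁆
  h₂ := ⁅e2 k, f2 k⁆
  h₁_ne := by
    intro h
    have := congrArg (fun x => x.val 0 0) h
    simp [E_lie_apply, E_apply] at this
  h₂_ne := by
    intro h
    have := congrArg (fun x => x.val 1 1) h
    simp [E_lie_apply, E_apply] at this
  e₁f₁ := rfl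
  e₂f₂ := rfl
  e₁f₂ := by
    apply sl3_ext; intro i j; fin_cases i <;> fin_cases j <;> simp [E_lie_apply, E_apply]
  e₂f₁ := by
    apply sl3_ext; intro i j; fin_cases i <;> fin_cases j <;> simp [E_lie_apply, E_apply]
  h₁e₁ := by
    apply sl3_ext; intro i j; rw [lie_lie]
    fin_cases i <;> fin_cases j <;> simp [E_lie_apply, E_apply, sub_val, nsmul_val] <;> norm_num
  h₁e₂ := by
    apply sl3_ext; intro i j; rw [lie_lie]
    fin_cases i <;> fin_cases j <;> simp [E_lie_apply, E_apply, sub_val, nsmul_val, neg_val]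
  h₂e₁ := by
    apply sl3_ext; intro i j; rw [lie_lie]
    fin_cases i <;> fin_cases j <;> simp [E_lie_apply, E_apply, sub_val, nsmul_val, neg_val]
  h₂e₂ := by
    apply sl3_ext; intro i j; rw [lie_lie]
    fin_cases i <;> fin_cases j <;> simp [E_lie_apply, E_apply, sub_val, nsmul_val] <;> norm_num
  h₁f₁ := by
    apply sl3_ext; intro i j
    rw [lie_lie, sub_val, neg_val, nsmul_val]
    fin_cases i <;> fin_cases j <;> simp [E_lie_apply, E_apply] <;> norm_num
  h₁f₂ := by
    apply sl3_ext; intro i j; rw [lie_lie]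
    fin_cases i <;> fin_cases j <;> simp [E_lie_apply, E_apply, sub_val]
  h₂f₁ := by
    apply sl3_ext; intro i j; rw [lie_lie]
    fin_cases i <;> fin_cases j <;> simp [E_lie_apply, E_apply, sub_val]
  h₂f₂ := by
    apply sl3_ext; intro i j
    rw [lie_lie, sub_val, neg_val, nsmul_val]
    fin_cases i <;> fin_cases j <;> simp [E_lie_apply, E_apply] <;> norm_num
  h₁h₂ := by
    apply sl3_ext; intro i j; rw [lie_lie]
    fin_cases i <;> fin_cases j <;> simp [E_lie_apply, E_apply, sub_val, nsmul_val, neg_val,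
      zero_val]
  se₁ := by
    apply sl3_ext; intro i j
    fin_cases i <;> fin_cases j <;> simp [E_lie_apply, E_apply, sub_val, zero_val]
  se₂ := by
    apply sl3_ext; intro i j
    fin_cases i <;> fin_cases j <;> simp [E_lie_apply, E_apply, sub_val, zero_val]
  sf₁ := by
    apply sl3_ext; intro i j
    fin_cases i <;> fin_cases j <;> simp [E_lie_apply, E_apply, sub_val, zero_val]
  sf₂ := by
    apply sl3_ext; intro i j
    fin_cases i <;> fin_cases j <;> simp [E_lie_apply, E_apply, sub_val, zero_val]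

theorem sl3_eq (x : sl3 k) : x = x.val 0 1 • e1 k + x.val 1 2 • e2 k + x.val 1 0 • f1 k +
    x.val 2 1 • f2 k + x.val 0 2 • ⁅e1 k, e2 k⁆ + x.val 2 0 • ⁅f2 k, f1 k⁆ +
    x.val 0 0 • ⁅e1 k, f1 k⁆ + (x.val 0 0 + x.val 1 1) • ⁅e2 k, f2 k⁆ := by
  have h := tr_zero x
  apply sl3_ext
  intro i j
  fin_cases i <;> fin_cases j <;> simp [E_lie_apply, E_apply, add_val, smul_val]
  linear_combination h

theorem sl3_ind {P : sl3 k → Prop} (hadd : ∀ x y, P x → P y → P (x + y))
    (hsmul : ∀ (c : k) x, P x → P (c • x)) (hlie : ∀ x y, P x → P y → P ⁅x, y⁆)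
    (he1 : P (e1 k)) (he2 : P (e2 k)) (hf1 : P (f1 k)) (hf2 : P (f2 k)) (x : sl3 k) : P x := by
  rw [sl3_eq x]
  exact hadd _ _ (hadd _ _ (hadd _ _ (hadd _ _ (hadd _ _ (hadd _ _ (hadd _ _
    (hsmul _ _ he1) (hsmul _ _ he2)) (hsmul _ _ hf1)) (hsmul _ _ hf2))
    (hsmul _ _ (hlie _ _ he1 he2))) (hsmul _ _ (hlie _ _ hf2 hf1))) (hsmul _ _ (hlie _ _ he1 hf1)))
    (hsmul _ _ (hlie _ _ he2 hf2))

end Pool.Agent.R412.ABG

end
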