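import Pool.Agent.R412.ABG.BBdef
import Pool.Agent.R412.ABG.Sl3

/-!
# The Allison–Benkart–Gao Lie algebra of an alternative algebra
-/

set_option autoImplicit false
set_option linter.unusedSimpArgs false
set_option linter.unusedSectionVars false

noncomputable section

open scoped TensorProduct
open LieAlgebra.SpecialLinear

namespace Pool.Agent.R412.ABG

section CH

variable {k : Type*} [Field k]

theorem mul3_apply (x y z : Matrix (Fin 3) (Fin 3) k) (i j : Fin 3) :
    (x * y * z) i j = (x i 0 * y 0 0 + x i 1 * y 1 0 + x i 2 * y 2 0) * z 0 j +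
      (x i 0 * y 0 1 + x i 1 * y 1 1 + x i 2 * y 2 1) * z 1 j +
      (x i 0 * y 0 2 + x i 1 * y 1 2 + x i 2 * y 2 2) * z 2 j := by
  rw [Matrix.mul_apply, Fin.sum_univ_three, Matrix.mul_apply, Matrix.mul_apply, Matrix.mul_apply,
    Fin.sum_univ_three, Fin.sum_univ_three, Fin.sum_univ_three]

theorem tr2 (x y : Matrix (Fin 3) (Fin 3) k) : Matrix.trace (x * y) =
    (x 0 0 * y 0 0 + x 0 1 * y 1 0 + x 0 2 * y 2 0) +
    (x 1 0 * y 0 1 + x 1 1 * y 1 1 + x 1 2 * y 2 1) +
    (x 2 0 * y 0 2 + x 2 1 * y 1 2 + x 2 2 * y 2 2) := by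
  rw [Matrix.trace, Fin.sum_univ_three]
  simp only [Matrix.diag_apply, Matrix.mul_apply, Fin.sum_univ_three]

theorem tr3 (x y z : Matrix (Fin 3) (Fin 3) k) : Matrix.trace (x * y * z) =
    (x * y * z) 0 0 + (x * y * z) 1 1 + (x * y * z) 2 2 := by
  rw [Matrix.trace, Fin.sum_univ_three]; rfl

/-- The polarized Cayley–Hamilton identity. -/
theorem ch (x y z : Matrix (Fin 3) (Fin 3) k) (hx : x 2 2 = -x 0 0 - x 1 1)
    (hy : y 2 2 = -y 0 0 - y 1 1) (hz : z 2 2 = -z 0 0 - z 1 1) (i j : Fin 3) :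
    (x * y * z) i j + (x * z * y) i j + (y * x * z) i j + (y * z * x) i j + (z * x * y) i j +
      (z * y * x) i j = Matrix.trace (x * y) * z i j + Matrix.trace (y * z) * x i j +
      Matrix.trace (z * x) * y i j + (if i = j then 1 else 0) *
        (Matrix.trace (x * y * z) + Matrix.trace (x * z * y)) := by
  rw [tr3, tr3]
  simp only [mul3_apply, tr2]
  fin_cases i <;> fin_cases j <;> simp [hx, hy, hz] <;> ring

end CH

section Def

variable {k : Type*} [Field k]

/-- The product `{X, Y} = (XY + YX)/2 - (tr(XY)/3) I` of `sl₃`. -/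
def curly [CharZero k] (X Y : sl3 k) : sl3 k :=
  ⟨(1 / 2 : k) • (X.val * Y.val + Y.val * X.val) -
    ((1 / 3 : k) * Matrix.trace (X.val * Y.val)) • (1 : Matrix (Fin 3) (Fin 3) k), by
    show Matrix.trace ((1 / 2 : k) • (X.val * Y.val + Y.val * X.val) -
      ((1 / 3 : k) * Matrix.trace (X.val * Y.val)) • (1 : Matrix (Fin 3) (Fin 3) k)) = 0
    rw [Matrix.trace_sub, Matrix.trace_smul, Matrix.trace_smul, Matrix.trace_add,
      Matrix.trace_mul_comm Y.val X.val, Matrix.trace_one]
    simp only [Fintype.card_fin, smul_eq_mul]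
    push_cast
    field_simp
    ring⟩

theorem curly_val [CharZero k] (X Y : sl3 k) : (curly X Y).val =
    (1 / 2 : k) • (X.val * Y.val + Y.val * X.val) -
    ((1 / 3 : k) * Matrix.trace (X.val * Y.val)) • (1 : Matrix (Fin 3) (Fin 3) k) := rfl

variable (k) in
/-- The bracket of `sl₃`. -/
def lieB : sl3 k →ₗ[k] sl3 k →ₗ[k] sl3 k :=
  LinearMap.mk₂ k (fun X Y => ⁅X, Y⁆) (by intros; rw [add_lie]) (by intros; rw [smul_lie])
    (by intros; rw [lie_add]) (by intros; rw [lie_smul])

variable (k) in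
/-- The product `{X, Y}`. -/
def curlyB [CharZero k] : sl3 k →ₗ[k] sl3 k →ₗ[k] sl3 k :=
  LinearMap.mk₂ k curly
    (by
      intro X X' Y
      apply Subtype.ext
      show _ = (curly X Y).val + (curly X' Y).val
      rw [curly_val, curly_val, curly_val]
      show (1 / 2 : k) • ((X.val + X'.val) * Y.val + Y.val * (X.val + X'.val)) -
        ((1 / 3 : k) * Matrix.trace ((X.val + X'.val) * Y.val)) • 1 = _
      rw [add_mul, mul_add, Matrix.trace_add]; module)
    (by
      intro c X Y
      apply Subtype.ext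
      show _ = c • (curly X Y).val
      rw [curly_val, curly_val]
      show (1 / 2 : k) • ((c • X.val) * Y.val + Y.val * (c • X.val)) -
        ((1 / 3 : k) * Matrix.trace ((c • X.val) * Y.val)) • 1 = _
      rw [smul_mul_assoc, mul_smul_comm, Matrix.trace_smul, smul_eq_mul]; module)
    (by
      intro Y X X'
      apply Subtype.ext
      show _ = (curly Y X).val + (curly Y X').val
      rw [curly_val, curly_val, curly_val]
      show (1 / 2 : k) • (Y.val * (X.val + X'.val) + (X.val + X'.val) * Y.val) -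
        ((1 / 3 : k) * Matrix.trace (Y.val * (X.val + X'.val))) • 1 = _
      rw [add_mul, mul_add, Matrix.trace_add]; module)
    (by
      intro c Y X
      apply Subtype.ext
      show _ = c • (curly Y X).val
      rw [curly_val, curly_val]
      show (1 / 2 : k) • (Y.val * (c • X.val) + (c • X.val) * Y.val) -
        ((1 / 3 : k) * Matrix.trace (Y.val * (c • X.val))) • 1 = _
      rw [smul_mul_assoc, mul_smul_comm, Matrix.trace_smul, smul_eq_mul]; module)

variable (k) in
/-- The form `tr(XY)/3`. -/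
def tr3B [CharZero k] : sl3 k →ₗ[k] sl3 k →ₗ[k] k :=
  LinearMap.mk₂ k (fun X Y => (1 / 3 : k) * Matrix.trace (X.val * Y.val))
    (by
      intro X X' Y
      show (1 / 3 : k) * Matrix.trace ((X.val + X'.val) * Y.val) = _
      rw [add_mul, Matrix.trace_add, mul_add])
    (by
      intro c X Y
      show (1 / 3 : k) * Matrix.trace ((c • X.val) * Y.val) = _
      rw [smul_mul_assoc, Matrix.trace_smul]; simp only [smul_eq_mul]; ring)
    (by
      intro Y X X'
      show (1 / 3 : k) * Matrix.trace (Y.val * (X.val + X'.val)) = _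
      rw [mul_add, Matrix.trace_add, mul_add])
    (by
      intro c Y X
      show (1 / 3 : k) * Matrix.trace (Y.val * (c • X.val)) = _
      rw [mul_smul_comm, Matrix.trace_smul]; simp only [smul_eq_mul]; ring)

variable (k) (A : Type*) [NonUnitalNonAssocRing A] [Module k A] [IsScalarTower k A A]
  [SMulCommClass k A A]

/-- The product `p · q = (pq + qp)/2`. -/
def circB [CharZero k] : A →ₗ[k] A →ₗ[k] A :=
  LinearMap.mk₂ k (fun p q => (1 / 2 : k) • (p * q + q * p))
    (by intro p p' q; rw [add_mul, mul_add]; module)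
    (by intro c p q; rw [smul_mul_assoc, mul_smul_comm]; module)
    (by intro p q q'; rw [add_mul, mul_add]; module)
    (by intro c p q; rw [smul_mul_assoc, mul_smul_comm]; module)

/-- The commutator. -/
def commB : A →ₗ[k] A →ₗ[k] A :=
  LinearMap.mk₂ k (fun p q => p * q - q * p)
    (by intro p p' q; rw [add_mul, mul_add]; abel)
    (by intro c p q; rw [smul_mul_assoc, mul_smul_comm, smul_sub])
    (by intro p q q'; rw [add_mul, mul_add]; abel)
    (by intro c p q; rw [smul_mul_assoc, mul_smul_comm, smul_sub])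

/-- `p ∧ q` as a bilinear map. -/
def wdB : A →ₗ[k] A →ₗ[k] BB k A :=
  LinearMap.mk₂ k (wd k) wd_add_left wd_smul_left wd_add_right wd_smul_right

/-- The underlying space `sl₃ ⊗ A ⊕ B(A)` of the Allison–Benkart–Gao Lie algebra. -/
def ABG : Type _ := (sl3 k ⊗[k] A) × BB k A

instance : AddCommGroup (ABG k A) := inferInstanceAs (AddCommGroup ((sl3 k ⊗[k] A) × BB k A))
instance : Module k (ABG k A) := inferInstanceAs (Module k ((sl3 k ⊗[k] A) × BB k A))

variable [CharZero k]

/-- The component in `sl₃ ⊗ A` of the bracket of two elements of `sl₃ ⊗ A`: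
`[X ⊗ p, Y ⊗ q] = [X, Y] ⊗ (p · q) + {X, Y} ⊗ [p, q] + ⋯`. -/
def ttT : sl3 k ⊗[k] A →ₗ[k] sl3 k ⊗[k] A →ₗ[k] sl3 k ⊗[k] A :=
  TensorProduct.map₂ (lieB k) (circB k A) + TensorProduct.map₂ (curlyB k) (commB k A)

/-- The component in `B(A)` of the bracket of two elements of `sl₃ ⊗ A`:
`[X ⊗ p, Y ⊗ q] = ⋯ + (tr(XY)/3) p ∧ q`. -/
def ttB : sl3 k ⊗[k] A →ₗ[k] sl3 k ⊗[k] A →ₗ[k] BB k A :=
  (TensorProduct.map₂ (tr3B k) (wdB k A)).compr₂ (TensorProduct.lid k (BB k A)).toLinearMap

variable {k A}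

theorem ttT_tmul (X Y : sl3 k) (p q : A) : ttT k A (X ⊗ₜ[k] p) (Y ⊗ₜ[k] q) =
    ⁅X, Y⁆ ⊗ₜ[k] ((1 / 2 : k) • (p * q + q * p)) + curly X Y ⊗ₜ[k] (p * q - q * p) := by
  rw [ttT, LinearMap.add_apply, LinearMap.add_apply, TensorProduct.map₂_apply_tmul,
    TensorProduct.map₂_apply_tmul]; rfl

theorem ttB_tmul (X Y : sl3 k) (p q : A) : ttB k A (X ⊗ₜ[k] p) (Y ⊗ₜ[k] q) =
    ((1 / 3 : k) * Matrix.trace (X.val * Y.val)) • wd k p q := by
  rw [ttB, LinearMap.compr₂_apply, TensorProduct.map₂_apply_tmul, LinearEquiv.coe_coe,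
    TensorProduct.map_tmul, TensorProduct.lid_tmul]; rfl

/-- The action of a derivation of `A` on `sl₃ ⊗ A ⊕ B(A)`. -/
def derG (T : derA k A) : ABG k A →ₗ[k] ABG k A :=
  LinearMap.prodMap (LinearMap.lTensor (sl3 k) T.1) (onB T)

theorem derG_apply (T : derA k A) (x : ABG k A) :
    derG T x = (LinearMap.lTensor (sl3 k) T.1 x.1, onB T x.2) := rfl

variable [IsAlt A]

/-- The bracket of the Allison–Benkart–Gao Lie algebra. -/
instance : Bracket (ABG k A) (ABG k A) where
  bracket x y := (ttT k A x.1 y.1 + LinearMap.lTensor (sl3 k) (DB x.2) y.1 -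
    LinearMap.lTensor (sl3 k) (DB y.2) x.1, ttB k A x.1 y.1 + onB (DD x.2) y.2)

theorem brk_def (x y : ABG k A) : ⁅x, y⁆ = ((ttT k A x.1 y.1 +
    LinearMap.lTensor (sl3 k) (DB x.2) y.1 - LinearMap.lTensor (sl3 k) (DB y.2) x.1,
    ttB k A x.1 y.1 + onB (DD x.2) y.2) : (sl3 k ⊗[k] A) × BB k A) := rfl

theorem ttT_skew (s t : sl3 k ⊗[k] A) : ttT k A s t = -ttT k A t s := by
  induction s using TensorProduct.induction_on with
  | zero => simp
  | add x y hx hy => rw [map_add, LinearMap.add_apply, hx, hy, map_add]; abel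
  | tmul X p =>
    induction t using TensorProduct.induction_on with
    | zero => simp
    | add x y hx hy => rw [map_add, hx, hy, map_add, LinearMap.add_apply]; abel
    | tmul Y q =>
      rw [ttT_tmul, ttT_tmul]
      have h1 : curly Y X = curly X Y := by
        apply Subtype.ext
        rw [curly_val, curly_val, Matrix.trace_mul_comm, add_comm (Y.val * X.val)]
      rw [h1, ← lie_skew Y X, add_comm (q * p), ← neg_sub (p * q) (q * p),
        TensorProduct.neg_tmul, TensorProduct.tmul_neg]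
      rw [neg_add, neg_neg, neg_neg]

theorem ttB_skew (s t : sl3 k ⊗[k] A) : ttB k A s t = -ttB k A t s := by
  induction s using TensorProduct.induction_on with
  | zero => simp
  | add x y hx hy => rw [map_add, LinearMap.add_apply, hx, hy, map_add]; abel
  | tmul X p =>
    induction t using TensorProduct.induction_on with
    | zero => simp
    | add x y hx hy => rw [map_add, hx, hy, map_add, LinearMap.add_apply]; abel
    | tmul Y q => rw [ttB_tmul, ttB_tmul, Matrix.trace_mul_comm, wd_swap, smul_neg]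

theorem brk_add (x y z : ABG k A) : ⁅x, y + z⁆ = ⁅x, y⁆ + ⁅x, z⁆ := by
  refine Prod.ext ?_ ?_
  · show ttT k A x.1 (y.1 + z.1) + LinearMap.lTensor (sl3 k) (DB x.2) (y.1 + z.1) -
      LinearMap.lTensor (sl3 k) (DB (y.2 + z.2)) x.1 =
      (ttT k A x.1 y.1 + LinearMap.lTensor (sl3 k) (DB x.2) y.1 -
        LinearMap.lTensor (sl3 k) (DB y.2) x.1) +
      (ttT k A x.1 z.1 + LinearMap.lTensor (sl3 k) (DB x.2) z.1 -
        LinearMap.lTensor (sl3 k) (DB z.2) x.1)
    rw [map_add, map_add, map_add, LinearMap.lTensor_add, LinearMap.add_apply]; abel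
  · show ttB k A x.1 (y.1 + z.1) + onB (DD x.2) (y.2 + z.2) =
      (ttB k A x.1 y.1 + onB (DD x.2) y.2) + (ttB k A x.1 z.1 + onB (DD x.2) z.2)
    rw [map_add, map_add]; abel

theorem brk_skew (x y : ABG k A) : ⁅x, y⁆ = -⁅y, x⁆ := by
  refine Prod.ext ?_ ?_
  · show ttT k A x.1 y.1 + LinearMap.lTensor (sl3 k) (DB x.2) y.1 -
      LinearMap.lTensor (sl3 k) (DB y.2) x.1 = -(ttT k A y.1 x.1 +
      LinearMap.lTensor (sl3 k) (DB y.2) x.1 - LinearMap.lTensor (sl3 k) (DB x.2) y.1)
    rw [ttT_skew]; abel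
  · show ttB k A x.1 y.1 + onB (DD x.2) y.2 = -(ttB k A y.1 x.1 + onB (DD y.2) x.2)
    rw [ttB_skew, onB_skew]; abel

theorem add_brk (x y z : ABG k A) : ⁅x + y, z⁆ = ⁅x, z⁆ + ⁅y, z⁆ := by
  rw [brk_skew, brk_add, brk_skew z x, brk_skew z y]; abel

theorem brk_smul (c : k) (x y : ABG k A) : ⁅x, c • y⁆ = c • ⁅x, y⁆ := by
  refine Prod.ext ?_ ?_
  · show ttT k A x.1 (c • y.1) + LinearMap.lTensor (sl3 k) (DB x.2) (c • y.1) -
      LinearMap.lTensor (sl3 k) (DB (c • y.2)) x.1 =
      c • (ttT k A x.1 y.1 + LinearMap.lTensor (sl3 k) (DB x.2) y.1 -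
        LinearMap.lTensor (sl3 k) (DB y.2) x.1)
    rw [map_smul, map_smul, map_smul, LinearMap.lTensor_smul, LinearMap.smul_apply, smul_sub,
      smul_add]
  · show ttB k A x.1 (c • y.1) + onB (DD x.2) (c • y.2) =
      c • (ttB k A x.1 y.1 + onB (DD x.2) y.2)
    rw [map_smul, map_smul, smul_add]

/-- Derivations of `A` act by derivations of the bracket. -/
theorem derG_brk (T : derA k A) (x y : ABG k A) :
    derG T ⁅x, y⁆ = ⁅derG T x, y⁆ + ⁅x, derG T y⁆ := by
  have h1 : ∀ s t : sl3 k ⊗[k] A, LinearMap.lTensor (sl3 k) T.1 (ttT k A s t) =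
      ttT k A (LinearMap.lTensor (sl3 k) T.1 s) t + ttT k A s (LinearMap.lTensor (sl3 k) T.1 t) := by
    intro s t
    induction s using TensorProduct.induction_on with
    | zero => simp
    | add x y hx hy => rw [map_add, LinearMap.add_apply, map_add, hx, hy, map_add, map_add,
        LinearMap.add_apply, LinearMap.add_apply]; abel
    | tmul X p =>
      induction t using TensorProduct.induction_on with
      | zero => simp
      | add x y hx hy => rw [map_add, map_add, hx, hy, map_add, map_add, map_add]; abel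
      | tmul Y q =>
        rw [LinearMap.lTensor_tmul, LinearMap.lTensor_tmul, ttT_tmul, ttT_tmul, ttT_tmul, map_add,
          LinearMap.lTensor_tmul, LinearMap.lTensor_tmul, map_smul, map_add, map_sub, derA_mul,
          derA_mul]
        simp only [TensorProduct.tmul_add, TensorProduct.tmul_sub, TensorProduct.tmul_smul,
          smul_add, smul_sub]
        abel
  have h2 : ∀ s t : sl3 k ⊗[k] A, onB T (ttB k A s t) =
      ttB k A (LinearMap.lTensor (sl3 k) T.1 s) t + ttB k A s (LinearMap.lTensor (sl3 k) T.1 t) := by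
    intro s t
    induction s using TensorProduct.induction_on with
    | zero => simp
    | add x y hx hy => rw [map_add, LinearMap.add_apply, map_add, hx, hy, map_add, map_add,
        LinearMap.add_apply, LinearMap.add_apply]; abel
    | tmul X p =>
      induction t using TensorProduct.induction_on with
      | zero => simp
      | add x y hx hy => rw [map_add, map_add, hx, hy, map_add, map_add, map_add]; abel
      | tmul Y q =>
        rw [LinearMap.lTensor_tmul, LinearMap.lTensor_tmul, ttB_tmul, ttB_tmul, ttB_tmul, map_smul,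
          onB_wd, smul_add]
  have h3 : ∀ (b : BB k A) (s : sl3 k ⊗[k] A), LinearMap.lTensor (sl3 k) T.1
      (LinearMap.lTensor (sl3 k) (DB b) s) = LinearMap.lTensor (sl3 k) (DB (onB T b)) s +
        LinearMap.lTensor (sl3 k) (DB b) (LinearMap.lTensor (sl3 k) T.1 s) := by
    intro b s
    induction s using TensorProduct.induction_on with
    | zero => simp
    | add x y hx hy => simp only [map_add, hx, hy]; abel
    | tmul X p =>
      rw [LinearMap.lTensor_tmul, LinearMap.lTensor_tmul, LinearMap.lTensor_tmul,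
        LinearMap.lTensor_tmul, LinearMap.lTensor_tmul, comm_DB, TensorProduct.tmul_add]
  refine Prod.ext ?_ ?_
  · show LinearMap.lTensor (sl3 k) T.1 (ttT k A x.1 y.1 + LinearMap.lTensor (sl3 k) (DB x.2) y.1 -
      LinearMap.lTensor (sl3 k) (DB y.2) x.1) =
      (ttT k A (LinearMap.lTensor (sl3 k) T.1 x.1) y.1 +
        LinearMap.lTensor (sl3 k) (DB (onB T x.2)) y.1 -
        LinearMap.lTensor (sl3 k) (DB y.2) (LinearMap.lTensor (sl3 k) T.1 x.1)) +
      (ttT k A x.1 (LinearMap.lTensor (sl3 k) T.1 y.1) +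
        LinearMap.lTensor (sl3 k) (DB x.2) (LinearMap.lTensor (sl3 k) T.1 y.1) -
        LinearMap.lTensor (sl3 k) (DB (onB T y.2)) x.1)
    rw [map_sub, map_add, h1, h3, h3]; abel
  · show onB T (ttB k A x.1 y.1 + onB (DD x.2) y.2) =
      (ttB k A (LinearMap.lTensor (sl3 k) T.1 x.1) y.1 + onB (DD (onB T x.2)) y.2) +
      (ttB k A x.1 (LinearMap.lTensor (sl3 k) T.1 y.1) + onB (DD x.2) (onB T y.2))
    rw [map_add, h2, comm_onB]; abel

end Def

end Pool.Agent.R412.ABG

end
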