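import Pool.Agent.R412.ABG.ExtBasis

/-!
# The homology of a Lie algebra, with the action of a Lie algebra of derivations
-/

set_option autoImplicit false
set_option linter.unusedSimpArgs false
set_option linter.unusedSectionVars false
set_option linter.dupNamespace false

noncomputable section

open Module

namespace Pool.Agent.R412.ABG

section pow

variable {k V : Type*} [Field k] [CharZero k] [AddCommGroup V] [Module k V]

theorem der_zero (x : ExteriorAlgebra k V) : der (0 : V →ₗ[k] V) x = 0 := by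
  rw [← derL_apply, map_zero, LinearMap.zero_apply]

theorem der_id_of_mem {j : ℕ} {x : ExteriorAlgebra k V} (hx : x ∈ ⋀[k]^j V) :
    der LinearMap.id x = (j : k) • x := by
  rw [← ExteriorAlgebra.ιMulti_span_fixedDegree] at hx
  induction hx using Submodule.span_induction with
  | mem x hx =>
    obtain ⟨v, rfl⟩ := hx
    have h := der_list (k := k) (LinearMap.id : V →ₗ[k] V) v (fun _ => (1 : k))
      (fun j => by simp) (List.finRange j)
    have h2 : ((List.finRange j).map fun i => ExteriorAlgebra.ι k (v i)).prod =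
        ExteriorAlgebra.ιMulti k j v := by
      rw [ExteriorAlgebra.ιMulti_apply, List.ofFn_eq_map]
    rw [h2] at h
    rw [h]
    simp
  | zero => simp
  | add x y _ _ hx hy => rw [map_add, hx, hy, smul_add]
  | smul c x _ hx => rw [map_smul, hx, smul_comm]

theorem mem_pow_iff {j : ℕ} {x : ExteriorAlgebra k V} :
    x ∈ ⋀[k]^j V ↔ der LinearMap.id x = (j : k) • x := by
  refine ⟨der_id_of_mem, fun hx => ?_⟩
  classical
  letI : LinearOrder (Basis.ofVectorSpaceIndex k V) := linearOrderOfSTO WellOrderingRel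
  set e := (Basis.ofVectorSpace k V).ExteriorAlgebra with he
  let T : Fin 1 → (ExteriorAlgebra k V →ₗ[k] ExteriorAlgebra k V) := fun _ => der LinearMap.id
  let c : Finset (Basis.ofVectorSpaceIndex k V) → Fin 1 → ℤ := fun S _ => S.card
  have hT : ∀ a S, T a (e S) = c S a • e S := by
    intro a S
    show der LinearMap.id (e S) = ((S.card : ℕ) : ℤ) • e S
    rw [he, der_EB _ _ (fun _ => (1 : k)) (fun i => by simp), ← Int.cast_smul_eq_zsmul k]
    simp
  have h1 : x ∈ Eig T (fun _ => (j : ℤ)) := by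
    intro a
    show der LinearMap.id x = _
    rw [hx, ← Int.cast_smul_eq_zsmul k]; simp
  rw [Eig_eq_span e T c hT] at h1
  refine (Submodule.span_le.2 ?_) h1
  rintro _ ⟨S, hS, rfl⟩
  have h2 : S.card = j := by
    have := congrFun hS 0
    simpa [c] using this
  rw [← h2]
  exact EB_mem _ S

theorem der_mem_pow (T : V →ₗ[k] V) {j : ℕ} {x : ExteriorAlgebra k V} (hx : x ∈ ⋀[k]^j V) :
    der T x ∈ ⋀[k]^j V := by
  rw [mem_pow_iff] at hx ⊢
  rw [der_der, hx, map_smul]
  have h : (LinearMap.id : V →ₗ[k] V) ∘ₗ T - T ∘ₗ LinearMap.id = 0 := by ext; simp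
  rw [h, der_zero, add_zero]

end pow

section homology

variable {k : Type*} [Field k] [CharZero k]

theorem bd_mem_pow {L : Type*} [LieRing L] [LieAlgebra k L] {j : ℕ}
    {x : ExteriorAlgebra k L} (hx : x ∈ ⋀[k]^(j + 1) L) : bd k L x ∈ ⋀[k]^j L := by
  rw [mem_pow_iff] at hx ⊢
  rw [der_id_bd, hx, map_smul]
  push_cast
  module

/-- The Lie algebra `g` acts on the Lie algebra `L` by derivations. -/
class DerAction (g L : Type*) [LieRing g] [LieRing L] [LieRingModule g L] : Prop where
  leib : ∀ (x : g) (y z : L), ⁅x, ⁅y, z⁆⁆ = ⁅⁅x, y⁆, z⁆ + ⁅y, ⁅x, z⁆⁆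

variable {g L : Type*} [LieRing g] [LieAlgebra k g] [LieRing L] [LieAlgebra k L]
  [LieRingModule g L] [LieModule k g L]

variable (k L) in
/-- The action of `x` on `L`, as a linear map. -/
def ac (x : g) : L →ₗ[k] L := LieModule.toEnd k g L x

theorem ac_apply (x : g) (y : L) : ac k L x y = ⁅x, y⁆ := rfl

/-- The action of `g` on the exterior algebra of `L` by derivations. -/
instance extLieRingModule : LieRingModule g (ExteriorAlgebra k L) where
  bracket x w := der (ac k L x) w
  add_lie x y w := by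
    have h : ac k L (x + y) = ac k L x + ac k L y := map_add (LieModule.toEnd k g L) x y
    show der (ac k L (x + y)) w = _
    rw [h]; exact der_add _ _ w
  lie_add x w w' := map_add _ w w'
  leibniz_lie x y w := by
    have h : ac k L ⁅x, y⁆ = ac k L x ∘ₗ ac k L y - ac k L y ∘ₗ ac k L x := by
      ext z; exact lie_lie x y z
    show der (ac k L x) (der (ac k L y) w) = der (ac k L ⁅x, y⁆) w +
      der (ac k L y) (der (ac k L x) w)
    rw [der_der, h]; abel

theorem ext_lie (x : g) (w : ExteriorAlgebra k L) : ⁅x, w⁆ = der (ac k L x) w := rfl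

instance extLieModule : LieModule k g (ExteriorAlgebra k L) where
  smul_lie c x w := by
    have h : ac k L (c • x) = c • ac k L x := map_smul (LieModule.toEnd k g L) c x
    rw [ext_lie, ext_lie, h]; exact der_smul _ c w
  lie_smul c x w := map_smul _ c w

variable [DerAction g L]

theorem bd_lie (x : g) (w : ExteriorAlgebra k L) : bd k L ⁅x, w⁆ = ⁅x, bd k L w⁆ :=
  (der_bd (ac k L x) (DerAction.leib x) w).symm

variable (k g L) in
/-- The cycles of degree `n`. -/
def Zc (n : ℕ) : LieSubmodule k g (ExteriorAlgebra k L) where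
  carrier := {w | w ∈ ⋀[k]^n L ∧ bd k L w = 0}
  add_mem' {x y} hx hy := ⟨add_mem hx.1 hy.1, by rw [map_add, hx.2, hy.2, add_zero]⟩
  zero_mem' := ⟨zero_mem _, map_zero _⟩
  smul_mem' c x hx := ⟨Submodule.smul_mem _ c hx.1, by rw [map_smul, hx.2, smul_zero]⟩
  lie_mem {x w} hw := ⟨der_mem_pow _ hw.1, by rw [bd_lie, hw.2, lie_zero]⟩

variable (k g L) in
/-- The boundaries of degree `n`, as a submodule of the cycles. -/
def Bc (n : ℕ) : LieSubmodule k g (Zc k g L n) where
  carrier := {z | ∃ y ∈ ⋀[k]^(n + 1) L, bd k L y = z}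
  add_mem' := by
    rintro a b ⟨x, hx, hx'⟩ ⟨y, hy, hy'⟩
    exact ⟨x + y, add_mem hx hy, by rw [map_add, hx', hy']; rfl⟩
  zero_mem' := ⟨0, zero_mem _, map_zero _⟩
  smul_mem' := by
    rintro c a ⟨x, hx, hx'⟩
    exact ⟨c • x, Submodule.smul_mem _ c hx, by rw [map_smul, hx']; rfl⟩
  lie_mem := by
    rintro x a ⟨y, hy, hy'⟩
    exact ⟨⁅x, y⁆, der_mem_pow _ hy, by rw [bd_lie, hy']; rfl⟩

variable (k g L) in
/-- The homology `H_n(L)` of the Lie algebra `L` with trivial coefficients, with its action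
of `g`. -/
abbrev HH (n : ℕ) : Type _ := Zc k g L n ⧸ Bc k g L n

end homology

end Pool.Agent.R412.ABG

end
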