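import Pool.Agent.R412.ABG.Jacobi
import Pool.Agent.R412.ABG.Homology

/-!
# The action of `sl₃` on the Chevalley–Eilenberg complex and the homology
-/

set_option autoImplicit false
set_option linter.unusedSimpArgs false
set_option linter.unusedSectionVars false
set_option linter.dupNamespace false

noncomputable section

open scoped TensorProduct
open LieAlgebra.SpecialLinear Module

namespace Pool.Agent.R412.ABG

variable {k : Type*} [Field k] [CharZero k] {A : Type*} [NonUnitalNonAssocRing A] [Module k A]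
  [IsScalarTower k A A] [SMulCommClass k A A]

/-- The action of `sl₃` on `sl₃ ⊗ A ⊕ B(A)`: the adjoint action on the tensor factor `sl₃`. -/
def actG (x : sl3 k) : ABG k A →ₗ[k] ABG k A :=
  LinearMap.prodMap (LinearMap.rTensor A (lieB k x)) 0

theorem actG_apply (x : sl3 k) (y : ABG k A) :
    actG x y = (LinearMap.rTensor A (lieB k x) y.1, 0) := rfl

theorem actG_tmul (x X : sl3 k) (p : A) :
    actG x (inT (X ⊗ₜ p) : ABG k A) = inT (⁅x, X⁆ ⊗ₜ p) := rfl

theorem actG_inB (x : sl3 k) (b : BB k A) : actG x (inB b : ABG k A) = 0 := by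
  refine Prod.ext ?_ rfl
  show LinearMap.rTensor A (lieB k x) 0 = 0
  rw [map_zero]

theorem inT_zero : (inT 0 : ABG k A) = 0 := rfl

/-- Linear maps on `ABG` are determined by pure tensors and wedges. -/
theorem ABG_ind {P : ABG k A → Prop} (hT : ∀ X p, P (inT (X ⊗ₜ p))) (hB : ∀ p q, P (inB (wd k p q)))
    (hadd : ∀ x y, P x → P y → P (x + y)) (x : ABG k A) : P x := by
  rw [← in_add_in x]
  apply hadd
  · generalize x.1 = s
    induction s using TensorProduct.induction_on with
    | zero =>
      have h := hT 0 0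
      rwa [TensorProduct.zero_tmul] at h
    | add x y hx hy => rw [inT_add]; exact hadd _ _ hx hy
    | tmul X p => exact hT X p
  · generalize x.2 = b
    induction b using BB_ind with
    | hwd p q => exact hB p q
    | hadd x y hx hy =>
      have : (inB (x + y) : ABG k A) = inB x + inB y := Prod.ext (add_zero _).symm rfl
      rw [this]; exact hadd _ _ hx hy

theorem actG_add (x y : sl3 k) : (actG (x + y) : ABG k A →ₗ[k] ABG k A) = actG x + actG y := by
  ext z
  induction z using ABG_ind with
  | hT X p =>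
    rw [LinearMap.add_apply, actG_tmul, actG_tmul, actG_tmul, add_lie, TensorProduct.add_tmul,
      inT_add]
  | hB p q => rw [LinearMap.add_apply, actG_inB, actG_inB, actG_inB, add_zero]
  | hadd a b ha hb => rw [map_add, map_add, ha, hb]

theorem actG_smul (c : k) (x : sl3 k) :
    (actG (c • x) : ABG k A →ₗ[k] ABG k A) = c • actG x := by
  ext z
  induction z using ABG_ind with
  | hT X p =>
    rw [LinearMap.smul_apply, actG_tmul, actG_tmul, smul_lie, ← TensorProduct.smul_tmul']
    exact Prod.ext rfl (smul_zero _).symm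
  | hB p q => rw [LinearMap.smul_apply, actG_inB, actG_inB, smul_zero]
  | hadd a b ha hb => rw [map_add, map_add, ha, hb]

theorem actG_lie (x y : sl3 k) : (actG ⁅x, y⁆ : ABG k A →ₗ[k] ABG k A) =
    actG x ∘ₗ actG y - actG y ∘ₗ actG x := by
  ext z
  induction z using ABG_ind with
  | hT X p =>
    rw [LinearMap.sub_apply, LinearMap.comp_apply, LinearMap.comp_apply, actG_tmul, actG_tmul,
      actG_tmul, actG_tmul, actG_tmul, lie_lie, TensorProduct.sub_tmul]
    exact Prod.ext rfl (sub_zero _).symm
  | hB p q =>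
    rw [LinearMap.sub_apply, LinearMap.comp_apply, LinearMap.comp_apply, actG_inB, actG_inB,
      actG_inB, map_zero, map_zero, sub_zero]
  | hadd a b ha hb => rw [map_add, map_add, ha, hb]

theorem actG_derG (x : sl3 k) (T : derA k A) (y : ABG k A) :
    actG x (derG T y) = derG T (actG x y) := by
  induction y using ABG_ind with
  | hT X p =>
    refine Prod.ext ?_ ?_
    · show LinearMap.rTensor A (lieB k x) (LinearMap.lTensor (sl3 k) T.1 (X ⊗ₜ p)) =
        LinearMap.lTensor (sl3 k) T.1 (LinearMap.rTensor A (lieB k x) (X ⊗ₜ p))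
      rw [LinearMap.lTensor_tmul, LinearMap.rTensor_tmul, LinearMap.rTensor_tmul,
        LinearMap.lTensor_tmul]
    · show 0 = onB T 0
      rw [map_zero]
  | hB p q =>
    have h : derG T (inB (wd k p q) : ABG k A) = inB (onB T (wd k p q)) :=
      Prod.ext (by show LinearMap.lTensor (sl3 k) T.1 0 = 0; rw [map_zero]) rfl
    rw [h, actG_inB, actG_inB, map_zero]
  | hadd a b ha hb => simp only [map_add, ha, hb]

variable [IsAlt A]

/-- `sl₃` acts by derivations of the bracket. -/
theorem actG_brk (x : sl3 k) (y z : ABG k A) : actG x ⁅y, z⁆ = ⁅actG x y, z⁆ + ⁅y, actG x z⁆ := by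
  have hc : ∀ X Y : sl3 k, ⁅x, curly X Y⁆ = curly ⁅x, X⁆ Y + curly X ⁅x, Y⁆ := by
    intro X Y
    have ht := Matrix.trace_mul_cycle x.val X.val Y.val
    have ht2 := Matrix.trace_mul_cycle X.val x.val Y.val
    have ht3 := Matrix.trace_mul_cycle Y.val X.val x.val
    apply Subtype.ext
    show (⁅x, curly X Y⁆).val = (curly ⁅x, X⁆ Y).val + (curly X ⁅x, Y⁆).val
    rw [sl_bracket, curly_val, curly_val, curly_val, sl_bracket, sl_bracket]
    have e1 : Matrix.trace ((x.val * X.val - X.val * x.val) * Y.val) =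
        -Matrix.trace (X.val * (x.val * Y.val - Y.val * x.val)) := by
      rw [sub_mul, mul_sub, Matrix.trace_sub, Matrix.trace_sub, ← mul_assoc, ← mul_assoc,
        Matrix.trace_mul_cycle X.val Y.val x.val]
      ring
    rw [e1]
    simp only [mul_sub, sub_mul, mul_add, add_mul, smul_sub, smul_add, mul_smul_comm,
      smul_mul_assoc, mul_one, one_mul, ← mul_assoc]
    module
  have ht : ∀ X Y : sl3 k, Matrix.trace ((⁅x, X⁆).val * Y.val) +
      Matrix.trace (X.val * (⁅x, Y⁆).val) = 0 := by
    intro X Y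
    rw [sl_bracket, sl_bracket, sub_mul, mul_sub, Matrix.trace_sub, Matrix.trace_sub,
      ← mul_assoc, ← mul_assoc, Matrix.trace_mul_cycle X.val Y.val x.val]
    ring
  induction y using ABG_ind with
  | hT X p =>
    induction z using ABG_ind with
    | hT Y q =>
      rw [actG_tmul, actG_tmul, inT_brk, inT_brk, inT_brk, map_add, actG_inB, add_zero]
      refine Prod.ext ?_ ?_
      · show LinearMap.rTensor A (lieB k x) (ttT k A (X ⊗ₜ p) (Y ⊗ₜ q)) =
          (ttT k A (⁅x, X⁆ ⊗ₜ p) (Y ⊗ₜ q) + 0) + (ttT k A (X ⊗ₜ p) (⁅x, Y⁆ ⊗ₜ q) + 0)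
        rw [add_zero, add_zero, ttT_tmul, ttT_tmul, ttT_tmul, map_add, LinearMap.rTensor_tmul,
          LinearMap.rTensor_tmul]
        show ⁅x, ⁅X, Y⁆⁆ ⊗ₜ[k] _ + ⁅x, curly X Y⁆ ⊗ₜ[k] _ = _
        rw [hc, leibniz_lie, TensorProduct.add_tmul, TensorProduct.add_tmul]
        abel
      · show 0 = (0 + ttB k A (⁅x, X⁆ ⊗ₜ p) (Y ⊗ₜ q)) + (0 + ttB k A (X ⊗ₜ p) (⁅x, Y⁆ ⊗ₜ q))
        rw [zero_add, zero_add, ttB_tmul, ttB_tmul, ← add_smul, ← mul_add, ht, mul_zero, zero_smul]
    | hB r s =>
      rw [actG_tmul, actG_inB, lie_zero, add_zero, brk_skew, inB_brk, map_neg, actG_derG,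
        actG_tmul, brk_skew (inT _), inB_brk]
    | hadd a b ha hb => rw [lie_add, map_add, ha, hb, map_add, lie_add, lie_add]; abel
  | hB r s =>
    rw [actG_inB, zero_lie, zero_add, inB_brk, inB_brk, actG_derG]
  | hadd a b ha hb => rw [add_lie, map_add, ha, hb, map_add, add_lie, add_lie]; abel

instance : LieRingModule (sl3 k) (ABG k A) where
  bracket x y := actG x y
  add_lie x y w := LinearMap.congr_fun (actG_add x y) w
  lie_add x w w' := map_add _ w w'
  leibniz_lie x y w := by
    have h := LinearMap.congr_fun (actG_lie (A := A) x y) w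
    show actG x (actG y w) = actG ⁅x, y⁆ w + actG y (actG x w)
    rw [h, LinearMap.sub_apply, LinearMap.comp_apply, LinearMap.comp_apply, sub_add_cancel]

theorem ABG_lie (x : sl3 k) (w : ABG k A) : ⁅x, w⁆ = actG x w := rfl

instance : LieModule k (sl3 k) (ABG k A) where
  smul_lie c x w := LinearMap.congr_fun (actG_smul c x) w
  lie_smul c x w := map_smul _ c w

instance : DerAction (sl3 k) (ABG k A) where
  leib := actG_brk

end Pool.Agent.R412.ABG

end
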