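import Pool.Agent.R412.ABG.Sl3

/-!
# The adjoint module of `sl₃`
-/

set_option autoImplicit false
set_option linter.unusedSimpArgs false
set_option linter.unusedSectionVars false
set_option linter.unusedTactic false
set_option linter.unreachableTactic false

noncomputable section

open Module LieModule LieAlgebra.SpecialLinear

namespace Pool.Agent.R412.ABG

variable {k : Type*} [Field k]

/-! ### Adjoint vectors -/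

section AdjVec

variable {g M : Type*} [LieRing g] [LieAlgebra k g] [AddCommGroup M] [Module k M]
  [LieRingModule g M] [LieModule k g M]

/-- Highest weight vectors of the weight of the adjoint module. -/
structure AdjVec (S : Chev g) (w : M) : Prop where
  e₁ : ⁅S.e₁, w⁆ = 0
  e₂ : ⁅S.e₂, w⁆ = 0
  h₁ : ⁅S.h₁, w⁆ = w
  h₂ : ⁅S.h₂, w⁆ = w
  f₁f₁ : ⁅S.f₁, ⁅S.f₁, w⁆⁆ = 0
  f₂f₂ : ⁅S.f₂, ⁅S.f₂, w⁆⁆ = 0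

namespace AdjVec

variable {S : Chev g} {w : M} (h : AdjVec S w)

include h

theorem e₃ : ⁅S.e₃, w⁆ = 0 := by rw [Chev.e₃, lie_lie, h.e₁, h.e₂, lie_zero, lie_zero, sub_zero]

theorem r3 : ⁅S.f₁, ⁅S.f₁, ⁅S.f₃, w⁆⁆⁆ = 0 := by
  rw [← S.n_f₃f₁, ← S.n_f₃f₁, h.f₁f₁, lie_zero]

theorem r4 : ⁅S.f₂, ⁅S.f₂, ⁅S.f₃, w⁆⁆⁆ = 0 := by
  rw [← S.n_f₃f₂, ← S.n_f₃f₂, h.f₂f₂, lie_zero]

theorem r2 : ⁅S.f₂, ⁅S.f₂, ⁅S.f₁, w⁆⁆⁆ = 2 • ⁅S.f₂, ⁅S.f₃, w⁆⁆ := by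
  have h1 : ⁅S.f₁, ⁅S.f₂, ⁅S.f₂, w⁆⁆⁆ = 0 := by rw [h.f₂f₂, lie_zero]
  simp only [S.n_f₁f₂, lie_sub, S.n_f₃f₂] at h1
  rw [← sub_eq_zero, ← h1]
  abel

theorem r5 [CharZero k] : ⁅S.f₃, ⁅S.f₃, w⁆⁆ = 2 • ⁅S.f₂, ⁅S.f₁, ⁅S.f₃, w⁆⁆⁆ := by
  have h1 : ⁅S.f₁, ⁅S.f₂, ⁅S.f₂, ⁅S.f₁, w⁆⁆⁆⁆ = ⁅S.f₁, 2 • ⁅S.f₂, ⁅S.f₃, w⁆⁆⁆ := by rw [h.r2]
  simp only [S.n_f₁f₂, lie_sub, S.n_f₃f₂, S.n_f₃f₁, lie_nsmul, h.f₁f₁, lie_zero] at h1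
  have h2 : (2 : k) • (⁅S.f₃, ⁅S.f₃, w⁆⁆ - 2 • ⁅S.f₂, ⁅S.f₁, ⁅S.f₃, w⁆⁆⁆) = 0 := by
    rw [← sub_eq_zero] at h1
    rw [← h1]
    module
  exact sub_eq_zero.1 ((smul_eq_zero.1 h2).resolve_left two_ne_zero)

theorem r6 [CharZero k] : ⁅S.f₁, ⁅S.f₂, ⁅S.f₁, ⁅S.f₃, w⁆⁆⁆⁆ = 0 := by
  have h1 : ⁅S.f₁, ⁅S.f₂, ⁅S.f₁, ⁅S.f₃, w⁆⁆⁆⁆ = -⁅S.f₁, ⁅S.f₃, ⁅S.f₃, w⁆⁆⁆ := by
    rw [S.n_f₁f₂, h.r3, lie_zero, S.n_f₃f₁, zero_sub]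
  rw [h.r5 (k := k), lie_nsmul] at h1
  have h2 : (3 : k) • ⁅S.f₁, ⁅S.f₂, ⁅S.f₁, ⁅S.f₃, w⁆⁆⁆⁆ = 0 := by
    rw [← sub_eq_zero] at h1
    rw [← h1]
    module
  exact (smul_eq_zero.1 h2).resolve_left three_ne_zero

theorem r7 [CharZero k] : ⁅S.f₂, ⁅S.f₂, ⁅S.f₁, ⁅S.f₃, w⁆⁆⁆⁆ = 0 := by
  have h1 : ⁅S.f₂, ⁅S.f₂, ⁅S.f₁, ⁅S.f₃, w⁆⁆⁆⁆ = ⁅S.f₃, ⁅S.f₂, ⁅S.f₂, ⁅S.f₁, w⁆⁆⁆⁆ := by
    rw [← S.n_f₃f₁, ← S.n_f₃f₂, ← S.n_f₃f₂]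
  have h2 : ⁅S.f₃, ⁅S.f₂, ⁅S.f₂, ⁅S.f₁, w⁆⁆⁆⁆ = 4 • ⁅S.f₂, ⁅S.f₂, ⁅S.f₁, ⁅S.f₃, w⁆⁆⁆⁆ := by
    rw [h.r2, lie_nsmul, S.n_f₃f₂, h.r5 (k := k), lie_nsmul, smul_smul]; rfl
  rw [h2] at h1
  have h3 : (3 : k) • ⁅S.f₂, ⁅S.f₂, ⁅S.f₁, ⁅S.f₃, w⁆⁆⁆⁆ = 0 := by
    rw [← sub_eq_zero, ← neg_eq_zero] at h1
    rw [← h1]
    module
  exact (smul_eq_zero.1 h3).resolve_left three_ne_zero

end AdjVec

end AdjVec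

section adj

variable [CharZero k] {M : Type*} [AddCommGroup M] [Module k M] [LieRingModule (sl3 k) M]
  [LieModule k (sl3 k) M]

/-- The map from the adjoint module defined by a vector. -/
def adjL (w : M) : sl3 k →ₗ[k] M where
  toFun x := x.val 0 2 • w + x.val 1 2 • ⁅(SS k).f₁, w⁆ - x.val 0 1 • ⁅(SS k).f₂, w⁆ -
    x.val 0 0 • ⁅(SS k).f₃, w⁆ - x.val 1 1 • ⁅(SS k).f₂, ⁅(SS k).f₁, w⁆⁆ -
    x.val 1 0 • ⁅(SS k).f₁, ⁅(SS k).f₃, w⁆⁆ - x.val 2 1 • ⁅(SS k).f₂, ⁅(SS k).f₃, w⁆⁆ -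
    x.val 2 0 • ⁅(SS k).f₂, ⁅(SS k).f₁, ⁅(SS k).f₃, w⁆⁆⁆
  map_add' x y := by simp only [add_val, add_smul]; abel
  map_smul' c x := by simp only [smul_val, mul_smul, smul_add, smul_sub, RingHom.id_apply]

theorem adjL_apply (w : M) (x : sl3 k) : adjL w x =
    x.val 0 2 • w + x.val 1 2 • ⁅(SS k).f₁, w⁆ - x.val 0 1 • ⁅(SS k).f₂, w⁆ -
    x.val 0 0 • ⁅(SS k).f₃, w⁆ - x.val 1 1 • ⁅(SS k).f₂, ⁅(SS k).f₁, w⁆⁆ -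
    x.val 1 0 • ⁅(SS k).f₁, ⁅(SS k).f₃, w⁆⁆ - x.val 2 1 • ⁅(SS k).f₂, ⁅(SS k).f₃, w⁆⁆ -
    x.val 2 0 • ⁅(SS k).f₂, ⁅(SS k).f₁, ⁅(SS k).f₃, w⁆⁆⁆ := rfl

variable {w : M} (h : AdjVec (SS k) w)

include h

omit h in
theorem SSe₁_val (x : sl3 k) (a b : Fin 3) : (⁅(SS k).e₁, x⁆).val a b =
    (if a = 0 then x.val 1 b else 0) - (if b = 1 then x.val a 0 else 0) := E_lie_apply _ _ _ _ _ _

omit h in
theorem SSe₂_val (x : sl3 k) (a b : Fin 3) : (⁅(SS k).e₂, x⁆).val a b =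
    (if a = 1 then x.val 2 b else 0) - (if b = 2 then x.val a 1 else 0) := E_lie_apply _ _ _ _ _ _

omit h in
theorem SSf₁_val (x : sl3 k) (a b : Fin 3) : (⁅(SS k).f₁, x⁆).val a b =
    (if a = 1 then x.val 0 b else 0) - (if b = 0 then x.val a 1 else 0) := E_lie_apply _ _ _ _ _ _

omit h in
theorem SSf₂_val (x : sl3 k) (a b : Fin 3) : (⁅(SS k).f₂, x⁆).val a b =
    (if a = 2 then x.val 1 b else 0) - (if b = 1 then x.val a 2 else 0) := E_lie_apply _ _ _ _ _ _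

theorem adjL_e₁ (x : sl3 k) : adjL w ⁅(SS k).e₁, x⁆ = ⁅(SS k).e₁, adjL w x⁆ := by
  have ht : x.val 2 2 = - x.val 0 0 - x.val 1 1 := by linear_combination tr_zero x
  rw [adjL_apply, adjL_apply]
  simp only [lie_add, lie_sub, lie_smul, h.e₁, h.e₂, Chev.n_e₁f₁, Chev.n_e₁f₂, Chev.n_e₁f₃,
    Chev.n_h₁f₁, Chev.n_h₁f₂, Chev.n_h₁f₃, Chev.n_f₁f₂, h.h₁, h.h₂, h.f₂f₂, h.r2, h.r3,
    lie_zero, smul_zero, sub_self]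
  simp (decide := true) only [SSe₁_val, if_true, if_false]
  try rw [ht]
  module

theorem adjL_e₂ (x : sl3 k) : adjL w ⁅(SS k).e₂, x⁆ = ⁅(SS k).e₂, adjL w x⁆ := by
  have ht : x.val 2 2 = - x.val 0 0 - x.val 1 1 := by linear_combination tr_zero x
  rw [adjL_apply, adjL_apply]
  simp only [lie_add, lie_sub, lie_smul, h.e₁, h.e₂, Chev.n_e₂f₁, Chev.n_e₂f₂, Chev.n_e₂f₃,
    Chev.n_h₂f₁, Chev.n_h₂f₂, Chev.n_h₂f₃, Chev.n_f₁f₂, h.h₁, h.h₂, h.f₁f₁, h.f₂f₂, h.r2, h.r3,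
    lie_zero, smul_zero, sub_self]
  simp (decide := true) only [SSe₂_val, if_true, if_false]
  rw [ht]
  module

theorem adjL_f₁ (x : sl3 k) : adjL w ⁅(SS k).f₁, x⁆ = ⁅(SS k).f₁, adjL w x⁆ := by
  have ht : x.val 2 2 = - x.val 0 0 - x.val 1 1 := by linear_combination tr_zero x
  rw [adjL_apply, adjL_apply]
  simp only [lie_add, lie_sub, lie_smul, h.f₁f₁, h.f₂f₂, h.r2, h.r3, h.r6 (k := k)]
  simp only [Chev.n_f₁f₂, h.r5 (k := k), h.f₁f₁, lie_zero, Chev.n_f₃f₁, h.r3]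
  simp (decide := true) only [SSf₁_val, if_true, if_false]
  try rw [ht]
  module

theorem adjL_f₂ (x : sl3 k) : adjL w ⁅(SS k).f₂, x⁆ = ⁅(SS k).f₂, adjL w x⁆ := by
  have ht : x.val 2 2 = - x.val 0 0 - x.val 1 1 := by linear_combination tr_zero x
  rw [adjL_apply, adjL_apply]
  simp only [lie_add, lie_sub, lie_smul, h.f₁f₁, h.f₂f₂, h.r2, h.r4, h.r7 (k := k)]
  simp (decide := true) only [SSf₂_val, if_true, if_false]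
  try rw [ht]
  module

/-- The homomorphism from the adjoint module. -/
theorem adjL_lie (y x : sl3 k) : adjL w ⁅y, x⁆ = ⁅y, adjL w x⁆ := by
  induction y using sl3_ind generalizing x with
  | hadd y z hy hz => rw [add_lie, map_add, hy, hz, add_lie]
  | hsmul c y hy => rw [smul_lie, map_smul, hy, smul_lie]
  | hlie y z hy hz => rw [lie_lie, map_sub, hy, hz, hz, hy, lie_lie]
  | he1 => exact adjL_e₁ h x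
  | he2 => exact adjL_e₂ h x
  | hf1 => exact adjL_f₁ h x
  | hf2 => exact adjL_f₂ h x

end adj

end Pool.Agent.R412.ABG

end
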