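import Mathlib

/-!
# Alternative algebras, the space `B(A)` and the inner derivations
-/

set_option autoImplicit false
set_option linter.unusedSimpArgs false
set_option linter.unusedSectionVars false

noncomputable section

open scoped TensorProduct

namespace Pool.Agent.R412.ABG

/-- Alternative algebras: `(pp)q = p(pq)` and `(qp)p = q(pp)`. -/
class IsAlt (A : Type*) [NonUnitalNonAssocRing A] : Prop where
  left : ∀ p q : A, p * p * q = p * (p * q)
  right : ∀ p q : A, q * p * p = q * (p * p)

section as

variable {A : Type*} [NonUnitalNonAssocRing A]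

/-- The associator. -/
def as (p q r : A) : A := p * q * r - p * (q * r)

theorem as_add₁ (p p' q r : A) : as (p + p') q r = as p q r + as p' q r := by
  simp only [as, add_mul]; abel
theorem as_add₂ (p q q' r : A) : as p (q + q') r = as p q r + as p q' r := by
  simp only [as, add_mul, mul_add]; abel
theorem as_add₃ (p q r r' : A) : as p q (r + r') = as p q r + as p q r' := by
  simp only [as, mul_add]; abel

variable [IsAlt A]

theorem as_self₁ (p q : A) : as p p q = 0 := by rw [as, IsAlt.left, sub_self]
theorem as_self₂ (p q : A) : as q p p = 0 := by rw [as, IsAlt.right, sub_self]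

theorem S12 (p q r : A) : as p q r = -as q p r := by
  have h := as_self₁ (p + q) r
  rw [as_add₁, as_add₂, as_add₂, as_self₁, as_self₁, zero_add, add_zero] at h
  exact eq_neg_of_add_eq_zero_left h

theorem S23 (q r p : A) : as p q r = -as p r q := by
  have h := as_self₂ (q + r) p
  rw [as_add₃, as_add₂, as_add₂, as_self₂, as_self₂, zero_add, add_zero] at h
  rw [add_comm] at h
  exact eq_neg_of_add_eq_zero_left h

/-- The Teichmüller identity. -/
theorem tei (w x y z : A) : as (w * x) y z + as (x * y) w z + as (y * z) w x =
    w * as x y z + as w x y * z := by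
  have h : as (w * x) y z - as w (x * y) z + as w x (y * z) = w * as x y z + as w x y * z := by
    simp only [as, mul_sub, sub_mul]; abel
  rw [← h, S12 w (x * y) z, S23 x (y * z) w, S12 w (y * z) x]
  abel

/-- First identity of degree four. -/
theorem id1 (p q r s : A) :
    as (r * s) p q + as (p * q) r s - as (q * p) r s = as p q r * s + r * as p q s := by
  have t1 := tei q s r p
  have t2 := tei r q s p
  have t3 := tei s p r q
  have t4 := tei q p r s
  have t5 := tei s r p q
  simp only [S23 q p, S23 r p, S23 s p, S23 r q, S23 s q, S23 s r, S12 q p, S12 r p, S12 s p,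
    S12 r q, S12 s q, S12 s r, mul_neg, neg_mul, neg_neg] at t1 t2 t3 t4 t5 ⊢
  linear_combination (norm := abel) -t1 + t2 - t3 - t4 - t5

/-- Second identity of degree four. -/
theorem id2 (p q r s : A) :
    as (p * q) r s + as (q * r) p s + as (r * p) q s = as p q r * s - s * as p q r := by
  have t1 := tei q s r p
  have t2 := tei r s p q
  have t3 := tei s r p q
  have t4 := tei q r s p
  have t5 := tei r p q s
  simp only [S23 q p, S23 r p, S23 s p, S23 r q, S23 s q, S23 s r, S12 q p, S12 r p, S12 s p,
    S12 r q, S12 s q, S12 s r, mul_neg, neg_mul, neg_neg] at t1 t2 t3 t4 t5 ⊢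
  linear_combination (norm := abel) -t1 - t2 - t3 - t4 + t5

/-- The inner derivation `D_{p,q} = [L_p, L_q] + [R_p, R_q] + [L_p, R_q]`. -/
def Dv (p q r : A) : A :=
  (p * (q * r) - q * (p * r)) + (r * q * p - r * p * q) + (p * (r * q) - p * r * q)

theorem Dv_eq (p q r : A) :
    Dv p q r = (p * q - q * p) * r - r * (p * q - q * p) - 3 • as p q r := by
  have h1 : p * (q * r) = p * q * r - as p q r := by rw [as]; abel
  have h2 : q * (p * r) = q * p * r - as q p r := by rw [as]; abel
  have h3 : r * q * p = r * (q * p) + as r q p := by rw [as]; abel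
  have h4 : r * p * q = r * (p * q) + as r p q := by rw [as]; abel
  have h5 : p * (r * q) = p * r * q - as p r q := by rw [as]; abel
  rw [Dv, h1, h2, h3, h4, h5]
  have k1 : as q p r = -as p q r := S12 _ _ _
  have k2 : as p r q = -as p q r := S23 _ _ _
  have k3 : as r p q = as p q r := by rw [S12, k2, neg_neg]
  have k4 : as r q p = -as p q r := by rw [S23, k3]
  rw [k1, k2, k3, k4]
  simp only [mul_sub, sub_mul]
  abel

/-- `D_{p,q}` is a derivation. -/
theorem Dv_mul (p q r s : A) : Dv p q (r * s) = Dv p q r * s + r * Dv p q s := by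
  have h := id1 p q r s
  set u := p * q - q * p with hu
  have h1 : as u r s = as (p * q) r s - as (q * p) r s := by
    rw [hu]; simp only [as, sub_mul]; abel
  have h2 : as p q (r * s) = as (r * s) p q := by
    rw [S23 q (r * s) p, S12 p (r * s) q, neg_neg]
  have h3 : u * (r * s) - r * s * u = (u * r - r * u) * s + r * (u * s - s * u) - 3 • as u r s := by
    have k1 : u * (r * s) = u * r * s - as u r s := by rw [as]; abel
    have k2 : r * s * u = r * (s * u) + as r s u := by rw [as]; abel
    have k3 : r * u * s = r * (u * s) + as r u s := by rw [as]; abel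
    have k4 : as r u s = -as u r s := S12 _ _ _
    have k5 : as r s u = as u r s := by rw [S23 s u r, k4, neg_neg]
    simp only [sub_mul, mul_sub]
    rw [k1, k2, k3, k4, k5]
    abel
  rw [Dv_eq, Dv_eq, Dv_eq, ← hu, h3, h1, h2]
  simp only [sub_mul, mul_sub, smul_mul_assoc, mul_smul_comm]
  have h4 : 3 • (as (r * s) p q + as (p * q) r s - as (q * p) r s) =
      3 • (as p q r * s + r * as p q s) := by rw [h]
  linear_combination (norm := abel) -h4

theorem Dv_self (p r : A) : Dv p p r = 0 := by
  rw [Dv_eq, as_self₁, sub_self, zero_mul, mul_zero, smul_zero, sub_self, sub_self]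

theorem Dv_cyc (p q r s : A) : Dv (p * q) r s + Dv (q * r) p s + Dv (r * p) q s = 0 := by
  have h := id2 p q r s
  have h1 : (p * q * r - r * (p * q)) + (q * r * p - p * (q * r)) + (r * p * q - q * (r * p)) =
      3 • as p q r := by
    have k1 : as q r p = as p q r := by rw [S23 r p q, S12 q p r, neg_neg]
    have k2 : as r p q = as p q r := by rw [S12 r p q, S23 r q p, neg_neg]
    calc _ = as p q r + as q r p + as r p q := by simp only [as]; abel
      _ = _ := by rw [k1, k2]; abel
  have h2 : 3 • (as p q r * s - s * as p q r) =
      ((p * q * r - r * (p * q)) + (q * r * p - p * (q * r)) + (r * p * q - q * (r * p))) * s -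
      s * ((p * q * r - r * (p * q)) + (q * r * p - p * (q * r)) + (r * p * q - q * (r * p))) := by
    rw [h1, smul_mul_assoc, mul_smul_comm, smul_sub]
  have h3 : 3 • (as (p * q) r s + as (q * r) p s + as (r * p) q s) =
      3 • (as p q r * s - s * as p q r) := by rw [h]
  rw [Dv_eq, Dv_eq, Dv_eq]
  simp only [add_mul, mul_add, sub_mul, mul_sub] at h2 ⊢
  linear_combination (norm := abel) -h3 - h2

end as

end Pool.Agent.R412.ABG

end
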