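import Pool.Agent.R412.ABG.AltAlg

/-!
# The space `B(A)` and derivations
-/

set_option autoImplicit false
set_option linter.unusedSimpArgs false
set_option linter.unusedSectionVars false

noncomputable section

open scoped TensorProduct

namespace Pool.Agent.R412.ABG

variable (k A : Type*) [Field k] [NonUnitalNonAssocRing A] [Module k A] [IsScalarTower k A A]
  [SMulCommClass k A A]

/-- The relations `p ∧ p = 0` and `pq ∧ r + qr ∧ p + rp ∧ q = 0`. -/
def relB : Submodule k (A ⊗[k] A) :=
  Submodule.span k ({x | ∃ p : A, x = p ⊗ₜ[k] p} ∪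
    {x | ∃ p q r : A, x = (p * q) ⊗ₜ[k] r + (q * r) ⊗ₜ[k] p + (r * p) ⊗ₜ[k] q})

/-- `B(A) = Λ²(A) / span {pq ∧ r + qr ∧ p + rp ∧ q}`, as a quotient of `A ⊗ A`. -/
def BB : Type _ := (A ⊗[k] A) ⧸ relB k A

instance : AddCommGroup (BB k A) := inferInstanceAs (AddCommGroup ((A ⊗[k] A) ⧸ relB k A))
instance : Module k (BB k A) := inferInstanceAs (Module k ((A ⊗[k] A) ⧸ relB k A))

/-- The quotient map. -/
def mkB : A ⊗[k] A →ₗ[k] BB k A := (relB k A).mkQ

variable {A}

/-- The class of `p ∧ q`. -/
def wd (p q : A) : BB k A := mkB k A (p ⊗ₜ[k] q)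

variable {k}

theorem wd_add_left (p p' q : A) : wd k (p + p') q = wd k p q + wd k p' q := by
  rw [wd, TensorProduct.add_tmul, map_add]; rfl
theorem wd_add_right (p q q' : A) : wd k p (q + q') = wd k p q + wd k p q' := by
  rw [wd, TensorProduct.tmul_add, map_add]; rfl
theorem wd_smul_left (c : k) (p q : A) : wd k (c • p) q = c • wd k p q := by
  rw [wd, ← TensorProduct.smul_tmul', map_smul]; rfl
theorem wd_smul_right (c : k) (p q : A) : wd k p (c • q) = c • wd k p q := by
  rw [wd, TensorProduct.tmul_smul, map_smul]; rfl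

theorem wd_self (p : A) : wd k p p = 0 :=
  (Submodule.Quotient.mk_eq_zero (relB k A)).2 (Submodule.subset_span (Or.inl ⟨p, rfl⟩))

theorem wd_cyc (p q r : A) : wd k (p * q) r + wd k (q * r) p + wd k (r * p) q = 0 := by
  rw [wd, wd, wd, ← map_add, ← map_add]
  exact (Submodule.Quotient.mk_eq_zero (relB k A)).2 (Submodule.subset_span (Or.inr ⟨p, q, r, rfl⟩))

theorem wd_swap (p q : A) : wd k p q = -wd k q p := by
  have h := wd_self (k := k) (p + q)
  rw [wd_add_left, wd_add_right, wd_add_right, wd_self, wd_self, zero_add, add_zero] at h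
  exact eq_neg_of_add_eq_zero_left h

theorem wd_zero_left (q : A) : wd k 0 q = 0 := by rw [wd, TensorProduct.zero_tmul, map_zero]
theorem wd_zero_right (q : A) : wd k q 0 = 0 := by rw [wd, TensorProduct.tmul_zero, map_zero]
theorem wd_neg_left (p q : A) : wd k (-p) q = -wd k p q := by
  rw [wd, TensorProduct.neg_tmul, map_neg]; rfl
theorem wd_neg_right (p q : A) : wd k p (-q) = -wd k p q := by
  rw [wd, TensorProduct.tmul_neg, map_neg]; rfl
theorem wd_sub_left (p p' q : A) : wd k (p - p') q = wd k p q - wd k p' q := by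
  rw [sub_eq_add_neg, wd_add_left, wd_neg_left, ← sub_eq_add_neg]
theorem wd_sub_right (p q q' : A) : wd k p (q - q') = wd k p q - wd k p q' := by
  rw [sub_eq_add_neg, wd_add_right, wd_neg_right, ← sub_eq_add_neg]

theorem BB_ind {P : BB k A → Prop} (hwd : ∀ p q, P (wd k p q)) (hadd : ∀ x y, P x → P y → P (x + y))
    (x : BB k A) : P x := by
  obtain ⟨x, rfl⟩ := Submodule.Quotient.mk_surjective _ x
  induction x using TensorProduct.induction_on with
  | zero =>
    have h := hwd 0 0
    rw [wd_zero_left] at h
    exact h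
  | tmul p q => exact hwd p q
  | add x y hx hy => exact hadd _ _ hx hy

theorem BB_hom_ext {N : Type*} [AddCommMonoid N] [Module k N] {f g : BB k A →ₗ[k] N}
    (h : ∀ p q, f (wd k p q) = g (wd k p q)) : f = g := by
  ext x
  induction x using BB_ind with
  | hwd p q => exact h p q
  | hadd x y hx hy => rw [map_add, map_add, hx, hy]

variable (k A)

/-- The derivations of `A`. -/
def derA : Submodule k (A →ₗ[k] A) where
  carrier := {T | ∀ r s, T (r * s) = T r * s + r * T s}
  add_mem' {S T} hS hT r s := by
    rw [LinearMap.add_apply, hS, hT, LinearMap.add_apply, LinearMap.add_apply, add_mul, mul_add]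
    abel
  zero_mem' r s := by simp
  smul_mem' c T hT r s := by
    rw [LinearMap.smul_apply, hT, LinearMap.smul_apply, LinearMap.smul_apply, smul_add,
      smul_mul_assoc, mul_smul_comm]

variable {k A}

theorem derA_mul (T : derA k A) (r s : A) : T.1 (r * s) = T.1 r * s + r * T.1 s := T.2 r s

/-- The action of an endomorphism on `A ⊗ A`, with values in `B(A)`. -/
def actT (T : A →ₗ[k] A) : A ⊗[k] A →ₗ[k] BB k A :=
  mkB k A ∘ₗ (TensorProduct.map T LinearMap.id + TensorProduct.map LinearMap.id T)

theorem actT_tmul (T : A →ₗ[k] A) (p q : A) : actT T (p ⊗ₜ[k] q) = wd k (T p) q + wd k p (T q) := by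
  rw [actT, LinearMap.comp_apply, LinearMap.add_apply, TensorProduct.map_tmul,
    TensorProduct.map_tmul, map_add]; rfl

theorem actT_rel (T : derA k A) : relB k A ≤ LinearMap.ker (actT T.1) := by
  rw [relB, Submodule.span_le]
  rintro x (⟨p, rfl⟩ | ⟨p, q, r, rfl⟩)
  · show actT T.1 _ = 0
    rw [actT_tmul, wd_swap, neg_add_cancel]
  · show actT T.1 _ = 0
    rw [map_add, map_add, actT_tmul, actT_tmul, actT_tmul, derA_mul, derA_mul, derA_mul,
      wd_add_left, wd_add_left, wd_add_left]
    have h1 := wd_cyc (k := k) (T.1 p) q r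
    have h2 := wd_cyc (k := k) p (T.1 q) r
    have h3 := wd_cyc (k := k) p q (T.1 r)
    linear_combination (norm := abel) h1 + h2 + h3

/-- The action of a derivation on `B(A)`. -/
def onB (T : derA k A) : BB k A →ₗ[k] BB k A := (relB k A).liftQ (actT T.1) (actT_rel T)

theorem onB_wd (T : derA k A) (p q : A) : onB T (wd k p q) = wd k (T.1 p) q + wd k p (T.1 q) :=
  actT_tmul T.1 p q

variable [IsAlt A]

/-- The inner derivations as a bilinear map. -/
def DvL : A →ₗ[k] A →ₗ[k] (A →ₗ[k] A) :=
  LinearMap.mk₂ k
    (fun p q =>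
      { toFun := fun r => Dv p q r
        map_add' := fun r r' => by simp only [Dv, mul_add, add_mul]; abel
        map_smul' := fun c r => by
          simp only [Dv, smul_mul_assoc, mul_smul_comm, smul_add, smul_sub, RingHom.id_apply] })
    (by intro p p' q; ext r; simp only [LinearMap.coe_mk, AddHom.coe_mk, LinearMap.add_apply, Dv,
          mul_add, add_mul]; abel)
    (by intro c p q; ext r; simp only [LinearMap.coe_mk, AddHom.coe_mk, LinearMap.smul_apply, Dv,
          smul_mul_assoc, mul_smul_comm, smul_add, smul_sub])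
    (by intro p p' q; ext r; simp only [LinearMap.coe_mk, AddHom.coe_mk, LinearMap.add_apply, Dv,
          mul_add, add_mul]; abel)
    (by intro c p q; ext r; simp only [LinearMap.coe_mk, AddHom.coe_mk, LinearMap.smul_apply, Dv,
          smul_mul_assoc, mul_smul_comm, smul_add, smul_sub])

theorem DvL_apply (p q r : A) : DvL (k := k) p q r = Dv p q r := rfl

/-- The inner derivations as a linear map on `B(A)`. -/
def DB : BB k A →ₗ[k] (A →ₗ[k] A) :=
  (relB k A).liftQ (TensorProduct.lift DvL) (by
    rw [relB, Submodule.span_le]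
    rintro x (⟨p, rfl⟩ | ⟨p, q, r, rfl⟩)
    · show TensorProduct.lift DvL _ = 0
      rw [TensorProduct.lift.tmul]
      ext r; exact Dv_self p r
    · show TensorProduct.lift DvL _ = 0
      rw [map_add, map_add, TensorProduct.lift.tmul, TensorProduct.lift.tmul,
        TensorProduct.lift.tmul]
      ext s; exact Dv_cyc p q r s)

theorem DB_wd (p q r : A) : DB (k := k) (wd k p q) r = Dv p q r := rfl

/-- The inner derivation of an element of `B(A)`. -/
def DD (b : BB k A) : derA k A := ⟨DB b, by
  induction b using BB_ind with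
  | hwd p q => intro r s; exact Dv_mul p q r s
  | hadd x y hx hy => rw [map_add]; exact Submodule.add_mem _ hx hy⟩

theorem DD_val (b : BB k A) : (DD b).1 = DB b := rfl

theorem onB_add (S T : derA k A) (b : BB k A) : onB (S + T) b = onB S b + onB T b := by
  induction b using BB_ind with
  | hwd p q =>
    rw [onB_wd, onB_wd, onB_wd]
    show wd k (S.1 p + T.1 p) q + wd k p (S.1 q + T.1 q) = _
    rw [wd_add_left, wd_add_right]; abel
  | hadd x y hx hy => rw [map_add, map_add, map_add, hx, hy]; abel

theorem onB_smul (c : k) (T : derA k A) (b : BB k A) : onB (c • T) b = c • onB T b := by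
  induction b using BB_ind with
  | hwd p q =>
    rw [onB_wd, onB_wd]
    show wd k (c • T.1 p) q + wd k p (c • T.1 q) = _
    rw [wd_smul_left, wd_smul_right, smul_add]
  | hadd x y hx hy => rw [map_add, map_add, hx, hy, smul_add]

/-- The commutator of a derivation with an inner derivation. -/
theorem comm_DB (T : derA k A) (b : BB k A) (r : A) :
    T.1 (DB b r) = DB (onB T b) r + DB b (T.1 r) := by
  induction b using BB_ind with
  | hwd p q =>
    rw [onB_wd, map_add, LinearMap.add_apply, DB_wd, DB_wd, DB_wd, DB_wd]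
    simp only [Dv, map_add, map_sub, derA_mul]
    simp only [mul_add, add_mul]
    abel
  | hadd x y hx hy =>
    rw [map_add DB, LinearMap.add_apply, map_add, hx, hy, map_add (onB T), map_add DB,
      LinearMap.add_apply, LinearMap.add_apply]
    abel

theorem comm_onB (T : derA k A) (b c : BB k A) :
    onB T (onB (DD b) c) = onB (DD (onB T b)) c + onB (DD b) (onB T c) := by
  induction c using BB_ind with
  | hwd p q =>
    simp only [onB_wd, map_add, DD_val, comm_DB, wd_add_left, wd_add_right]
    abel
  | hadd x y hx hy => simp only [map_add, hx, hy]; abel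

/-- The key identity in `B(A)`. -/
theorem wd_as (p q r s : A) : wd k (as p q r) s - wd k (as p q s) r + wd k (as r s p) q -
    wd k (as r s q) p = 0 := by
  have hR : ∀ a b c d : A, wd k (a * b * c) d + wd k (c * d) (a * b) + wd k (d * a * b) c -
      wd k (as d a b) c = 0 := by
    intro a b c d
    have h := wd_cyc (k := k) (a * b) c d
    have h2 : d * (a * b) = d * a * b - as d a b := by rw [as]; abel
    rw [h2, wd_sub_left] at h
    rw [← h]; abel
  have t1 := hR q p s r
  have t2 := hR p s r q
  have t3 := hR s r q p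
  have t4 := hR r q p s
  have c1 := wd_swap (k := k) (s * r) (q * p)
  have c2 := wd_swap (k := k) (r * q) (p * s)
  simp only [S23 q p, S23 r p, S23 s p, S23 r q, S23 s q, S23 s r, S12 q p, S12 r p, S12 s p,
    S12 r q, S12 s q, S12 s r, mul_neg, neg_mul, neg_neg, wd_neg_left] at t1 t2 t3 t4 ⊢
  linear_combination (norm := abel) t1 - t2 + t3 - t4 - c1 + c2

/-- The bracket of `B(A)` is skew-symmetric. -/
theorem onB_skew (b c : BB k A) : onB (DD b) c = -onB (DD c) b := by
  have key : ∀ p q r s : A, onB (DD (wd k p q)) (wd k r s) = -onB (DD (wd k r s)) (wd k p q) := by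
    intro p q r s
    rw [onB_wd, onB_wd, DD_val, DD_val, DB_wd, DB_wd, DB_wd, DB_wd]
    have h0 : ∀ u r s : A, wd k (u * r - r * u) s + wd k r (u * s - s * u) =
        wd k u (r * s - s * r) := by
      intro u r s
      have h1 := wd_cyc (k := k) u r s
      have h2 := wd_cyc (k := k) r u s
      have h3 := wd_swap (k := k) r (u * s)
      have h4 := wd_swap (k := k) r (s * u)
      have h5 := wd_swap (k := k) u (r * s)
      have h6 := wd_swap (k := k) u (s * r)
      simp only [wd_sub_left, wd_sub_right]
      linear_combination (norm := abel) h1 - h2 + h3 - h4 - h5 + h6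
    rw [Dv_eq, Dv_eq, Dv_eq, Dv_eq]
    have e1 := h0 (p * q - q * p) r s
    have e2 := h0 (r * s - s * r) p q
    have e3 := wd_swap (k := k) (p * q - q * p) (r * s - s * r)
    have e4 := wd_as (k := k) p q r s
    have e5 := wd_swap (k := k) r (as p q s)
    have e6 := wd_swap (k := k) p (as r s q)
    have e7 : ∀ x y z : A, wd k (x - 3 • y) z = wd k x z - 3 • wd k y z := by
      intro x y z
      rw [wd_sub_left, ← Nat.cast_smul_eq_nsmul k, wd_smul_left, Nat.cast_smul_eq_nsmul k]
    have e8 : ∀ x y z : A, wd k z (x - 3 • y) = wd k z x - 3 • wd k z y := by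
      intro x y z
      rw [wd_sub_right, ← Nat.cast_smul_eq_nsmul k, wd_smul_right, Nat.cast_smul_eq_nsmul k]
    rw [e7, e7, e8, e8]
    have e9 : (3 : ℕ) • (wd k (as p q r) s - wd k (as p q s) r + wd k (as r s p) q -
      wd k (as r s q) p) = 0 := by rw [e4, smul_zero]
    have e10 : (3 : ℕ) • wd k r (as p q s) = 3 • (-wd k (as p q s) r) := by rw [e5]
    have e11 : (3 : ℕ) • wd k p (as r s q) = 3 • (-wd k (as r s q) p) := by rw [e6]
    linear_combination (norm := abel) e1 + e2 + e3 - e9 - e10 - e11
  induction b using BB_ind with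
  | hwd p q =>
    induction c using BB_ind with
    | hwd r s => exact key p q r s
    | hadd x y hx hy =>
      have h1 : DD (x + y) = DD x + DD y := Subtype.ext (map_add DB x y)
      rw [map_add, hx, hy, h1, onB_add]; abel
  | hadd x y hx hy =>
    have h1 : DD (x + y) = DD x + DD y := Subtype.ext (map_add DB x y)
    rw [map_add, h1, onB_add, hx, hy]; abel

end Pool.Agent.R412.ABG

end
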