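import Mathlib

/-!
# The Chevalley–Eilenberg complex of a Lie algebra

The chains are the exterior algebra of `L`. `der T` is the derivation of the exterior algebra that
extends the endomorphism `T` of `L`, and `bd` is the Chevalley–Eilenberg boundary.
-/

set_option autoImplicit false

noncomputable section

open ExteriorAlgebra

namespace Pool.Agent.R412.ABG

section Der

variable {k V : Type*} [CommRing k] [AddCommGroup V] [Module k V]

/-- Auxiliary bilinear map. -/
def derAux (T : V →ₗ[k] V) :
    V →ₗ[k] ExteriorAlgebra k V × ExteriorAlgebra k V →ₗ[k] ExteriorAlgebra k V :=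
  LinearMap.mk₂ k (fun m x => ι k (T m) * x.1 + ι k m * x.2)
    (by intro m m' x; simp only [map_add, add_mul]; abel)
    (by intro c m x; simp only [map_smul, smul_mul_assoc, smul_add])
    (by intro m x y; simp only [Prod.fst_add, Prod.snd_add, mul_add]; abel)
    (by intro c m x; simp only [Prod.smul_fst, Prod.smul_snd, mul_smul_comm, smul_add])

theorem ι_swap (x y : V) : ι k x * ι k y = -(ι k y * ι k x) := by
  rw [eq_neg_iff_add_eq_zero]; exact ι_add_mul_swap x y

/-- The derivation of the exterior algebra of `V` that extends the endomorphism `T` of `V`. -/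
def der (T : V →ₗ[k] V) : ExteriorAlgebra k V →ₗ[k] ExteriorAlgebra k V :=
  CliffordAlgebra.foldr' (0 : QuadraticForm k V) (derAux T)
    (by
      intro m x fx
      have h2 : ι k m * ι k m = 0 := ι_sq_zero m
      have h1 : ι k (T m) * ι k m = -(ι k m * ι k (T m)) := ι_swap _ _
      show ι k (T m) * (ι k m * x) + ι k m * (ι k (T m) * x + ι k m * fx) = (0 : k) • fx
      rw [mul_add, ← mul_assoc, ← mul_assoc, ← mul_assoc, h1, h2]
      simp) 0

variable (T : V →ₗ[k] V)

theorem der_ι_mul (m : V) (x : ExteriorAlgebra k V) :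
    der T (ι k m * x) = ι k (T m) * x + ι k m * der T x := by
  rw [der]
  exact CliffordAlgebra.foldr'_ι_mul _ _ _ _ _ _

theorem der_one : der T (1 : ExteriorAlgebra k V) = 0 := by
  have h := CliffordAlgebra.foldr'_algebraMap (Q := (0 : QuadraticForm k V)) (derAux T)
    (by
      intro m x fx
      have h2 : ι k m * ι k m = 0 := ι_sq_zero m
      have h1 : ι k (T m) * ι k m = -(ι k m * ι k (T m)) := ι_swap _ _
      show ι k (T m) * (ι k m * x) + ι k m * (ι k (T m) * x + ι k m * fx) = (0 : k) • fx
      rw [mul_add, ← mul_assoc, ← mul_assoc, ← mul_assoc, h1, h2]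
      simp) 0 (1 : k)
  rw [map_one, smul_zero] at h
  exact h

theorem der_ι (m : V) : der T (ι k m) = ι k (T m) := by
  have := der_ι_mul T m 1
  rwa [der_one, mul_zero, add_zero, mul_one, mul_one] at this

/-- Induction in the exterior algebra. -/
theorem ext_ind {P : ExteriorAlgebra k V → Prop} (h1 : P 1)
    (hadd : ∀ x y, P x → P y → P (x + y)) (hsmul : ∀ (c : k) x, P x → P (c • x))
    (hmul : ∀ m x, P x → P (ι k m * x)) (x : ExteriorAlgebra k V) : P x := by
  induction x using CliffordAlgebra.left_induction with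
  | algebraMap r =>
    have h := hsmul r 1 h1
    rwa [← Algebra.algebraMap_eq_smul_one] at h
  | add x y hx hy => exact hadd x y hx hy
  | ι_mul x m hx => exact hmul m x hx

theorem der_add (S : V →ₗ[k] V) (x : ExteriorAlgebra k V) : der (S + T) x = der S x + der T x := by
  induction x using ext_ind with
  | h1 => simp only [der_one, add_zero]
  | hadd x y hx hy => simp only [map_add, hx, hy]; abel
  | hsmul c x hx => simp only [map_smul, hx, smul_add]
  | hmul m x hx => simp only [der_ι_mul, hx, LinearMap.add_apply, map_add, add_mul, mul_add]; abel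

theorem der_smul (c : k) (x : ExteriorAlgebra k V) : der (c • T) x = c • der T x := by
  induction x using ext_ind with
  | h1 => simp only [der_one, smul_zero]
  | hadd x y hx hy => simp only [map_add, hx, hy, smul_add]
  | hsmul c' x hx => rw [map_smul, map_smul, hx, smul_comm]
  | hmul m x hx =>
    simp only [der_ι_mul, hx, LinearMap.smul_apply, map_smul, smul_mul_assoc, mul_smul_comm,
      smul_add]

/-- `der` as a linear map. -/
def derL : (V →ₗ[k] V) →ₗ[k] (ExteriorAlgebra k V →ₗ[k] ExteriorAlgebra k V) where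
  toFun := der
  map_add' S T := LinearMap.ext fun x => der_add T S x
  map_smul' c T := LinearMap.ext fun x => der_smul T c x

theorem derL_apply : derL T = der T := rfl

/-- `der` of a commutator. -/
theorem der_comm (S : V →ₗ[k] V) (x : ExteriorAlgebra k V) :
    der S (der T x) - der T (der S x) = der (S ∘ₗ T - T ∘ₗ S) x := by
  induction x using ext_ind with
  | h1 => simp only [der_one, map_zero, sub_zero]
  | hadd x y hx hy =>
    rw [map_add, map_add, map_add, map_add, map_add, ← hx, ← hy]; abel
  | hsmul c x hx => rw [map_smul, map_smul, map_smul, map_smul, map_smul, ← hx, smul_sub]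
  | hmul m x hx =>
    simp only [der_ι_mul, map_add, ← hx, LinearMap.sub_apply, LinearMap.comp_apply, map_sub,
      sub_mul, mul_sub]
    abel

theorem der_der (S : V →ₗ[k] V) (x : ExteriorAlgebra k V) :
    der S (der T x) = der T (der S x) + der (S ∘ₗ T - T ∘ₗ S) x := by
  rw [← der_comm]; abel

end Der

section Bd

variable {k L : Type*} [CommRing k] [LieRing L] [LieAlgebra k L]

/-- The action `θ_x` on the exterior algebra. -/
def th (x : L) : ExteriorAlgebra k L →ₗ[k] ExteriorAlgebra k L := der (LieAlgebra.ad k L x)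

variable (k) in
/-- Auxiliary bilinear map. -/
def bdAux : L →ₗ[k] ExteriorAlgebra k L × ExteriorAlgebra k L →ₗ[k] ExteriorAlgebra k L :=
  LinearMap.mk₂ k (fun m x => der (LieAlgebra.ad k L m) x.1 - ι k m * x.2)
    (by
      intro m m' x
      rw [map_add (LieAlgebra.ad k L), der_add, map_add, add_mul]; abel)
    (by
      intro c m x
      rw [map_smul (LieAlgebra.ad k L), der_smul, map_smul, smul_mul_assoc, smul_sub])
    (by intro m x y; simp only [Prod.fst_add, Prod.snd_add, mul_add, map_add]; abel)
    (by intro c m x; simp only [Prod.smul_fst, Prod.smul_snd, mul_smul_comm, smul_sub, map_smul])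

theorem bdAux_bdAux (m : L) (x fx : ExteriorAlgebra k L) :
    bdAux k m (CliffordAlgebra.ι (0 : QuadraticForm k L) m * x, bdAux k m (x, fx)) =
      (0 : QuadraticForm k L) m • fx := by
  have h2 : ι k m * ι k m = 0 := ι_sq_zero m
  show der (LieAlgebra.ad k L m) (ι k m * x) -
    ι k m * (der (LieAlgebra.ad k L m) x - ι k m * fx) = (0 : k) • fx
  rw [der_ι_mul, mul_sub, ← mul_assoc (ι k m) (ι k m), h2]
  simp

variable (k L) in
/-- The Chevalley–Eilenberg boundary `∂(x₁ ∧ ⋯ ∧ xₙ) = ∑_{i<j} (-1) ^ (i+j+1) [x_i, x_j] ∧ ⋯`. -/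
def bd : ExteriorAlgebra k L →ₗ[k] ExteriorAlgebra k L :=
  CliffordAlgebra.foldr' (0 : QuadraticForm k L) (bdAux k) bdAux_bdAux 0

theorem bd_ι_mul (m : L) (x : ExteriorAlgebra k L) :
    bd k L (ι k m * x) = der (LieAlgebra.ad k L m) x - ι k m * bd k L x := by
  rw [bd]
  exact CliffordAlgebra.foldr'_ι_mul _ _ _ _ _ _

theorem bd_one : bd k L (1 : ExteriorAlgebra k L) = 0 := by
  have h := CliffordAlgebra.foldr'_algebraMap (Q := (0 : QuadraticForm k L)) (bdAux k)
    bdAux_bdAux 0 (1 : k)
  rw [map_one, smul_zero] at h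
  exact h

theorem bd_ι (m : L) : bd k L (ι k m) = 0 := by
  have h := bd_ι_mul (k := k) m 1
  rwa [bd_one, mul_zero, sub_zero, der_one, mul_one] at h

theorem bd_ι_ι (m m' : L) : bd k L (ι k m * ι k m') = ι k ⁅m, m'⁆ := by
  rw [bd_ι_mul, bd_ι, mul_zero, sub_zero, der_ι]; rfl

/-- A derivation of the Lie algebra commutes with the boundary. -/
theorem der_bd (D : L →ₗ[k] L) (hD : ∀ x y, D ⁅x, y⁆ = ⁅D x, y⁆ + ⁅x, D y⁆)
    (x : ExteriorAlgebra k L) : der D (bd k L x) = bd k L (der D x) := by
  have h1 : ∀ m : L, D ∘ₗ (LieAlgebra.ad k L m) - (LieAlgebra.ad k L m) ∘ₗ D =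
      LieAlgebra.ad k L (D m) := by
    intro m; ext y; simp [hD]
  induction x using ext_ind with
  | h1 => simp only [bd_one, der_one, map_zero]
  | hadd x y hx hy => simp only [map_add, hx, hy]
  | hsmul c x hx => simp only [map_smul, hx]
  | hmul m x hx =>
    rw [bd_ι_mul, map_sub, der_der, h1, der_ι_mul, der_ι_mul, map_add, bd_ι_mul, bd_ι_mul, hx]
    abel

theorem der_ad_bd (z : L) (x : ExteriorAlgebra k L) :
    der (LieAlgebra.ad k L z) (bd k L x) = bd k L (der (LieAlgebra.ad k L z) x) :=
  der_bd _ (fun x y => by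
    rw [LieAlgebra.ad_apply, LieAlgebra.ad_apply, LieAlgebra.ad_apply, leibniz_lie]) x

/-- `∂² = 0`. -/
theorem bd_bd (x : ExteriorAlgebra k L) : bd k L (bd k L x) = 0 := by
  induction x using ext_ind with
  | h1 => simp only [bd_one, map_zero]
  | hadd x y hx hy => simp only [map_add, hx, hy, add_zero]
  | hsmul c x hx => simp only [map_smul, hx, smul_zero]
  | hmul m x hx => rw [bd_ι_mul, map_sub, bd_ι_mul, hx, mul_zero, sub_zero, der_ad_bd, sub_self]

/-- The boundary lowers the exterior degree by one. -/
theorem der_id_bd (x : ExteriorAlgebra k L) :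
    der LinearMap.id (bd k L x) = bd k L (der LinearMap.id x) - bd k L x := by
  have h1 : ∀ m : L, (LinearMap.id : L →ₗ[k] L) ∘ₗ (LieAlgebra.ad k L m) -
      (LieAlgebra.ad k L m) ∘ₗ LinearMap.id = 0 := by
    intro m; ext y; simp
  have h2 : ∀ y : ExteriorAlgebra k L, der (0 : L →ₗ[k] L) y = 0 := by
    intro y
    rw [← derL_apply, map_zero]; rfl
  induction x using ext_ind with
  | h1 => rw [bd_one, der_one, map_zero, map_zero, sub_zero]
  | hadd x y hx hy => rw [map_add, map_add, map_add, map_add, hx, hy]; abel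
  | hsmul c x hx => rw [map_smul, map_smul, map_smul, map_smul, hx, smul_sub]
  | hmul m x hx =>
    rw [bd_ι_mul, map_sub, der_der, h1, h2, der_ι_mul, der_ι_mul, hx, map_add]
    rw [bd_ι_mul, bd_ι_mul]
    simp only [LinearMap.id_apply, mul_sub]
    abel

/-- The parity involution. -/
theorem inv_ι_mul' {V : Type*} [AddCommGroup V] [Module k V] (m : V) (x : ExteriorAlgebra k V) :
    CliffordAlgebra.involute (ι k m * x) = -(ι k m * CliffordAlgebra.involute x) := by
  rw [map_mul, ι, CliffordAlgebra.involute_ι, neg_mul]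

theorem inv_der {V : Type*} [AddCommGroup V] [Module k V] (T : V →ₗ[k] V)
    (x : ExteriorAlgebra k V) :
    CliffordAlgebra.involute (der T x) = der T (CliffordAlgebra.involute x) := by
  induction x using ext_ind with
  | h1 => rw [der_one, map_zero, map_one CliffordAlgebra.involute, der_one]
  | hadd x y hx hy => simp only [map_add, hx, hy]
  | hsmul c x hx => simp only [map_smul, hx]
  | hmul m x hx =>
    rw [inv_ι_mul', map_neg, der_ι_mul, der_ι_mul, map_add, inv_ι_mul', inv_ι_mul', hx, neg_add]

theorem inv_bd (x : ExteriorAlgebra k L) :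
    CliffordAlgebra.involute (bd k L x) = -bd k L (CliffordAlgebra.involute x) := by
  induction x using ext_ind with
  | h1 => rw [bd_one, map_zero, map_one CliffordAlgebra.involute, bd_one, neg_zero]
  | hadd x y hx hy => rw [map_add, map_add, map_add, map_add, hx, hy]; abel
  | hsmul c x hx => rw [map_smul, map_smul, map_smul, map_smul, hx, smul_neg]
  | hmul m x hx =>
    rw [inv_ι_mul', bd_ι_mul, map_sub, inv_der, inv_ι_mul', map_neg, bd_ι_mul, hx]
    simp only [mul_neg]
    abel

end Bd

end Pool.Agent.R412.ABG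

end
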