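import Mathlib

/-!
# Highest weight vectors of finite-dimensional modules of a Lie algebra of type A₂
-/

set_option autoImplicit false

noncomputable section

open Module

namespace Pool.Agent.R412.ABG

/-- Chevalley generators of type A₂ in a Lie ring. -/
structure Chev (g : Type*) [LieRing g] where
  /-- generator -/
  e₁ : g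
  /-- generator -/
  e₂ : g
  /-- generator -/
  f₁ : g
  /-- generator -/
  f₂ : g
  /-- generator -/
  h₁ : g
  /-- generator -/
  h₂ : g
  h₁_ne : h₁ ≠ 0
  h₂_ne : h₂ ≠ 0
  e₁f₁ : ⁅e₁, f₁⁆ = h₁
  e₂f₂ : ⁅e₂, f₂⁆ = h₂
  e₁f₂ : ⁅e₁, f₂⁆ = 0
  e₂f₁ : ⁅e₂, f₁⁆ = 0
  h₁e₁ : ⁅h₁, e₁⁆ = 2 • e₁
  h₁e₂ : ⁅h₁, e₂⁆ = -e₂
  h₂e₁ : ⁅h₂, e₁⁆ = -e₁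
  h₂e₂ : ⁅h₂, e₂⁆ = 2 • e₂
  h₁f₁ : ⁅h₁, f₁⁆ = -(2 • f₁)
  h₁f₂ : ⁅h₁, f₂⁆ = f₂
  h₂f₁ : ⁅h₂, f₁⁆ = f₁
  h₂f₂ : ⁅h₂, f₂⁆ = -(2 • f₂)
  h₁h₂ : ⁅h₁, h₂⁆ = 0
  se₁ : ⁅e₁, ⁅e₁, e₂⁆⁆ = 0
  se₂ : ⁅e₂, ⁅e₁, e₂⁆⁆ = 0
  sf₁ : ⁅f₁, ⁅f₂, f₁⁆⁆ = 0
  sf₂ : ⁅f₂, ⁅f₂, f₁⁆⁆ = 0

namespace Chev

variable {g : Type*} [LieRing g] (S : Chev g)

/-- The third positive root vector. -/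
def e₃ : g := ⁅S.e₁, S.e₂⁆

/-- The third negative root vector. -/
def f₃ : g := ⁅S.f₂, S.f₁⁆

/-- The opposite system. -/
def swap : Chev g where
  e₁ := S.f₁
  e₂ := S.f₂
  f₁ := S.e₁
  f₂ := S.e₂
  h₁ := -S.h₁
  h₂ := -S.h₂
  h₁_ne := neg_ne_zero.2 S.h₁_ne
  h₂_ne := neg_ne_zero.2 S.h₂_ne
  e₁f₁ := by rw [← lie_skew, S.e₁f₁]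
  e₂f₂ := by rw [← lie_skew, S.e₂f₂]
  e₁f₂ := by rw [← lie_skew, S.e₂f₁, neg_zero]
  e₂f₁ := by rw [← lie_skew, S.e₁f₂, neg_zero]
  h₁e₁ := by rw [neg_lie, S.h₁f₁, neg_neg]
  h₁e₂ := by rw [neg_lie, S.h₁f₂]
  h₂e₁ := by rw [neg_lie, S.h₂f₁]
  h₂e₂ := by rw [neg_lie, S.h₂f₂, neg_neg]
  h₁f₁ := by rw [neg_lie, S.h₁e₁]
  h₁f₂ := by rw [neg_lie, S.h₁e₂, neg_neg]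
  h₂f₁ := by rw [neg_lie, S.h₂e₁, neg_neg]
  h₂f₂ := by rw [neg_lie, S.h₂e₂]
  h₁h₂ := by rw [neg_lie, lie_neg, S.h₁h₂, neg_neg]
  se₁ := by rw [← lie_skew S.f₁ S.f₂, lie_neg, S.sf₁, neg_zero]
  se₂ := by rw [← lie_skew S.f₁ S.f₂, lie_neg, S.sf₂, neg_zero]
  sf₁ := by rw [← lie_skew S.e₂ S.e₁, lie_neg, S.se₁, neg_zero]
  sf₂ := by rw [← lie_skew S.e₂ S.e₁, lie_neg, S.se₂, neg_zero]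

theorem e₁f₃ : ⁅S.e₁, S.f₃⁆ = -S.f₂ := by
  rw [f₃, leibniz_lie, S.e₁f₂, zero_lie, zero_add, S.e₁f₁, ← lie_skew, S.h₁f₂]

theorem e₂f₃ : ⁅S.e₂, S.f₃⁆ = S.f₁ := by
  rw [f₃, leibniz_lie, S.e₂f₁, lie_zero, add_zero, S.e₂f₂, S.h₂f₁]

theorem e₃f₁ : ⁅S.e₃, S.f₁⁆ = -S.e₂ := by
  rw [e₃, lie_lie, S.e₂f₁, lie_zero, zero_sub, S.e₁f₁, ← lie_skew, neg_neg, S.h₁e₂]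

theorem e₃f₂ : ⁅S.e₃, S.f₂⁆ = S.e₁ := by
  rw [e₃, lie_lie, S.e₁f₂, lie_zero, sub_zero, S.e₂f₂, ← lie_skew, S.h₂e₁, neg_neg]

theorem e₃f₃ : ⁅S.e₃, S.f₃⁆ = S.h₁ + S.h₂ := by
  rw [e₃, lie_lie, S.e₂f₃, S.e₁f₃, lie_neg, sub_neg_eq_add, S.e₁f₁, S.e₂f₂]

theorem h₁e₃ : ⁅S.h₁, S.e₃⁆ = S.e₃ := by
  rw [e₃, leibniz_lie, S.h₁e₁, S.h₁e₂, lie_neg, two_nsmul, add_lie]; abel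

theorem h₂e₃ : ⁅S.h₂, S.e₃⁆ = S.e₃ := by
  rw [e₃, leibniz_lie, S.h₂e₁, S.h₂e₂, neg_lie, two_nsmul, lie_add]; abel

theorem h₁f₃ : ⁅S.h₁, S.f₃⁆ = -S.f₃ := by
  rw [f₃, leibniz_lie, S.h₁f₁, S.h₁f₂, lie_neg, two_nsmul, lie_add]; abel

theorem h₂f₃ : ⁅S.h₂, S.f₃⁆ = -S.f₃ := by
  rw [f₃, leibniz_lie, S.h₂f₁, S.h₂f₂, neg_lie, two_nsmul, add_lie]; abel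

/-! ### Normal ordering -/

variable {M : Type*} [AddCommGroup M] [LieRingModule g M] (m : M)

theorem n_e₁f₁ : ⁅S.e₁, ⁅S.f₁, m⁆⁆ = ⁅S.f₁, ⁅S.e₁, m⁆⁆ + ⁅S.h₁, m⁆ := by
  rw [leibniz_lie, S.e₁f₁]; abel
theorem n_e₁f₂ : ⁅S.e₁, ⁅S.f₂, m⁆⁆ = ⁅S.f₂, ⁅S.e₁, m⁆⁆ := by
  rw [leibniz_lie, S.e₁f₂, zero_lie, zero_add]
theorem n_e₁f₃ : ⁅S.e₁, ⁅S.f₃, m⁆⁆ = ⁅S.f₃, ⁅S.e₁, m⁆⁆ - ⁅S.f₂, m⁆ := by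
  rw [leibniz_lie, S.e₁f₃, neg_lie]; abel
theorem n_e₂f₁ : ⁅S.e₂, ⁅S.f₁, m⁆⁆ = ⁅S.f₁, ⁅S.e₂, m⁆⁆ := by
  rw [leibniz_lie, S.e₂f₁, zero_lie, zero_add]
theorem n_e₂f₂ : ⁅S.e₂, ⁅S.f₂, m⁆⁆ = ⁅S.f₂, ⁅S.e₂, m⁆⁆ + ⁅S.h₂, m⁆ := by
  rw [leibniz_lie, S.e₂f₂]; abel
theorem n_e₂f₃ : ⁅S.e₂, ⁅S.f₃, m⁆⁆ = ⁅S.f₃, ⁅S.e₂, m⁆⁆ + ⁅S.f₁, m⁆ := by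
  rw [leibniz_lie, S.e₂f₃]; abel
theorem n_e₃f₁ : ⁅S.e₃, ⁅S.f₁, m⁆⁆ = ⁅S.f₁, ⁅S.e₃, m⁆⁆ - ⁅S.e₂, m⁆ := by
  rw [leibniz_lie, S.e₃f₁, neg_lie]; abel
theorem n_e₃f₂ : ⁅S.e₃, ⁅S.f₂, m⁆⁆ = ⁅S.f₂, ⁅S.e₃, m⁆⁆ + ⁅S.e₁, m⁆ := by
  rw [leibniz_lie, S.e₃f₂]; abel
theorem n_e₃f₃ : ⁅S.e₃, ⁅S.f₃, m⁆⁆ = ⁅S.f₃, ⁅S.e₃, m⁆⁆ + ⁅S.h₁, m⁆ + ⁅S.h₂, m⁆ := by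
  rw [leibniz_lie, S.e₃f₃, add_lie]; abel
theorem n_h₁f₁ : ⁅S.h₁, ⁅S.f₁, m⁆⁆ = ⁅S.f₁, ⁅S.h₁, m⁆⁆ - 2 • ⁅S.f₁, m⁆ := by
  rw [leibniz_lie, S.h₁f₁, neg_lie, nsmul_lie]; abel
theorem n_h₁f₂ : ⁅S.h₁, ⁅S.f₂, m⁆⁆ = ⁅S.f₂, ⁅S.h₁, m⁆⁆ + ⁅S.f₂, m⁆ := by
  rw [leibniz_lie, S.h₁f₂]; abel
theorem n_h₁f₃ : ⁅S.h₁, ⁅S.f₃, m⁆⁆ = ⁅S.f₃, ⁅S.h₁, m⁆⁆ - ⁅S.f₃, m⁆ := by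
  rw [leibniz_lie, S.h₁f₃, neg_lie]; abel
theorem n_h₂f₁ : ⁅S.h₂, ⁅S.f₁, m⁆⁆ = ⁅S.f₁, ⁅S.h₂, m⁆⁆ + ⁅S.f₁, m⁆ := by
  rw [leibniz_lie, S.h₂f₁]; abel
theorem n_h₂f₂ : ⁅S.h₂, ⁅S.f₂, m⁆⁆ = ⁅S.f₂, ⁅S.h₂, m⁆⁆ - 2 • ⁅S.f₂, m⁆ := by
  rw [leibniz_lie, S.h₂f₂, neg_lie, nsmul_lie]; abel
theorem n_h₂f₃ : ⁅S.h₂, ⁅S.f₃, m⁆⁆ = ⁅S.f₃, ⁅S.h₂, m⁆⁆ - ⁅S.f₃, m⁆ := by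
  rw [leibniz_lie, S.h₂f₃, neg_lie]; abel
theorem n_e₁h₁ : ⁅S.e₁, ⁅S.h₁, m⁆⁆ = ⁅S.h₁, ⁅S.e₁, m⁆⁆ - 2 • ⁅S.e₁, m⁆ := by
  rw [leibniz_lie S.h₁, S.h₁e₁, nsmul_lie]; abel
theorem n_e₁h₂ : ⁅S.e₁, ⁅S.h₂, m⁆⁆ = ⁅S.h₂, ⁅S.e₁, m⁆⁆ + ⁅S.e₁, m⁆ := by
  rw [leibniz_lie S.h₂, S.h₂e₁, neg_lie]; abel
theorem n_e₂h₁ : ⁅S.e₂, ⁅S.h₁, m⁆⁆ = ⁅S.h₁, ⁅S.e₂, m⁆⁆ + ⁅S.e₂, m⁆ := by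
  rw [leibniz_lie S.h₁, S.h₁e₂, neg_lie]; abel
theorem n_e₂h₂ : ⁅S.e₂, ⁅S.h₂, m⁆⁆ = ⁅S.h₂, ⁅S.e₂, m⁆⁆ - 2 • ⁅S.e₂, m⁆ := by
  rw [leibniz_lie S.h₂, S.h₂e₂, nsmul_lie]; abel
theorem n_e₃h₁ : ⁅S.e₃, ⁅S.h₁, m⁆⁆ = ⁅S.h₁, ⁅S.e₃, m⁆⁆ - ⁅S.e₃, m⁆ := by
  rw [leibniz_lie S.h₁, S.h₁e₃]; abel
theorem n_e₃h₂ : ⁅S.e₃, ⁅S.h₂, m⁆⁆ = ⁅S.h₂, ⁅S.e₃, m⁆⁆ - ⁅S.e₃, m⁆ := by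
  rw [leibniz_lie S.h₂, S.h₂e₃]; abel
theorem n_h₂h₁ : ⁅S.h₂, ⁅S.h₁, m⁆⁆ = ⁅S.h₁, ⁅S.h₂, m⁆⁆ := by
  rw [leibniz_lie S.h₁, S.h₁h₂, zero_lie, zero_add]
theorem n_e₂e₁ : ⁅S.e₂, ⁅S.e₁, m⁆⁆ = ⁅S.e₁, ⁅S.e₂, m⁆⁆ - ⁅S.e₃, m⁆ := by
  rw [e₃, lie_lie]; abel
theorem n_e₃e₁ : ⁅S.e₃, ⁅S.e₁, m⁆⁆ = ⁅S.e₁, ⁅S.e₃, m⁆⁆ := by
  have h : ⁅S.e₁, S.e₃⁆ = 0 := S.se₁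
  rw [leibniz_lie S.e₁, h, zero_lie, zero_add]
theorem n_e₃e₂ : ⁅S.e₃, ⁅S.e₂, m⁆⁆ = ⁅S.e₂, ⁅S.e₃, m⁆⁆ := by
  have h : ⁅S.e₂, S.e₃⁆ = 0 := S.se₂
  rw [leibniz_lie S.e₂, h, zero_lie, zero_add]
theorem n_f₁f₂ : ⁅S.f₁, ⁅S.f₂, m⁆⁆ = ⁅S.f₂, ⁅S.f₁, m⁆⁆ - ⁅S.f₃, m⁆ := by
  rw [f₃, lie_lie]; abel
theorem n_f₃f₁ : ⁅S.f₃, ⁅S.f₁, m⁆⁆ = ⁅S.f₁, ⁅S.f₃, m⁆⁆ := by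
  have h : ⁅S.f₁, S.f₃⁆ = 0 := S.sf₁
  rw [leibniz_lie S.f₁, h, zero_lie, zero_add]
theorem n_f₃f₂ : ⁅S.f₃, ⁅S.f₂, m⁆⁆ = ⁅S.f₂, ⁅S.f₃, m⁆⁆ := by
  have h : ⁅S.f₂, S.f₃⁆ = 0 := S.sf₂
  rw [leibniz_lie S.f₂, h, zero_lie, zero_add]

/-! ### The Casimir element -/

/-- The (rescaled) Casimir element. -/
def cas (m : M) : M :=
  ⁅S.h₁, ⁅S.h₁, m⁆⁆ + ⁅S.h₁, ⁅S.h₂, m⁆⁆ + ⁅S.h₂, ⁅S.h₂, m⁆⁆ + 3 • ⁅S.h₁, m⁆ + 3 • ⁅S.h₂, m⁆ +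
    3 • (⁅S.f₁, ⁅S.e₁, m⁆⁆ + ⁅S.f₂, ⁅S.e₂, m⁆⁆ + ⁅S.f₃, ⁅S.e₃, m⁆⁆)

theorem cas_e₁ : S.cas ⁅S.e₁, m⁆ = ⁅S.e₁, S.cas m⁆ := by
  simp only [cas, lie_add, lie_nsmul, lie_sub, n_e₁f₁, n_e₁f₂, n_e₁f₃, n_e₁h₁, n_e₁h₂,
    n_e₂e₁, n_e₃e₁]
  abel

theorem cas_e₂ : S.cas ⁅S.e₂, m⁆ = ⁅S.e₂, S.cas m⁆ := by
  simp only [cas, lie_add, lie_nsmul, lie_sub, n_e₂f₁, n_e₂f₂, n_e₂f₃, n_e₂h₁, n_e₂h₂,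
    n_e₂e₁, n_e₃e₂]
  abel

theorem cas_h₁ : S.cas ⁅S.h₁, m⁆ = ⁅S.h₁, S.cas m⁆ := by
  simp only [cas, lie_add, lie_nsmul, lie_sub, n_h₂h₁, n_e₁h₁, n_e₂h₁, n_e₃h₁, n_h₁f₁, n_h₁f₂,
    n_h₁f₃]
  try abel

theorem cas_h₂ : S.cas ⁅S.h₂, m⁆ = ⁅S.h₂, S.cas m⁆ := by
  simp only [cas, lie_add, lie_nsmul, lie_sub, n_h₂h₁, n_e₁h₂, n_e₂h₂, n_e₃h₂, n_h₂f₁, n_h₂f₂,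
    n_h₂f₃]
  try abel

theorem swap_cas : S.swap.cas m = S.cas m := by
  have h1 : S.swap.e₃ = -S.f₃ := by
    show ⁅S.f₁, S.f₂⁆ = -⁅S.f₂, S.f₁⁆
    rw [lie_skew]
  have h2 : S.swap.f₃ = -S.e₃ := by
    show ⁅S.e₂, S.e₁⁆ = -⁅S.e₁, S.e₂⁆
    rw [lie_skew]
  rw [cas, cas, h1, h2]
  show ⁅-S.h₁, ⁅-S.h₁, m⁆⁆ + ⁅-S.h₁, ⁅-S.h₂, m⁆⁆ + ⁅-S.h₂, ⁅-S.h₂, m⁆⁆ + 3 • ⁅-S.h₁, m⁆ +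
    3 • ⁅-S.h₂, m⁆ + 3 • (⁅S.e₁, ⁅S.f₁, m⁆⁆ + ⁅S.e₂, ⁅S.f₂, m⁆⁆ + ⁅-S.e₃, ⁅-S.f₃, m⁆⁆) = _
  simp only [neg_lie, lie_neg, neg_neg, n_e₁f₁, n_e₂f₂, n_e₃f₃]
  abel

theorem cas_f₁ : S.cas ⁅S.f₁, m⁆ = ⁅S.f₁, S.cas m⁆ := by
  have := S.swap.cas_e₁ m
  rwa [swap_cas, swap_cas] at this

theorem cas_f₂ : S.cas ⁅S.f₂, m⁆ = ⁅S.f₂, S.cas m⁆ := by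
  have := S.swap.cas_e₂ m
  rwa [swap_cas, swap_cas] at this

end Chev

end Pool.Agent.R412.ABG

end
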