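import Pool.Agent.R412.ABG.Adj

/-!
# Retractions on trivial and adjoint components
-/

set_option autoImplicit false
set_option linter.unusedSimpArgs false
set_option linter.unusedSectionVars false
set_option linter.unusedTactic false
set_option linter.unreachableTactic false

noncomputable section

open Module LieModule LieAlgebra.SpecialLinear

namespace Pool.Agent.R412.ABG

variable {k : Type*} [Field k] [CharZero k]

section sl2

variable {g M : Type*} [LieRing g] [LieAlgebra k g] [AddCommGroup M] [Module k M]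
  [LieRingModule g M] [LieModule k g M] [FiniteDimensional k M]

variable (k) in
include k in
theorem f_eq_zero {h e f : g} (t : IsSl2Triple h e f) {w : M} (he : ⁅e, w⁆ = 0)
    (hh : ⁅h, w⁆ = 0) : ⁅f, w⁆ = 0 := by
  by_cases hw : w = 0
  · rw [hw, lie_zero]
  · have P : t.HasPrimitiveVectorWith w (0 : k) := ⟨hw, by rw [hh, zero_smul], he⟩
    have := P.pow_toEnd_f_eq_zero_of_eq_nat (n := 0) (by simp)
    simpa using this

variable (k) in
include k in
theorem ff_eq_zero {h e f : g} (t : IsSl2Triple h e f) {w : M} (he : ⁅e, w⁆ = 0)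
    (hh : ⁅h, w⁆ = w) : ⁅f, ⁅f, w⁆⁆ = 0 := by
  by_cases hw : w = 0
  · rw [hw, lie_zero, lie_zero]
  · have P : t.HasPrimitiveVectorWith w (1 : k) := ⟨hw, by rw [hh, one_smul], he⟩
    have := P.pow_toEnd_f_eq_zero_of_eq_nat (n := 1) (by simp)
    rw [show (1 : ℕ) + 1 = 2 from rfl, pow_two, End.mul_apply] at this
    exact this

theorem Chev.t1 (S : Chev g) : IsSl2Triple S.h₁ S.e₁ S.f₁ := ⟨S.h₁_ne, S.e₁f₁, S.h₁e₁, S.h₁f₁⟩

theorem Chev.t2 (S : Chev g) : IsSl2Triple S.h₂ S.e₂ S.f₂ := ⟨S.h₂_ne, S.e₂f₂, S.h₂e₂, S.h₂f₂⟩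

theorem adjVec_of_mem_K (S : Chev g) {w : M} (hw : w ∈ S.K k M 1 1) : AdjVec S w := by
  obtain ⟨h1, h2, h3⟩ := S.mem_K.1 hw
  have h4 : ⁅S.h₁, w⁆ = w := by rw [h1.1, one_smul]
  have h5 : ⁅S.h₂, w⁆ = w := by rw [h1.2, one_smul]
  exact ⟨h2, h3, h4, h5, ff_eq_zero k S.t1 h2 h4, ff_eq_zero k S.t2 h3 h5⟩

theorem box_of_mem_K (S : Chev g) {p q : ℤ} {w : M} (hw : w ∈ S.K k M p q) :
    S.box k M (Qf p q) w = 0 := by
  obtain ⟨h1, h2, h3⟩ := S.mem_K.1 hw
  have h4 : ⁅S.e₃, w⁆ = 0 := by rw [Chev.e₃, lie_lie, h2, h3, lie_zero, lie_zero, sub_zero]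
  rw [Chev.box_apply, S.cas_of_mem h1, h2, h3, h4]
  simp

end sl2

section sl3

variable {M : Type*} [AddCommGroup M] [Module k M] [LieRingModule (sl3 k) M]
  [LieModule k (sl3 k) M]

theorem kill_of_mem_K [FiniteDimensional k M] {w : M} (hw : w ∈ (SS k).K k M 0 0) (x : sl3 k) :
    ⁅x, w⁆ = 0 := by
  obtain ⟨h1, h2, h3⟩ := (SS k).mem_K.1 hw
  have h4 : ⁅(SS k).h₁, w⁆ = 0 := by rw [h1.1, zero_smul]
  have h5 : ⁅(SS k).h₂, w⁆ = 0 := by rw [h1.2, zero_smul]
  induction x using sl3_ind with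
  | hadd y z hy hz => rw [add_lie, hy, hz, add_zero]
  | hsmul c y hy => rw [smul_lie, hy, smul_zero]
  | hlie y z hy hz => rw [lie_lie, hy, hz, lie_zero, lie_zero, sub_zero]
  | he1 => exact h2
  | he2 => exact h3
  | hf1 => exact f_eq_zero k (SS k).t1 h2 h4
  | hf2 => exact f_eq_zero k (SS k).t2 h3 h5

/-- Retraction on a trivial component. -/
theorem exists_retract_zero [FiniteDimensional k M] (hD : (SS k).Diag k M) {w : M}
    (hw : w ∈ (SS k).K k M 0 0) (hw0 : w ≠ 0) :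
    ∃ l : M →ₗ[k] k, l w = 1 ∧ ∀ (x : sl3 k) (m : M), l ⁅x, m⁆ = 0 := by
  obtain ⟨l, hl, h1, h2, h3, h4⟩ := (SS k).exists_dual hD Chev.good_zero (u := w)
    (by simpa using ((SS k).mem_K.1 hw).1) hw0 (box_of_mem_K _ hw)
  refine ⟨l, hl, fun x m => ?_⟩
  have h5 : l ∈ (SS k).K k (M →ₗ[k] k) 0 0 := by
    refine (SS k).mem_K.2 ⟨⟨?_, ?_⟩, ?_, ?_⟩
    · ext m; simp [h3]
    · ext m; simp [h4]
    · ext m; simp [h1]
    · ext m; simp [h2]
  have h6 := kill_of_mem_K h5 x
  have h7 := LinearMap.congr_fun h6 m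
  rw [Module.Dual.lie_apply] at h7
  simpa using h7

theorem adjL_e₃ (w : M) : adjL w (SS k).e₃ = w := by
  have h : ∀ a b : Fin 3, ((SS k).e₃).val a b = if a = 0 ∧ b = 2 then 1 else 0 := by
    intro a b
    show (⁅e1 k, e2 k⁆).val a b = _
    fin_cases a <;> fin_cases b <;> simp [E_lie_apply, E_apply]
  rw [adjL_apply]
  simp only [h]
  simp

/-- The homomorphism from the adjoint module. -/
def adjM {w : M} (h : AdjVec (SS k) w) : sl3 k →ₗ⁅k, sl3 k⁆ M :=
  { adjL w with map_lie' := fun {x m} => adjL_lie h x m }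

theorem adjM_apply {w : M} (h : AdjVec (SS k) w) (x : sl3 k) : adjM h x = adjL w x := rfl

theorem adjL_self (x : sl3 k) : adjL (SS k).e₃ x = x := by
  have h3 : (SS k).f₃ = ⁅f2 k, f1 k⁆ := rfl
  have he3 : (SS k).e₃ = ⁅e1 k, e2 k⁆ := rfl
  have hf1 : (SS k).f₁ = f1 k := rfl
  have hf2 : (SS k).f₂ = f2 k := rfl
  have ht : x.val 2 2 = - x.val 0 0 - x.val 1 1 := by linear_combination tr_zero x
  rw [adjL_apply, h3, he3, hf1, hf2]
  apply sl3_ext
  intro a b
  simp only [lie_lie]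
  fin_cases a <;> fin_cases b <;>
    simp [E_lie_apply, E_apply, add_val, smul_val, sub_val, lie_sub] <;> linear_combination -ht

/-- A homomorphism from the adjoint module is determined by the image of the highest weight
vector. -/
theorem adj_unique (φ ψ : sl3 k →ₗ⁅k, sl3 k⁆ M) (h : φ (SS k).e₃ = ψ (SS k).e₃) : φ = ψ := by
  ext x
  have h1 : ∀ χ : sl3 k →ₗ⁅k, sl3 k⁆ M, χ x = adjL (χ (SS k).e₃) x := by
    intro χ
    conv_lhs => rw [← adjL_self x]
    rw [adjL_apply, adjL_apply]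
    simp only [map_add, map_sub, map_smul, LieModuleHom.map_lie]
  rw [h1 φ, h1 ψ, h]

instance : FiniteDimensional k (sl3 k) :=
  Module.Finite.of_injective (N := Matrix (Fin 3) (Fin 3) k)
    ({ toFun := Subtype.val
       map_add' := fun _ _ => rfl
       map_smul' := fun _ _ => rfl } : sl3 k →ₗ[k] Matrix (Fin 3) (Fin 3) k)
    Subtype.val_injective

variable (k) in
/-- The trace form. -/
def trF : sl3 k →ₗ[k] (sl3 k →ₗ[k] k) :=
  LinearMap.mk₂ k (fun x y => Matrix.trace (x.val * y.val))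
    (by
      intro x x' y
      show Matrix.trace ((x.val + x'.val) * y.val) = _
      rw [add_mul, Matrix.trace_add])
    (by
      intro c x y
      show Matrix.trace ((c • x.val) * y.val) = _
      rw [smul_mul_assoc, Matrix.trace_smul])
    (by
      intro x y y'
      show Matrix.trace (x.val * (y.val + y'.val)) = _
      rw [mul_add, Matrix.trace_add])
    (by
      intro c x y
      show Matrix.trace (x.val * (c • y.val)) = _
      rw [mul_smul_comm, Matrix.trace_smul])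

theorem trF_apply (x y : sl3 k) : trF k x y = Matrix.trace (x.val * y.val) := rfl

theorem trF_comm (x y : sl3 k) : trF k x y = trF k y x := by
  rw [trF_apply, trF_apply, Matrix.trace_mul_comm]

theorem trF_E (x : sl3 k) (i j : Fin 3) (h : i ≠ j) : trF k x (E k i j h) = x.val j i := by
  rw [trF_comm, trF_apply, E_val, Matrix.trace_single_mul]
  simp

theorem trF_lie (x y z : sl3 k) : trF k ⁅x, y⁆ z = -trF k y ⁅x, z⁆ := by
  have a1 : Matrix.trace (x.val * y.val * z.val) = Matrix.trace (y.val * (z.val * x.val)) := by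
    rw [← mul_assoc, Matrix.trace_mul_cycle, Matrix.trace_mul_cycle]
  have a2 : Matrix.trace (y.val * x.val * z.val) = Matrix.trace (y.val * (x.val * z.val)) := by
    rw [← mul_assoc]
  rw [trF_apply, trF_apply, sl_bracket, sl_bracket, sub_mul, mul_sub, Matrix.trace_sub,
    Matrix.trace_sub, a1, a2]
  abel

theorem trF_injective : Function.Injective (trF k) := by
  rw [← LinearMap.ker_eq_bot, LinearMap.ker_eq_bot']
  intro x hx
  have h0 : ∀ i j (h : i ≠ j), x.val j i = 0 := by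
    intro i j h
    rw [← trF_E x i j h, hx]; rfl
  have h1 : x.val 1 1 - x.val 0 0 = 0 := by
    have h2 : trF k x ⁅e1 k, f1 k⁆ = 0 := by rw [hx]; rfl
    rw [← neg_eq_zero, ← trF_lie, trF_E, E_lie_apply] at h2
    simpa using h2
  have h2 : x.val 2 2 - x.val 1 1 = 0 := by
    have h2 : trF k x ⁅e2 k, f2 k⁆ = 0 := by rw [hx]; rfl
    rw [← neg_eq_zero, ← trF_lie, trF_E, E_lie_apply] at h2
    simpa using h2
  have h3 := tr_zero x
  have h4 : x.val 0 0 = 0 := by
    have : (3 : k) * x.val 0 0 = 0 := by linear_combination h3 - 2 * h1 - h2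
    exact (mul_eq_zero.1 this).resolve_left three_ne_zero
  have h5 : x.val 1 1 = 0 := by linear_combination h4 + h1
  have h6 : x.val 2 2 = 0 := by linear_combination h5 + h2
  apply sl3_ext
  intro i j
  rw [zero_val]
  by_cases h : j = i
  · subst h
    fin_cases j
    · exact h4
    · exact h5
    · exact h6
  · exact h0 j i h

/-- The trace form as an isomorphism with the dual. -/
def trE : sl3 k ≃ₗ[k] (sl3 k →ₗ[k] k) :=
  LinearMap.linearEquivOfInjective (trF k) trF_injective (Subspace.dual_finrank_eq).symm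

theorem trE_apply (x : sl3 k) : trE x = trF k x := rfl

/-- Retraction on an adjoint component. -/
theorem exists_retract_one [FiniteDimensional k M] (hD : (SS k).Diag k M) {w : M}
    (hw : w ∈ (SS k).K k M 1 1) (hw0 : w ≠ 0) :
    ∃ r : M →ₗ⁅k, sl3 k⁆ sl3 k, r w = (SS k).e₃ := by
  have h := adjVec_of_mem_K _ hw
  obtain ⟨hw1, -, -⟩ := (SS k).mem_K.1 hw
  set S := SS k with hS
  set u := ⁅S.f₂, ⁅S.f₁, ⁅S.f₃, w⁆⁆⁆ with hu
  have h3 := S.f₃_mem hw1 (p' := 0) (q' := 0) (by norm_num) (by norm_num)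
  have h13 := S.f₁_mem h3 (p' := -2) (q' := 1) (by norm_num) (by norm_num)
  have hu1 : u ∈ S.W k M (-1) (-1) := S.f₂_mem h13 (by norm_num) (by norm_num)
  have hbw := box_of_mem_K S hw
  have hf3 : ∀ m : M, S.box k M (Qf 1 1) ⁅S.f₃, m⁆ = ⁅S.f₃, S.box k M (Qf 1 1) m⁆ := by
    intro m
    rw [Chev.f₃, lie_lie, lie_lie, map_sub, S.box_f₁, S.box_f₂, S.box_f₂, S.box_f₁]
  have hbu : S.box k M (Qf 1 1) u = 0 := by
    rw [hu, S.box_f₂, S.box_f₁, hf3, hbw, lie_zero, lie_zero, lie_zero]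
  have hu0 : u ≠ 0 := by
    intro h0
    have e1 : adjL w S.f₃ = -u := by
      have h' : ∀ a b : Fin 3, (S.f₃).val a b = if a = 2 ∧ b = 0 then 1 else 0 := by
        intro a b
        show (⁅f2 k, f1 k⁆).val a b = _
        fin_cases a <;> fin_cases b <;> simp [E_lie_apply, E_apply]
      rw [adjL_apply]
      simp only [h']
      simp [hu, hS]
    have e2 : ⁅S.e₃, ⁅S.e₃, adjL w S.f₃⁆⁆ = 0 := by rw [e1, h0]; simp
    rw [← adjL_lie h, ← adjL_lie h, S.e₃f₃, lie_add, ← lie_skew, ← lie_skew S.e₃, S.h₁e₃, S.h₂e₃,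
      map_add, map_neg, adjL_e₃] at e2
    have e3 : (2 : k) • w = 0 := by
      rw [← neg_eq_zero, ← e2]; module
    exact hw0 ((smul_eq_zero.1 e3).resolve_left two_ne_zero)
  obtain ⟨l, hl, g1, g2, g3, g4⟩ := S.exists_dual hD Chev.good_one (u := u) hu1 hu0 hbu
  have h5 : l ∈ S.K k (M →ₗ[k] k) 1 1 := by
    refine S.mem_K.2 ⟨⟨?_, ?_⟩, ?_, ?_⟩
    · ext m; simp [g3]
    · ext m; simp [g4]
    · ext m; simp [g1]
    · ext m; simp [g2]
  have hA := adjVec_of_mem_K S h5
  have hvan : ∀ {p q : ℤ} {z : M}, z ∈ S.W k M p q → (p ≠ -1 ∨ q ≠ -1) → l z = 0 := by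
    intro p q z hz hpq
    have c1 := g3 z
    have c2 := g4 z
    rw [hz.1, map_zsmul, one_smul] at c1
    rw [hz.2, map_zsmul, one_smul] at c2
    rcases hpq with hp | hq
    · have : ((p + 1 : ℤ) : k) * l z = 0 := by
        rw [zsmul_eq_mul] at c1; push_cast; linear_combination c1
      refine (mul_eq_zero.1 this).resolve_left ?_
      intro h; have := Int.cast_eq_zero.1 h; omega
    · have : ((q + 1 : ℤ) : k) * l z = 0 := by
        rw [zsmul_eq_mul] at c2; push_cast; linear_combination c2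
      refine (mul_eq_zero.1 this).resolve_left ?_
      intro h; have := Int.cast_eq_zero.1 h; omega
  let r' : M →ₗ[k] (sl3 k →ₗ[k] k) := LinearMap.flip (adjL l)
  have hr' : ∀ m x, r' m x = adjL l x m := fun m x => rfl
  let r : M →ₗ[k] sl3 k := -(trE.symm.toLinearMap ∘ₗ r')
  have hr : ∀ m x, trF k (r m) x = -adjL l x m := by
    intro m x
    have : r m = -(trE.symm (r' m)) := rfl
    rw [this, map_neg, LinearMap.neg_apply, ← trE_apply, LinearEquiv.apply_symm_apply, hr']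
  refine ⟨{ r with map_lie' := ?_ }, ?_⟩
  · intro y m
    apply trF_injective
    ext x
    show trF k (r ⁅y, m⁆) x = trF k ⁅y, r m⁆ x
    rw [hr, trF_lie, hr, adjL_lie hA, Module.Dual.lie_apply, neg_neg]
  · apply trF_injective
    ext x
    show trF k (r w) x = trF k S.e₃ x
    rw [hr]
    have c1 : adjL l x w = -x.val 2 0 := by
      rw [adjL_apply]
      simp only [LinearMap.add_apply, LinearMap.sub_apply, LinearMap.smul_apply,
        Module.Dual.lie_apply]
      rw [← hS]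
      have a0 : l w = 0 := hvan hw1 (by norm_num)
      have a1 : l ⁅S.f₁, w⁆ = 0 := hvan (S.f₁_mem hw1 (p' := -1) (q' := 2) (by norm_num)
        (by norm_num)) (by norm_num)
      have a2 : l ⁅S.f₂, w⁆ = 0 := hvan (S.f₂_mem hw1 (p' := 2) (q' := -1) (by norm_num)
        (by norm_num)) (by norm_num)
      have a3 : l ⁅S.f₃, w⁆ = 0 := hvan h3 (by norm_num)
      have a4 : l ⁅S.f₁, ⁅S.f₂, w⁆⁆ = 0 := hvan (S.f₁_mem (S.f₂_mem hw1 (p' := 2) (q' := -1)
        (by norm_num) (by norm_num)) (p' := 0) (q' := 0) (by norm_num) (by norm_num))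
        (by norm_num)
      have a5 : l ⁅S.f₃, ⁅S.f₁, w⁆⁆ = 0 := by
        rw [S.n_f₃f₁]; exact hvan h13 (by norm_num)
      have a6 : l ⁅S.f₃, ⁅S.f₂, w⁆⁆ = 0 := by
        rw [S.n_f₃f₂]; exact hvan (S.f₂_mem h3 (p' := 1) (q' := -2) (by norm_num) (by norm_num))
          (by norm_num)
      have a7 : l ⁅S.f₃, ⁅S.f₁, ⁅S.f₂, w⁆⁆⁆ = -1 := by
        rw [S.n_f₃f₁, S.n_f₃f₂, S.n_f₁f₂, h.r5 (k := k), ← hu, two_nsmul, map_sub, map_add, hl]
        ring
      rw [a0, a1, a2, a3, a4, a5, a6, a7]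
      simp
    rw [c1, neg_neg]
    have c2 : S.e₃ = E k 0 2 (by decide) := by
      show ⁅e1 k, e2 k⁆ = _
      apply sl3_ext
      intro a b
      fin_cases a <;> fin_cases b <;> simp [E_lie_apply, E_apply]
    rw [c2, trF_comm, trF_E]

end sl3

end Pool.Agent.R412.ABG

end
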