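import Pool.Agent.R412.ABG.Homology
import Pool.Agent.R412.ABG.Retract

/-!
# Components of the homology from highest weight cycles
-/

set_option autoImplicit false
set_option linter.unusedSimpArgs false
set_option linter.unusedSectionVars false
set_option linter.dupNamespace false

noncomputable section

open Module

namespace Pool.Agent.R412.ABG

/-- `V` is (isomorphic to) a direct summand of `H`, as modules over the Lie algebra `g`. -/
def IsSummand (k g V H : Type*) [CommRing k] [LieRing g] [LieAlgebra k g] [AddCommGroup V]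
    [Module k V] [LieRingModule g V] [AddCommGroup H] [Module k H] [LieRingModule g H] : Prop :=
  ∃ (i : V →ₗ⁅k, g⁆ H) (r : H →ₗ⁅k, g⁆ V), ∀ v, r (i v) = v

variable {k : Type*} [Field k] [CharZero k]

/-- A Lie algebra with an action of `sl₃`, a compatible grading, and a homogeneous basis of
weight vectors. -/
structure GD (k L I : Type*) [Field k] [CharZero k] [LieRing L] [LieAlgebra k L]
    [LieRingModule (sl3 k) L] [LieModule k (sl3 k) L] where
  /-- the degree derivation -/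
  δ : L →ₗ[k] L
  hδ : ∀ x y, δ ⁅x, y⁆ = ⁅δ x, y⁆ + ⁅x, δ y⁆
  hδg : ∀ (x : sl3 k) (y : L), δ ⁅x, y⁆ = ⁅x, δ y⁆
  /-- the basis -/
  b : Basis I k L
  /-- the degree -/
  deg : I → ℕ
  /-- the weight -/
  w₁ : I → ℤ
  /-- the weight -/
  w₂ : I → ℤ
  b_deg : ∀ i, δ (b i) = (deg i : ℤ) • b i
  b_w₁ : ∀ i, ⁅(SS k).h₁, b i⁆ = w₁ i • b i
  b_w₂ : ∀ i, ⁅(SS k).h₂, b i⁆ = w₂ i • b i
  deg_pos : ∀ i, 1 ≤ deg i
  fin : ∀ n, {i | deg i ≤ n}.Finite

variable {L I : Type*} [LieRing L] [LieAlgebra k L] [LieRingModule (sl3 k) L]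
  [LieModule k (sl3 k) L] [DerAction (sl3 k) L] [LinearOrder I] (G : GD k L I)

namespace GD

/-- The basis of the exterior algebra. -/
def e : Basis (Finset I) k (ExteriorAlgebra k L) := G.b.ExteriorAlgebra

/-- The degree of a set of basis elements. -/
def D (S : Finset I) : ℤ := ∑ i ∈ S, (G.deg i : ℤ)
/-- The weight of a set of basis elements. -/
def P (S : Finset I) : ℤ := ∑ i ∈ S, G.w₁ i
/-- The weight of a set of basis elements. -/
def Q (S : Finset I) : ℤ := ∑ i ∈ S, G.w₂ i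
/-- The parity of a finite set. -/
def sg {I : Type*} (S : Finset I) : ℤ := (-1) ^ S.card

theorem e_D (S : Finset I) : der G.δ (G.e S) = G.D S • G.e S := by
  rw [e, der_EB G.b G.δ (fun i => ((G.deg i : ℤ) : k)) (fun i => by
    rw [G.b_deg, Int.cast_smul_eq_zsmul]), D, ← Int.cast_smul_eq_zsmul k, Int.cast_sum]

theorem e_P (S : Finset I) : ⁅(SS k).h₁, G.e S⁆ = G.P S • G.e S := by
  rw [ext_lie, e, der_EB G.b _ (fun i => (G.w₁ i : k)) (fun i => by
    rw [ac_apply, G.b_w₁, Int.cast_smul_eq_zsmul]), P, ← Int.cast_smul_eq_zsmul k, Int.cast_sum]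

theorem e_Q (S : Finset I) : ⁅(SS k).h₂, G.e S⁆ = G.Q S • G.e S := by
  rw [ext_lie, e, der_EB G.b _ (fun i => (G.w₂ i : k)) (fun i => by
    rw [ac_apply, G.b_w₂, Int.cast_smul_eq_zsmul]), Q, ← Int.cast_smul_eq_zsmul k, Int.cast_sum]

theorem e_sg (S : Finset I) :
    CliffordAlgebra.involute (Q := (0 : QuadraticForm k L)) (G.e S) = sg S • G.e S := by
  rw [e, inv_EB, sg, ← Int.cast_smul_eq_zsmul k]; push_cast; rfl

theorem finite_D (n : ℤ) : {S : Finset I | G.D S = n}.Finite := by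
  refine Set.Finite.subset (G.fin n.toNat).toFinset.powerset.finite_toSet ?_
  intro S hS
  rw [Finset.mem_coe, Finset.mem_powerset]
  intro i hi
  rw [Set.Finite.mem_toFinset, Set.mem_ofPred_eq]
  have h1 : (G.deg i : ℤ) ≤ ∑ i ∈ S, (G.deg i : ℤ) :=
    Finset.single_le_sum (f := fun i => (G.deg i : ℤ)) (fun j _ => by positivity) hi
  have h2 : G.D S = n := hS
  rw [D] at h2
  omega

theorem lie_derδ (x : sl3 k) (w : ExteriorAlgebra k L) :
    ⁅x, der G.δ w⁆ = der G.δ ⁅x, w⁆ := by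
  rw [ext_lie, ext_lie, der_der]
  have h : ac k L x ∘ₗ G.δ - G.δ ∘ₗ ac k L x = 0 := by
    ext y
    rw [LinearMap.sub_apply, LinearMap.comp_apply, LinearMap.comp_apply, ac_apply, ac_apply,
      G.hδg, sub_self, LinearMap.zero_apply]
  rw [h, der_zero, add_zero]

theorem bd_derδ (w : ExteriorAlgebra k L) : bd k L (der G.δ w) = der G.δ (bd k L w) :=
  (der_bd G.δ G.hδ w).symm

/-- The chains of internal degree `n`. -/
def FT (n : ℤ) : LieSubmodule k (sl3 k) (ExteriorAlgebra k L) where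
  carrier := {w | der G.δ w = n • w}
  add_mem' {x y} hx hy := by
    rw [Set.mem_ofPred_eq] at hx hy ⊢; rw [map_add, hx, hy, smul_add]
  zero_mem' := by rw [Set.mem_ofPred_eq, map_zero, smul_zero]
  smul_mem' c x hx := by
    rw [Set.mem_ofPred_eq] at hx ⊢; rw [map_smul, hx, smul_comm]
  lie_mem {x w} hw := by
    have hw' : der G.δ w = n • w := hw
    show der G.δ ⁅x, w⁆ = n • ⁅x, w⁆
    rw [← lie_derδ, hw', lie_zsmul]

theorem mem_FT {n : ℤ} {w : ExteriorAlgebra k L} : w ∈ G.FT n ↔ der G.δ w = n • w := Iff.rfl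

theorem bd_FT {n : ℤ} {w : ExteriorAlgebra k L} (hw : w ∈ G.FT n) : bd k L w ∈ G.FT n := by
  rw [mem_FT] at hw ⊢; rw [← bd_derδ, hw, map_zsmul]

/-- The operator family of the degree. -/
def T1 : Fin 1 → (ExteriorAlgebra k L →ₗ[k] ExteriorAlgebra k L) := fun _ => der G.δ

/-- The eigenvalues. -/
def c1 (S : Finset I) : Fin 1 → ℤ := fun _ => G.D S

theorem hT1 (a : Fin 1) (S : Finset I) : G.T1 a (G.e S) = G.c1 S a • G.e S := G.e_D S

theorem mem_FT_iff {n : ℤ} {w : ExteriorAlgebra k L} : w ∈ G.FT n ↔ w ∈ Eig G.T1 fun _ => n :=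
  ⟨fun h _ => h, fun h => h 0⟩

instance finFT (n : ℤ) : FiniteDimensional k (G.FT n) := by
  have h := Eig_finite G.e G.T1 G.c1 G.hT1 (fun _ => n)
    ((G.finite_D n).subset (fun S hS => congrFun hS 0))
  have h2 : (G.FT n : Submodule k (ExteriorAlgebra k L)) = Eig G.T1 fun _ => n := by
    ext w; exact G.mem_FT_iff
  rw [← h2] at h
  exact h

/-- The projection on the chains of internal degree `n`. -/
def prn (n : ℤ) : ExteriorAlgebra k L →ₗ[k] ExteriorAlgebra k L := pr G.e G.c1 fun _ => n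

theorem prn_mem (n : ℤ) (w : ExteriorAlgebra k L) : G.prn n w ∈ G.FT n :=
  G.mem_FT_iff.2 (pr_mem G.e G.T1 G.c1 G.hT1 _ w)

theorem prn_of_mem {n : ℤ} {w : ExteriorAlgebra k L} (hw : w ∈ G.FT n) : G.prn n w = w :=
  pr_of_mem G.e G.T1 G.c1 G.hT1 (G.mem_FT_iff.1 hw)

theorem prn_lie (n : ℤ) (x : sl3 k) (w : ExteriorAlgebra k L) :
    G.prn n ⁅x, w⁆ = ⁅x, G.prn n w⁆ :=
  pr_comm G.e G.T1 G.c1 G.hT1 (der (ac k L x)) id Function.injective_id (by
    intro γ y hy a
    show der G.δ ⁅x, y⁆ = γ a • ⁅x, y⁆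
    have hy' : der G.δ y = γ a • y := hy a
    rw [← lie_derδ, hy', lie_zsmul]) _ w

theorem prn_bd (n : ℤ) (w : ExteriorAlgebra k L) :
    G.prn n (bd k L w) = bd k L (G.prn n w) :=
  pr_comm G.e G.T1 G.c1 G.hT1 (bd k L) id Function.injective_id (by
    intro γ y hy a
    show der G.δ (bd k L y) = γ a • bd k L y
    have hy' : der G.δ y = γ a • y := hy a
    rw [← bd_derδ, hy', map_zsmul]) _ w

/-- The boundaries of internal degree `n`. -/
def BT (n : ℤ) : LieSubmodule k (sl3 k) (G.FT n) where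
  carrier := {z | ∃ y ∈ G.FT n, bd k L y = z}
  add_mem' := by
    rintro a b ⟨x, hx, hx'⟩ ⟨y, hy, hy'⟩
    exact ⟨x + y, add_mem hx hy, by rw [map_add, hx', hy']; rfl⟩
  zero_mem' := ⟨0, zero_mem _, map_zero _⟩
  smul_mem' := by
    rintro c a ⟨x, hx, hx'⟩
    exact ⟨c • x, Submodule.smul_mem _ c hx, by rw [map_smul, hx']; rfl⟩
  lie_mem := by
    rintro x a ⟨y, hy, hy'⟩
    exact ⟨⁅x, y⁆, (G.FT n).lie_mem hy, by rw [bd_lie, hy']; rfl⟩

/-- The chains of internal degree `n` are spanned by weight vectors. -/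
theorem diag_FT (n : ℤ) : (SS k).Diag k (G.FT n) := by
  rw [Chev.Diag, eq_top_iff]
  rintro ⟨w, hw⟩ -
  have h1 : w ∈ Submodule.span k (G.e '' {S | G.c1 S = fun _ => n}) := by
    rw [← Eig_eq_span G.e G.T1 G.c1 G.hT1]; exact G.mem_FT_iff.1 hw
  have h2 : ∀ y (hy : y ∈ Submodule.span k (G.e '' {S | G.c1 S = fun _ => n})),
      ∃ hy' : y ∈ G.FT n, (⟨y, hy'⟩ : G.FT n) ∈
        (⨆ μ : ℤ × ℤ, (SS k).W k (G.FT n) μ.1 μ.2) := by
    intro y hy
    induction hy using Submodule.span_induction with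
    | mem y hy =>
      obtain ⟨S, hS, rfl⟩ := hy
      have hS' : G.D S = n := congrFun hS 0
      refine ⟨by rw [mem_FT, e_D, hS'], ?_⟩
      refine Submodule.mem_iSup_of_mem (G.P S, G.Q S) ⟨?_, ?_⟩
      · exact Subtype.ext (G.e_P S)
      · exact Subtype.ext (G.e_Q S)
    | zero => exact ⟨zero_mem _, zero_mem _⟩
    | add x y _ _ hx hy =>
      obtain ⟨hx1, hx2⟩ := hx
      obtain ⟨hy1, hy2⟩ := hy
      exact ⟨add_mem hx1 hy1, add_mem hx2 hy2⟩
    | smul c x _ hx =>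
      obtain ⟨hx1, hx2⟩ := hx
      exact ⟨Submodule.smul_mem _ c hx1, Submodule.smul_mem _ c hx2⟩
  obtain ⟨_, h3⟩ := h2 w h1
  exact h3

theorem diag_quot {M : Type*} [AddCommGroup M] [Module k M] [LieRingModule (sl3 k) M]
    [LieModule k (sl3 k) M] (h : (SS k).Diag k M) (N : LieSubmodule k (sl3 k) M) :
    (SS k).Diag k (M ⧸ N) := by
  rw [Chev.Diag, eq_top_iff]
  intro x _
  obtain ⟨m, rfl⟩ := LieSubmodule.Quotient.surjective_mk' N x
  have h1 : m ∈ (⨆ μ : ℤ × ℤ, (SS k).W k M μ.1 μ.2) := by rw [h]; trivial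
  have h2 : (⨆ μ : ℤ × ℤ, (SS k).W k M μ.1 μ.2) ≤
      (⨆ μ : ℤ × ℤ, (SS k).W k (M ⧸ N) μ.1 μ.2).comap
        (LieSubmodule.Quotient.mk' N : M →ₗ[k] M ⧸ N) := by
    refine iSup_le fun μ y hy => ?_
    refine Submodule.mem_iSup_of_mem μ ⟨?_, ?_⟩
    · have h3 : ⁅(SS k).h₁, (LieSubmodule.Quotient.mk' N) y⁆ =
          (LieSubmodule.Quotient.mk' N) ⁅(SS k).h₁, y⁆ := (LieModuleHom.map_lie _ _ _).symm
      show ⁅(SS k).h₁, (LieSubmodule.Quotient.mk' N) y⁆ = μ.1 • (LieSubmodule.Quotient.mk' N) y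
      rw [h3, hy.1, map_zsmul]
    · have h3 : ⁅(SS k).h₂, (LieSubmodule.Quotient.mk' N) y⁆ =
          (LieSubmodule.Quotient.mk' N) ⁅(SS k).h₂, y⁆ := (LieModuleHom.map_lie _ _ _).symm
      show ⁅(SS k).h₂, (LieSubmodule.Quotient.mk' N) y⁆ = μ.2 • (LieSubmodule.Quotient.mk' N) y
      rw [h3, hy.2, map_zsmul]
  exact h2 h1

/-- The operator family of the exterior degree. -/
def Tj : Fin 1 → (ExteriorAlgebra k L →ₗ[k] ExteriorAlgebra k L) := fun _ => der LinearMap.id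

/-- The eigenvalues. -/
def cj (S : Finset I) : Fin 1 → ℤ := fun _ => S.card

theorem hTj (a : Fin 1) (S : Finset I) :
    (Tj a (G.e S) : ExteriorAlgebra k L) = cj S a • G.e S := by
  show der LinearMap.id (G.e S) = ((S.card : ℕ) : ℤ) • G.e S
  rw [e, der_EB _ _ (fun _ => (1 : k)) (fun i => by simp), ← Int.cast_smul_eq_zsmul k]
  simp

/-- The projection on the exterior degree `j`. -/
def prj (j : ℤ) : ExteriorAlgebra k L →ₗ[k] ExteriorAlgebra k L := pr G.e cj fun _ => j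

theorem mem_pow_iff' {j : ℕ} {w : ExteriorAlgebra k L} :
    w ∈ ⋀[k]^j L ↔ w ∈ Eig Tj fun _ => (j : ℤ) := by
  rw [mem_pow_iff]
  constructor
  · intro h _
    show der LinearMap.id w = _
    rw [h, ← Int.cast_smul_eq_zsmul k]; simp
  · intro h
    have h0 : der LinearMap.id w = (j : ℤ) • w := h 0
    rw [h0, ← Int.cast_smul_eq_zsmul k]; simp

theorem prj_mem (j : ℕ) (w : ExteriorAlgebra k L) : G.prj j w ∈ ⋀[k]^j L :=
  mem_pow_iff'.2 (pr_mem G.e Tj cj G.hTj _ w)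

theorem prj_of_mem {j : ℕ} {w : ExteriorAlgebra k L} (hw : w ∈ ⋀[k]^j L) : G.prj j w = w :=
  pr_of_mem G.e Tj cj G.hTj (mem_pow_iff'.1 hw)

theorem prj_bd (j : ℤ) (w : ExteriorAlgebra k L) :
    G.prj (j - 1) (bd k L w) = bd k L (G.prj j w) :=
  pr_comm G.e Tj cj G.hTj (bd k L) (fun γ a => γ a - 1)
    (fun γ γ' h => by funext a; have := congrFun h a; simpa using this) (by
    intro γ y hy a
    show der LinearMap.id (bd k L y) = (γ a - 1) • bd k L y
    have hy' : der LinearMap.id y = γ a • y := hy a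
    rw [der_id_bd, hy', map_zsmul, sub_smul, one_smul]) _ w

theorem prj_der (T : L →ₗ[k] L) (j : ℤ) (w : ExteriorAlgebra k L) :
    G.prj j (der T w) = der T (G.prj j w) :=
  pr_comm G.e Tj cj G.hTj (der T) id Function.injective_id (by
    intro γ y hy a
    show der LinearMap.id (der T y) = γ a • der T y
    have hy' : der LinearMap.id y = γ a • y := hy a
    have h : (LinearMap.id : L →ₗ[k] L) ∘ₗ T - T ∘ₗ LinearMap.id = 0 := by ext; simp
    rw [der_der, h, der_zero, add_zero, hy', map_zsmul]) _ w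

include G in
/-- A cycle of exterior degree `j` that bounds, bounds a chain of exterior degree `j + 1`. -/
theorem exists_bd {j : ℕ} {v : ExteriorAlgebra k L} (hv : v ∈ ⋀[k]^j L)
    {y : ExteriorAlgebra k L} (hy : bd k L y = v) : ∃ y' ∈ ⋀[k]^(j + 1) L, bd k L y' = v := by
  refine ⟨G.prj (j + 1 : ℕ) y, G.prj_mem _ _, ?_⟩
  rw [← prj_bd, hy]
  have : ((j + 1 : ℕ) : ℤ) - 1 = (j : ℕ) := by push_cast; ring
  rw [this, G.prj_of_mem hv]

end GD

section lift

variable {g M V : Type*} [LieRing g] [LieAlgebra k g] [AddCommGroup M] [Module k M]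
  [LieRingModule g M] [LieModule k g M] [AddCommGroup V] [Module k V] [LieRingModule g V]
  [LieModule k g V]

/-- Lift of an equivariant map to a quotient. -/
def liftL (N : LieSubmodule k g M) (f : M →ₗ⁅k, g⁆ V) (h : ∀ x ∈ N, f x = 0) :
    (M ⧸ N) →ₗ⁅k, g⁆ V :=
  { (N : Submodule k M).liftQ (f : M →ₗ[k] V) (fun x hx => h x hx) with
    map_lie' := by
      intro x z
      obtain ⟨z, rfl⟩ := LieSubmodule.Quotient.surjective_mk' _ z
      exact LieModuleHom.map_lie f x z }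

theorem liftL_mk (N : LieSubmodule k g M) (f : M →ₗ⁅k, g⁆ V) (h : ∀ x ∈ N, f x = 0) (m : M) :
    liftL N f h (LieSubmodule.Quotient.mk' N m) = f m := rfl

end lift

namespace GD

/-- The projection on the chains of internal degree `n`, as an equivariant map. -/
def prL (n : ℤ) : ExteriorAlgebra k L →ₗ⁅k, sl3 k⁆ G.FT n :=
  { (G.prn n).codRestrict _ (G.prn_mem n) with
    map_lie' := fun {x w} => Subtype.ext (G.prn_lie n x w) }

theorem prL_apply (n : ℤ) (w : ExteriorAlgebra k L) : (G.prL n w : ExteriorAlgebra k L) =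
    G.prn n w := rfl

section rE

variable {V : Type*} [AddCommGroup V] [Module k V] [LieRingModule (sl3 k) V]
    [LieModule k (sl3 k) V] {n : ℤ} (r : (G.FT n ⧸ G.BT n) →ₗ⁅k, sl3 k⁆ V)

/-- The extension to all chains. -/
def rE : ExteriorAlgebra k L →ₗ⁅k, sl3 k⁆ V :=
  (r.comp (LieSubmodule.Quotient.mk' (G.BT n))).comp (G.prL n)

theorem rE_apply (w : ExteriorAlgebra k L) :
    G.rE r w = r (LieSubmodule.Quotient.mk' (G.BT n) (G.prL n w)) := rfl

theorem rE_bd (w : ExteriorAlgebra k L) : G.rE r (bd k L w) = 0 := by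
  rw [rE_apply]
  have h1 : LieSubmodule.Quotient.mk' (G.BT n) (G.prL n (bd k L w)) = 0 :=
    (LieSubmodule.Quotient.mk_eq_zero' (N := G.BT n)).2 ⟨G.prn n w, G.prn_mem n w, by
      rw [prL_apply, G.prn_bd]⟩
  rw [h1, map_zero]

/-- Extension of an equivariant map of the module of chains of internal degree `n` modulo
boundaries to the homology. -/
theorem exists_rH {j : ℕ} {v : ExteriorAlgebra k L} (hv : v ∈ Zc k (sl3 k) L j)
    (hvn : v ∈ G.FT n) :
    ∃ rH : HH k (sl3 k) L j →ₗ⁅k, sl3 k⁆ V,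
      rH (LieSubmodule.Quotient.mk' _ ⟨v, hv⟩) = r (LieSubmodule.Quotient.mk' _ ⟨v, hvn⟩) := by
  have h0 : ∀ x ∈ Bc k (sl3 k) L j, ((G.rE r).comp (Zc k (sl3 k) L j).incl) x = 0 := by
    rintro z ⟨y, -, hy⟩
    rw [LieModuleHom.comp_apply, LieSubmodule.incl_apply, ← hy, rE_bd]
  refine ⟨liftL (Bc k (sl3 k) L j) ((G.rE r).comp (Zc k (sl3 k) L j).incl) h0, ?_⟩
  rw [liftL_mk, LieModuleHom.comp_apply, LieSubmodule.incl_apply, rE_apply]
  have h2 : G.prL n v = ⟨v, hvn⟩ := Subtype.ext (G.prn_of_mem hvn)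
  rw [h2]

end rE

end GD

end Pool.Agent.R412.ABG

end
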