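import Pool.Agent.R412.ABG.Comp

/-!
# Trivial and adjoint components of the homology from highest weight cycles
-/

set_option autoImplicit false
set_option linter.unusedSimpArgs false
set_option linter.unusedSectionVars false
set_option linter.dupNamespace false

noncomputable section

open Module

namespace Pool.Agent.R412.ABG

variable {k : Type*} [Field k] [CharZero k]

section map

variable {M N : Type*} [AddCommGroup M] [Module k M] [LieRingModule (sl3 k) M]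
  [LieModule k (sl3 k) M] [AddCommGroup N] [Module k N] [LieRingModule (sl3 k) N]
  [LieModule k (sl3 k) N]

theorem AdjVec.map (φ : M →ₗ⁅k, sl3 k⁆ N) {w : M} (h : AdjVec (SS k) w) :
    AdjVec (SS k) (φ w) where
  e₁ := by rw [← LieModuleHom.map_lie, h.e₁, map_zero]
  e₂ := by rw [← LieModuleHom.map_lie, h.e₂, map_zero]
  h₁ := by rw [← LieModuleHom.map_lie, h.h₁]
  h₂ := by rw [← LieModuleHom.map_lie, h.h₂]
  f₁f₁ := by rw [← LieModuleHom.map_lie, ← LieModuleHom.map_lie, h.f₁f₁, map_zero]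
  f₂f₂ := by rw [← LieModuleHom.map_lie, ← LieModuleHom.map_lie, h.f₂f₂, map_zero]

theorem AdjVec.of_injective (φ : M →ₗ⁅k, sl3 k⁆ N) (hφ : Function.Injective φ) {w : M}
    (h : AdjVec (SS k) (φ w)) : AdjVec (SS k) w where
  e₁ := hφ (by rw [LieModuleHom.map_lie, h.e₁, map_zero])
  e₂ := hφ (by rw [LieModuleHom.map_lie, h.e₂, map_zero])
  h₁ := hφ (by rw [LieModuleHom.map_lie, h.h₁])
  h₂ := hφ (by rw [LieModuleHom.map_lie, h.h₂])
  f₁f₁ := hφ (by rw [LieModuleHom.map_lie, LieModuleHom.map_lie, h.f₁f₁, map_zero])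
  f₂f₂ := hφ (by rw [LieModuleHom.map_lie, LieModuleHom.map_lie, h.f₂f₂, map_zero])

theorem K_map (φ : M →ₗ⁅k, sl3 k⁆ N) {p q : ℤ} {w : M} (h : w ∈ (SS k).K k M p q) :
    φ w ∈ (SS k).K k N p q := by
  obtain ⟨⟨h1, h2⟩, h3, h4⟩ := (SS k).mem_K.1 h
  refine (SS k).mem_K.2 ⟨⟨?_, ?_⟩, ?_, ?_⟩
  · rw [← LieModuleHom.map_lie, h1, map_zsmul]
  · rw [← LieModuleHom.map_lie, h2, map_zsmul]
  · rw [← LieModuleHom.map_lie, h3, map_zero]
  · rw [← LieModuleHom.map_lie, h4, map_zero]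

theorem K_of_injective (φ : M →ₗ⁅k, sl3 k⁆ N) (hφ : Function.Injective φ) {p q : ℤ} {w : M}
    (h : φ w ∈ (SS k).K k N p q) : w ∈ (SS k).K k M p q := by
  obtain ⟨⟨h1, h2⟩, h3, h4⟩ := (SS k).mem_K.1 h
  refine (SS k).mem_K.2 ⟨⟨hφ ?_, hφ ?_⟩, hφ ?_, hφ ?_⟩
  · rw [LieModuleHom.map_lie, h1, map_zsmul]
  · rw [LieModuleHom.map_lie, h2, map_zsmul]
  · rw [LieModuleHom.map_lie, h3, map_zero]
  · rw [LieModuleHom.map_lie, h4, map_zero]

theorem finite_quot [FiniteDimensional k M] (N' : LieSubmodule k (sl3 k) M) :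
    FiniteDimensional k (M ⧸ N') :=
  Module.Finite.of_surjective (LieSubmodule.Quotient.mk' N' : M →ₗ[k] M ⧸ N')
    (LieSubmodule.Quotient.surjective_mk' N')

/-- The trivial module. -/
abbrev Tr (k : Type*) [Field k] : Type _ := TrivialLieModule k (sl3 k) k

/-- The underlying scalar. -/
abbrev trE' (k : Type*) [Field k] : Tr k ≃ₗ[k] k := TrivialLieModule.equiv k (sl3 k) k

/-- A linear form that vanishes on the brackets, as an equivariant map. -/
def toTr (l : M →ₗ[k] k) (hl : ∀ (x : sl3 k) (m : M), l ⁅x, m⁆ = 0) : M →ₗ⁅k, sl3 k⁆ Tr k :=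
  { (trE' k).symm.toLinearMap ∘ₗ l with
    map_lie' := by
      intro x m
      show (trE' k).symm (l ⁅x, m⁆) = ⁅x, (trE' k).symm (l m)⁆
      rw [hl, map_zero, trivial_lie_zero] }

theorem toTr_apply (l : M →ₗ[k] k) (hl : ∀ (x : sl3 k) (m : M), l ⁅x, m⁆ = 0) (m : M) :
    toTr l hl m = (trE' k).symm (l m) := rfl

/-- An invariant vector, as an equivariant map. -/
def ofTr (w : M) (hw : ∀ x : sl3 k, ⁅x, w⁆ = 0) : Tr k →ₗ⁅k, sl3 k⁆ M :=
  { (LinearMap.toSpanSingleton k M w : k →ₗ[k] M) ∘ₗ (trE' k).toLinearMap with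
    map_lie' := by
      intro x c
      show trE' k ⁅x, c⁆ • w = ⁅x, trE' k c • w⁆
      rw [trivial_lie_zero, map_zero, zero_smul, lie_smul, hw, smul_zero] }

theorem ofTr_apply (w : M) (hw : ∀ x : sl3 k, ⁅x, w⁆ = 0) (c : Tr k) :
    ofTr w hw c = trE' k c • w := rfl

end map

variable {L I : Type*} [LieRing L] [LieAlgebra k L] [LieRingModule (sl3 k) L]
  [LieModule k (sl3 k) L] [DerAction (sl3 k) L] [LinearOrder I] (G : GD k L I)

namespace GD

variable {n : ℤ} {j : ℕ} {v : ExteriorAlgebra k L} (hv : v ∈ Zc k (sl3 k) L j)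
    (hvn : v ∈ G.FT n) (hnb : ∀ y ∈ ⋀[k]^(j + 1) L, bd k L y ≠ v)

include G hv hnb in
theorem mk_ne_zero : LieSubmodule.Quotient.mk' (G.BT n) ⟨v, hvn⟩ ≠ 0 := by
  intro h
  obtain ⟨y, -, hy⟩ := (LieSubmodule.Quotient.mk_eq_zero' (N := G.BT n)).1 h
  obtain ⟨y', hy', hy''⟩ := G.exists_bd hv.1 hy
  exact hnb y' hy' hy''

include G hv hvn hnb in
/-- A highest weight cycle of the adjoint weight gives an adjoint component. -/
theorem comp_adj (hK : v ∈ (SS k).K k (ExteriorAlgebra k L) 1 1) :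
    IsSummand k (sl3 k) (sl3 k) (HH k (sl3 k) L j) := by
  haveI := finite_quot (G.BT n)
  have hK1 : (⟨v, hvn⟩ : G.FT n) ∈ (SS k).K k (G.FT n) 1 1 :=
    K_of_injective (G.FT n).incl (G.FT n).injective_incl hK
  have hK2 := K_map (LieSubmodule.Quotient.mk' (G.BT n)) hK1
  obtain ⟨r, hr⟩ := exists_retract_one (diag_quot (G.diag_FT n) (G.BT n)) hK2
    (G.mk_ne_zero hv hvn hnb)
  obtain ⟨rH, hrH⟩ := G.exists_rH r hv hvn
  have hA1 := adjVec_of_mem_K (SS k) hK1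
  have hA2 : AdjVec (SS k) v := hA1.map (G.FT n).incl
  have hA3 : AdjVec (SS k) (⟨v, hv⟩ : Zc k (sl3 k) L j) :=
    AdjVec.of_injective (Zc k (sl3 k) L j).incl (Zc k (sl3 k) L j).injective_incl hA2
  have hA4 := hA3.map (LieSubmodule.Quotient.mk' (Bc k (sl3 k) L j))
  refine ⟨adjM hA4, rH, ?_⟩
  have h1 : rH.comp (adjM hA4) = (1 : sl3 k →ₗ⁅k, sl3 k⁆ sl3 k) := by
    apply adj_unique
    rw [LieModuleHom.comp_apply, adjM_apply, adjL_e₃, hrH, hr]; rfl
  intro x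
  have h2 := congrArg (fun φ : sl3 k →ₗ⁅k, sl3 k⁆ sl3 k => φ x) h1
  exact h2

include G hv hvn hnb in
/-- A highest weight cycle of weight zero gives a trivial component. -/
theorem comp_triv (hK : v ∈ (SS k).K k (ExteriorAlgebra k L) 0 0) :
    IsSummand k (sl3 k) (Tr k) (HH k (sl3 k) L j) := by
  haveI := finite_quot (G.BT n)
  have hK1 : (⟨v, hvn⟩ : G.FT n) ∈ (SS k).K k (G.FT n) 0 0 :=
    K_of_injective (G.FT n).incl (G.FT n).injective_incl hK
  have hK2 := K_map (LieSubmodule.Quotient.mk' (G.BT n)) hK1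
  obtain ⟨l, hl, hl'⟩ := exists_retract_zero (diag_quot (G.diag_FT n) (G.BT n)) hK2
    (G.mk_ne_zero hv hvn hnb)
  obtain ⟨rH, hrH⟩ := G.exists_rH (toTr l hl') hv hvn
  have hA2 : ∀ x : sl3 k, ⁅x, v⁆ = 0 := fun x => congrArg Subtype.val (kill_of_mem_K hK1 x)
  have hA4 : ∀ x : sl3 k, ⁅x, LieSubmodule.Quotient.mk' (Bc k (sl3 k) L j) ⟨v, hv⟩⁆ = 0 := by
    intro x
    rw [← LieModuleHom.map_lie]
    have : ⁅x, (⟨v, hv⟩ : Zc k (sl3 k) L j)⁆ = 0 := Subtype.ext (hA2 x)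
    rw [this, map_zero]
  refine ⟨ofTr _ hA4, rH, ?_⟩
  intro c
  rw [ofTr_apply, map_smul, hrH, toTr_apply, hl, ← map_smul, smul_eq_mul, mul_one]
  exact (trE' k).symm_apply_apply c

end GD

end Pool.Agent.R412.ABG

end
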