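import Pool.Agent.R412.ABG.FactR

/-!
# Functionals of extreme weight
-/

set_option autoImplicit false
set_option linter.unusedSimpArgs false
set_option linter.unusedSectionVars false

noncomputable section

open Module LieModule

namespace Pool.Agent.R412.ABG

namespace Chev

variable {k g M : Type*} [Field k] [LieRing g] [LieAlgebra k g] [AddCommGroup M]
  [Module k M] [LieRingModule g M] [LieModule k g M] (S : Chev g) [CharZero k]

theorem W_disj_h₁ (p q : ℤ) {m : M} (hm : m ∈ S.W k M p q)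
    (hm' : m ∈ ⨆ (μ : ℤ × ℤ) (_ : μ.1 ≠ p), S.W k M μ.1 μ.2) : m = 0 := by
  have h1 := (End.eigenspaces_iSupIndep (toEnd k g M S.h₁)) (p : k)
  have h2 : m ∈ ⨆ (μ : k) (_ : μ ≠ (p : k)), (toEnd k g M S.h₁).eigenspace μ := by
    refine (iSup₂_le fun μ hμ => ?_ : (⨆ (μ : ℤ × ℤ) (_ : μ.1 ≠ p), S.W k M μ.1 μ.2) ≤ _) hm'
    refine le_trans ?_ (le_iSup₂_of_le ((μ.1 : ℤ) : k) (by exact_mod_cast hμ) le_rfl)
    intro x hx
    rw [End.mem_eigenspace_iff, toEnd_apply_apply, hx.1, Int.cast_smul_eq_zsmul]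
  have h3 : m ∈ (toEnd k g M S.h₁).eigenspace (p : k) := by
    rw [End.mem_eigenspace_iff, toEnd_apply_apply, hm.1, Int.cast_smul_eq_zsmul]
  exact Submodule.disjoint_def.1 h1 m h3 h2

theorem W_disj_h₂ (p q : ℤ) {m : M} (hm : m ∈ S.W k M p q)
    (hm' : m ∈ ⨆ (μ : ℤ × ℤ) (_ : μ.2 ≠ q), S.W k M μ.1 μ.2) : m = 0 := by
  have h1 := (End.eigenspaces_iSupIndep (toEnd k g M S.h₂)) (q : k)
  have h2 : m ∈ ⨆ (μ : k) (_ : μ ≠ (q : k)), (toEnd k g M S.h₂).eigenspace μ := by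
    refine (iSup₂_le fun μ hμ => ?_ : (⨆ (μ : ℤ × ℤ) (_ : μ.2 ≠ q), S.W k M μ.1 μ.2) ≤ _) hm'
    refine le_trans ?_ (le_iSup₂_of_le ((μ.2 : ℤ) : k) (by exact_mod_cast hμ) le_rfl)
    intro x hx
    rw [End.mem_eigenspace_iff, toEnd_apply_apply, hx.2, Int.cast_smul_eq_zsmul]
  have h3 : m ∈ (toEnd k g M S.h₂).eigenspace (q : k) := by
    rw [End.mem_eigenspace_iff, toEnd_apply_apply, hm.2, Int.cast_smul_eq_zsmul]
  exact Submodule.disjoint_def.1 h1 m h3 h2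

theorem W_indep : iSupIndep fun μ : ℤ × ℤ => S.W k M μ.1 μ.2 := by
  intro μ
  rw [Submodule.disjoint_def]
  intro m hm hm'
  have h1 : (⨆ (ν : ℤ × ℤ) (_ : ν ≠ μ), S.W k M ν.1 ν.2) ≤
      (⨆ (ν : ℤ × ℤ) (_ : ν.1 ≠ μ.1), S.W k M ν.1 ν.2) ⊔
        ⨆ q' : {q' : ℤ // q' ≠ μ.2}, S.W k M μ.1 q' := by
    refine iSup₂_le fun ν hν => ?_
    by_cases h : ν.1 = μ.1
    · refine le_trans ?_ le_sup_right
      have h2 : ν.2 ≠ μ.2 := fun h' => hν (Prod.ext h h')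
      rw [h]
      exact le_iSup (fun q' : {q' : ℤ // q' ≠ μ.2} => S.W k M μ.1 q') ⟨ν.2, h2⟩
    · exact le_trans (le_iSup₂_of_le ν h le_rfl) le_sup_left
  obtain ⟨a, ha, b, hb, hab⟩ := Submodule.mem_sup.1 (h1 hm')
  have hb1 : ⁅S.h₁, b⁆ = μ.1 • b := by
    have h2 : (⨆ q' : {q' : ℤ // q' ≠ μ.2}, S.W k M μ.1 q') ≤
        (toEnd k g M S.h₁).eigenspace ((μ.1 : ℤ) : k) := by
      refine iSup_le fun q' x hx => ?_
      rw [End.mem_eigenspace_iff, toEnd_apply_apply, hx.1, Int.cast_smul_eq_zsmul]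
    have h3 := h2 hb
    rwa [End.mem_eigenspace_iff, toEnd_apply_apply, Int.cast_smul_eq_zsmul] at h3
  have ha0 : a = 0 := by
    have h1 := (End.eigenspaces_iSupIndep (toEnd k g M S.h₁)) ((μ.1 : ℤ) : k)
    have h2 : a ∈ ⨆ (ρ : k) (_ : ρ ≠ ((μ.1 : ℤ) : k)), (toEnd k g M S.h₁).eigenspace ρ := by
      refine (iSup₂_le fun ρ hρ => ?_ : (⨆ (ρ : ℤ × ℤ) (_ : ρ.1 ≠ μ.1), S.W k M ρ.1 ρ.2) ≤ _) ha
      refine le_trans ?_ (le_iSup₂_of_le ((ρ.1 : ℤ) : k) (by exact_mod_cast hρ) le_rfl)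
      intro x hx
      rw [End.mem_eigenspace_iff, toEnd_apply_apply, hx.1, Int.cast_smul_eq_zsmul]
    have h3 : a ∈ (toEnd k g M S.h₁).eigenspace ((μ.1 : ℤ) : k) := by
      rw [End.mem_eigenspace_iff, toEnd_apply_apply, Int.cast_smul_eq_zsmul]
      have : a = m - b := by rw [← hab]; abel
      rw [this, lie_sub, hm.1, hb1, smul_sub]
    exact Submodule.disjoint_def.1 h1 a h3 h2
  have hmb : m = b := by rw [← hab, ha0, zero_add]
  refine S.W_disj_h₂ μ.1 μ.2 hm ?_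
  rw [hmb]
  refine (iSup_le fun q' => ?_ : (⨆ q' : {q' : ℤ // q' ≠ μ.2}, S.W k M μ.1 q') ≤ _) hb
  exact le_iSup₂_of_le (μ.1, (q' : ℤ)) q'.2 le_rfl

variable (k M) in
/-- `M` is the sum of its weight spaces. -/
def Diag : Prop := (⨆ μ : ℤ × ℤ, S.W k M μ.1 μ.2) = ⊤

/-- Everything but the weight `μ`. -/
def Rest (μ : ℤ × ℤ) : Submodule k M := ⨆ (ν : ℤ × ℤ) (_ : ν ≠ μ), S.W k M ν.1 ν.2

theorem Diag.split (h : S.Diag k M) (μ : ℤ × ℤ) (m : M) :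
    ∃ a ∈ S.W k M μ.1 μ.2, ∃ b ∈ S.Rest (k := k) (M := M) μ, a + b = m := by
  have h1 : m ∈ S.W k M μ.1 μ.2 ⊔ S.Rest (k := k) (M := M) μ := by
    rw [Rest, ← iSup_split_single (fun μ : ℤ × ℤ => S.W k M μ.1 μ.2) μ, h]; trivial
  exact Submodule.mem_sup.1 h1

theorem lie_mem_Rest {x : g} {a b : ℤ} (h1 : ⁅S.h₁, x⁆ = a • x) (h2 : ⁅S.h₂, x⁆ = b • x)
    {μ ν : ℤ × ℤ} (hμ : ν = (μ.1 + a, μ.2 + b)) {m : M} (hm : m ∈ S.Rest (k := k) (M := M) μ) :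
    ⁅x, m⁆ ∈ S.Rest (k := k) (M := M) ν := by
  have h3 : S.Rest (k := k) (M := M) μ ≤ (S.Rest (k := k) (M := M) ν).comap (toEnd k g M x) := by
    refine iSup₂_le fun ρ hρ y hy => ?_
    have h4 := S.lie_mem_W (k := k) h1 h2 (p' := ρ.1 + a) (q' := ρ.2 + b) rfl rfl hy
    refine (le_iSup₂_of_le (f := fun (ν' : ℤ × ℤ) (_ : ν' ≠ ν) => S.W k M ν'.1 ν'.2)
      (ρ.1 + a, ρ.2 + b) ?_ le_rfl) h4
    rw [hμ]
    intro h
    simp only [Prod.mk.injEq, add_left_inj] at h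
    exact hρ (Prod.ext h.1 h.2)
  exact h3 hm

theorem swap_W (p q : ℤ) : S.swap.W k M p q = S.W k M (-p) (-q) := by
  ext m
  rw [mem_W, mem_W]
  show ⁅-S.h₁, m⁆ = _ ∧ ⁅-S.h₂, m⁆ = _ ↔ _
  rw [neg_lie, neg_lie, neg_smul, neg_smul, neg_eq_iff_eq_neg, neg_eq_iff_eq_neg]

theorem swap_box (c : ℤ) (m : M) : S.swap.box k M c m = S.box k M c m := by
  rw [box_apply, box_apply, swap_cas]

/-- A functional of extreme weight. -/
theorem exists_dual [FiniteDimensional k M] (hD : S.Diag k M) {p q : ℤ} (hg : Good p q) {u : M}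
    (hu : u ∈ S.W k M (-p) (-q)) (hu0 : u ≠ 0) (hb : S.box k M (Qf p q) u = 0) :
    ∃ l : M →ₗ[k] k, l u = 1 ∧ (∀ m, l ⁅S.e₁, m⁆ = 0) ∧ (∀ m, l ⁅S.e₂, m⁆ = 0) ∧
      (∀ m, l ⁅S.h₁, m⁆ = -(p • l m)) ∧ (∀ m, l ⁅S.h₂, m⁆ = -(q • l m)) := by
  set R : Submodule k M := LinearMap.range (toEnd k g M S.e₁) ⊔ LinearMap.range (toEnd k g M S.e₂) ⊔
    LinearMap.range (toEnd k g M S.h₁ + p • LinearMap.id) ⊔
    LinearMap.range (toEnd k g M S.h₂ + q • LinearMap.id) with hR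
  have huR : u ∉ R := by
    intro h
    obtain ⟨z3, hz3, z4, ⟨y4, rfl⟩, h4⟩ := Submodule.mem_sup.1 h
    obtain ⟨z2, hz2, _, ⟨y3, rfl⟩, h3⟩ := Submodule.mem_sup.1 hz3
    obtain ⟨_, ⟨y1, rfl⟩, _, ⟨y2, rfl⟩, h2⟩ := Submodule.mem_sup.1 hz2
    obtain ⟨a1, ha1, b1, hb1, e1⟩ := Diag.split S hD (-p - 2, -q + 1) y1
    obtain ⟨a2, ha2, b2, hb2, e2⟩ := Diag.split S hD (-p + 1, -q - 2) y2
    obtain ⟨a3, ha3, b3, hb3, e3⟩ := Diag.split S hD (-p, -q) y3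
    obtain ⟨a4, ha4, b4, hb4, e4⟩ := Diag.split S hD (-p, -q) y4
    have hw : u - ⁅S.e₁, a1⁆ - ⁅S.e₂, a2⁆ = ⁅S.e₁, b1⁆ + ⁅S.e₂, b2⁆ + (⁅S.h₁, b3⁆ + p • b3) +
        (⁅S.h₂, b4⁆ + q • b4) := by
      rw [← h4, ← h3, ← h2, ← e1, ← e2, ← e3, ← e4]
      simp only [LinearMap.add_apply, LinearMap.smul_apply, LinearMap.id_apply,
        toEnd_apply_apply, lie_add]
      rw [ha3.1, ha4.2]
      module
    have hr : ⁅S.e₁, b1⁆ + ⁅S.e₂, b2⁆ + (⁅S.h₁, b3⁆ + p • b3) + (⁅S.h₂, b4⁆ + q • b4) ∈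
        S.Rest (k := k) (M := M) (-p, -q) := by
      refine Submodule.add_mem _ (Submodule.add_mem _ (Submodule.add_mem _ ?_ ?_)
        (Submodule.add_mem _ ?_ ?_)) (Submodule.add_mem _ ?_ ?_)
      · exact S.lie_mem_Rest (a := 2) (b := -1) (by rw [S.h₁e₁]; abel) (by rw [S.h₂e₁]; abel)
          (by ext <;> simp <;> ring) hb1
      · exact S.lie_mem_Rest (a := -1) (b := 2) (by rw [S.h₁e₂]; abel) (by rw [S.h₂e₂]; abel)
          (by ext <;> simp <;> ring) hb2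
      · exact S.lie_mem_Rest (a := 0) (b := 0) (by simp) (by
          rw [← lie_skew, S.h₁h₂]; simp) (by ext <;> simp) hb3
      · exact Submodule.smul_of_tower_mem _ _ hb3
      · exact S.lie_mem_Rest (a := 0) (b := 0) (by rw [S.h₁h₂]; simp) (by simp)
          (by ext <;> simp) hb4
      · exact Submodule.smul_of_tower_mem _ _ hb4
    have hl : u - ⁅S.e₁, a1⁆ - ⁅S.e₂, a2⁆ ∈ S.W k M (-p) (-q) :=
      Submodule.sub_mem _ (Submodule.sub_mem _ hu (S.e₁_mem ha1 (by ring) (by ring)))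
        (S.e₂_mem ha2 (by ring) (by ring))
    have h0 : u - ⁅S.e₁, a1⁆ - ⁅S.e₂, a2⁆ = 0 :=
      Submodule.disjoint_def.1 (S.W_indep (k := k) (M := M) (-p, -q)) _ hl (hw ▸ hr)
    have hu' : u = ⁅S.e₁, a1⁆ + ⁅S.e₂, a2⁆ := by
      rw [← sub_eq_zero, ← h0]; abel
    -- Fitting
    obtain ⟨N, hN1, hN⟩ := ((Filter.eventually_ge_atTop 1).and
      (End.eventually_disjoint_ker_pow_range_pow (S.box k M (Qf p q)))).exists
    have key : ∀ n : ℕ, (∃ c1 ∈ S.W k M (-p - 2) (-q + 1), ((S.box k M (Qf p q)) ^ n) c1 = a1) ∧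
        (∃ c2 ∈ S.W k M (-p + 1) (-q - 2), ((S.box k M (Qf p q)) ^ n) c2 = a2) := by
      intro n
      induction n with
      | zero => exact ⟨⟨a1, ha1, rfl⟩, ⟨a2, ha2, rfl⟩⟩
      | succ n ih =>
        obtain ⟨⟨c1, hc1, e1⟩, ⟨c2, hc2, e2⟩⟩ := ih
        constructor
        · have hc1' : c1 ∈ S.swap.W k M (p + 2) (q - 1) := by
            rw [swap_W]; convert hc1 using 2 <;> ring
          obtain ⟨d, hd, hd'⟩ := S.swap.box_surj (a := 1) (b := 0) hg (by simp)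
            (by push_cast; ring) (by push_cast; ring) hc1'
          refine ⟨d, ?_, ?_⟩
          · rw [swap_W] at hd; convert hd using 2 <;> ring
          · rw [pow_succ, End.mul_apply, ← swap_box, hd', e1]
        · have hc2' : c2 ∈ S.swap.W k M (p - 1) (q + 2) := by
            rw [swap_W]; convert hc2 using 2 <;> ring
          obtain ⟨d, hd, hd'⟩ := S.swap.box_surj (a := 0) (b := 1) hg (by simp)
            (by push_cast; ring) (by push_cast; ring) hc2'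
          refine ⟨d, ?_, ?_⟩
          · rw [swap_W] at hd; convert hd using 2 <;> ring
          · rw [pow_succ, End.mul_apply, ← swap_box, hd', e2]
    obtain ⟨⟨c1, _, e1⟩, ⟨c2, _, e2⟩⟩ := key N
    have hp1 : ∀ n : ℕ, ∀ c : M, ((S.box k M (Qf p q)) ^ n) ⁅S.e₁, c⁆ =
        ⁅S.e₁, ((S.box k M (Qf p q)) ^ n) c⁆ := by
      intro n
      induction n with
      | zero => intro c; rfl
      | succ n ih => intro c; rw [pow_succ, End.mul_apply, End.mul_apply, box_e₁, ih]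
    have hp2 : ∀ n : ℕ, ∀ c : M, ((S.box k M (Qf p q)) ^ n) ⁅S.e₂, c⁆ =
        ⁅S.e₂, ((S.box k M (Qf p q)) ^ n) c⁆ := by
      intro n
      induction n with
      | zero => intro c; rfl
      | succ n ih => intro c; rw [pow_succ, End.mul_apply, End.mul_apply, box_e₂, ih]
    refine hu0 (Submodule.disjoint_def.1 hN u ?_ ?_)
    · rw [LinearMap.mem_ker]
      obtain ⟨n, rfl⟩ : ∃ n, N = n + 1 := ⟨N - 1, by omega⟩
      rw [pow_succ, End.mul_apply, hb, map_zero]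
    · refine ⟨⁅S.e₁, c1⁆ + ⁅S.e₂, c2⁆, ?_⟩
      rw [map_add, hp1, hp2, e1, e2, ← hu']
  obtain ⟨l, hl, hlR⟩ := Submodule.exists_le_ker_of_notMem huR
  refine ⟨(l u)⁻¹ • l, ?_, ?_, ?_, ?_, ?_⟩
  · rw [LinearMap.smul_apply, smul_eq_mul, inv_mul_cancel₀ hl]
  · intro m
    have h1 : l ⁅S.e₁, m⁆ = 0 := LinearMap.mem_ker.1 (hlR (Submodule.mem_sup_left
      (Submodule.mem_sup_left (Submodule.mem_sup_left ⟨m, rfl⟩))))
    rw [LinearMap.smul_apply, h1, smul_zero]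
  · intro m
    have h1 : l ⁅S.e₂, m⁆ = 0 := LinearMap.mem_ker.1 (hlR (Submodule.mem_sup_left
      (Submodule.mem_sup_left (Submodule.mem_sup_right ⟨m, rfl⟩))))
    rw [LinearMap.smul_apply, h1, smul_zero]
  · intro m
    have h1 : l (⁅S.h₁, m⁆ + p • m) = 0 := LinearMap.mem_ker.1 (hlR (Submodule.mem_sup_left
      (Submodule.mem_sup_right ⟨m, rfl⟩)))
    rw [map_add, map_zsmul] at h1
    rw [LinearMap.smul_apply, LinearMap.smul_apply, eq_neg_of_add_eq_zero_left h1, smul_neg,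
      smul_comm]
  · intro m
    have h1 : l (⁅S.h₂, m⁆ + q • m) = 0 := LinearMap.mem_ker.1 (hlR
      (Submodule.mem_sup_right ⟨m, rfl⟩))
    rw [map_add, map_zsmul] at h1
    rw [LinearMap.smul_apply, LinearMap.smul_apply, eq_neg_of_add_eq_zero_left h1, smul_neg,
      smul_comm]

end Chev

end Pool.Agent.R412.ABG

end
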