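import Pool.Agent.R412.ABG.Comp2

/-!
# The Euler characteristic
-/

set_option autoImplicit false
set_option linter.unusedSimpArgs false
set_option linter.unusedSectionVars false
set_option linter.dupNamespace false

noncomputable section

open Module

namespace Pool.Agent.R412.ABG

variable {k : Type*} [Field k] [CharZero k]

section fit

variable {g M : Type*} [LieRing g] [LieAlgebra k g] [AddCommGroup M] [Module k M]
  [LieRingModule g M] [LieModule k g M] (S : Chev g) [FiniteDimensional k M] {p q : ℤ}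

theorem box_pow_inj (hg : Chev.Good p q) {a b : ℕ} (hab : a ≠ 0 ∨ b ≠ 0) {p' q' : ℤ}
    (hp : p' = p + 2 * a - b) (hq : q' = q - a + 2 * b) (N : ℕ) {m : M}
    (hm : m ∈ S.W k M p' q') (h : ((S.box k M (Qf p q)) ^ N) m = 0) : m = 0 := by
  induction N generalizing m with
  | zero => exact h
  | succ N ih =>
    rw [pow_succ, End.mul_apply] at h
    exact S.box_inj hg hab hp hq hm (ih (S.box_mem hm) h)

/-- The Fitting decomposition of a weight vector. -/
theorem fit (hg : Chev.Good p q) {y : M} (hy : y ∈ S.W k M p q) :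
    ∀ᶠ N in Filter.atTop, ∃ u ∈ S.K k M p q, ∃ z, y = u + ((S.box k M (Qf p q)) ^ N) z := by
  filter_upwards [(S.box k M (Qf p q)).eventually_isCompl_ker_pow_range_pow] with N hN
  have hy' : y ∈ LinearMap.ker ((S.box k M (Qf p q)) ^ N) ⊔
      LinearMap.range ((S.box k M (Qf p q)) ^ N) := by rw [hN.sup_eq_top]; trivial
  obtain ⟨u, hu, _, ⟨z, rfl⟩, huz⟩ := Submodule.mem_sup.1 hy'
  have hc1 : ∀ n : ℕ, ∀ m : M, ((S.box k M (Qf p q)) ^ n) ⁅S.e₁, m⁆ =
      ⁅S.e₁, ((S.box k M (Qf p q)) ^ n) m⁆ := by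
    intro n
    induction n with
    | zero => intro m; rfl
    | succ n ih => intro m; rw [pow_succ, End.mul_apply, End.mul_apply, S.box_e₁, ih]
  have hc2 : ∀ n : ℕ, ∀ m : M, ((S.box k M (Qf p q)) ^ n) ⁅S.e₂, m⁆ =
      ⁅S.e₂, ((S.box k M (Qf p q)) ^ n) m⁆ := by
    intro n
    induction n with
    | zero => intro m; rfl
    | succ n ih => intro m; rw [pow_succ, End.mul_apply, End.mul_apply, S.box_e₂, ih]
  have hc3 : ∀ n : ℕ, ∀ m : M, ((S.box k M (Qf p q)) ^ n) ⁅S.h₁, m⁆ =
      ⁅S.h₁, ((S.box k M (Qf p q)) ^ n) m⁆ := by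
    intro n
    induction n with
    | zero => intro m; rfl
    | succ n ih => intro m; rw [pow_succ, End.mul_apply, End.mul_apply, S.box_h₁, ih]
  have hc4 : ∀ n : ℕ, ∀ m : M, ((S.box k M (Qf p q)) ^ n) ⁅S.h₂, m⁆ =
      ⁅S.h₂, ((S.box k M (Qf p q)) ^ n) m⁆ := by
    intro n
    induction n with
    | zero => intro m; rfl
    | succ n ih => intro m; rw [pow_succ, End.mul_apply, End.mul_apply, S.box_h₂, ih]
  have hdis := hN.disjoint
  have hu0 : ((S.box k M (Qf p q)) ^ N) u = 0 := hu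
  have hW : u ∈ S.W k M p q := by
    constructor
    · rw [← sub_eq_zero]
      refine Submodule.disjoint_def.1 hdis _ ?_ ⟨p • z - ⁅S.h₁, z⁆, ?_⟩
      · show ((S.box k M (Qf p q)) ^ N) _ = 0
        rw [map_sub, map_zsmul, hc3, hu0, lie_zero, smul_zero, sub_zero]
      · have h1 := hy.1
        rw [← huz, lie_add, smul_add] at h1
        rw [map_sub, map_zsmul, hc3]
        linear_combination (norm := abel) -h1
    · rw [← sub_eq_zero]
      refine Submodule.disjoint_def.1 hdis _ ?_ ⟨q • z - ⁅S.h₂, z⁆, ?_⟩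
      · show ((S.box k M (Qf p q)) ^ N) _ = 0
        rw [map_sub, map_zsmul, hc4, hu0, lie_zero, smul_zero, sub_zero]
      · have h1 := hy.2
        rw [← huz, lie_add, smul_add] at h1
        rw [map_sub, map_zsmul, hc4]
        linear_combination (norm := abel) -h1
  refine ⟨u, S.mem_K.2 ⟨hW, ?_, ?_⟩, z, huz.symm⟩
  · refine box_pow_inj S hg (a := 1) (b := 0) (by simp) rfl rfl N
      (S.e₁_mem hW (by push_cast; ring) (by push_cast; ring)) ?_
    rw [hc1, hu0, lie_zero]
  · refine box_pow_inj S hg (a := 0) (b := 1) (by simp) rfl rfl N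
      (S.e₂_mem hW (by push_cast; ring) (by push_cast; ring)) ?_
    rw [hc2, hu0, lie_zero]

end fit

/-- Equality of dimensions in an exact two-periodic complex. -/
theorem finrank_eq_of_exact {E : Type*} [AddCommGroup E] [Module k E] (d : E →ₗ[k] E)
    (X Y : Submodule k E) [FiniteDimensional k X] [FiniteDimensional k Y]
    (hXY : ∀ x ∈ X, d x ∈ Y) (hYX : ∀ y ∈ Y, d y ∈ X) (hd : ∀ x, d (d x) = 0)
    (h1 : ∀ x ∈ X, d x = 0 → ∃ y ∈ Y, d y = x) (h2 : ∀ y ∈ Y, d y = 0 → ∃ x ∈ X, d x = y) :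
    finrank k X = finrank k Y := by
  let a : X →ₗ[k] Y := d.restrict hXY
  let b : Y →ₗ[k] X := d.restrict hYX
  have ha : LinearMap.ker a = LinearMap.range b := by
    ext x
    constructor
    · intro hx
      have hx' : d x = 0 := congrArg Subtype.val hx
      obtain ⟨y, hy, hyx⟩ := h1 x x.2 hx'
      exact ⟨⟨y, hy⟩, Subtype.ext hyx⟩
    · rintro ⟨y, rfl⟩
      exact Subtype.ext (hd y)
  have hb : LinearMap.ker b = LinearMap.range a := by
    ext x
    constructor
    · intro hx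
      have hx' : d x = 0 := congrArg Subtype.val hx
      obtain ⟨y, hy, hyx⟩ := h2 x x.2 hx'
      exact ⟨⟨y, hy⟩, Subtype.ext hyx⟩
    · rintro ⟨y, rfl⟩
      exact Subtype.ext (hd y)
  have n1 := LinearMap.finrank_range_add_finrank_ker a
  have n2 := LinearMap.finrank_range_add_finrank_ker b
  rw [ha] at n1
  rw [hb] at n2
  omega

variable {L I : Type*} [LieRing L] [LieAlgebra k L] [LieRingModule (sl3 k) L]
  [LieModule k (sl3 k) L] [DerAction (sl3 k) L] [LinearOrder I] (G : GD k L I)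

variable (k L) in
/-- The parity involution. -/
def invo : ExteriorAlgebra k L →ₗ[k] ExteriorAlgebra k L :=
  (CliffordAlgebra.involute (Q := (0 : QuadraticForm k L))).toLinearMap

theorem invo_lie (x : sl3 k) (w : ExteriorAlgebra k L) : invo k L ⁅x, w⁆ = ⁅x, invo k L w⁆ :=
  inv_der _ w

omit [DerAction (sl3 k) L] in
theorem invo_bd (w : ExteriorAlgebra k L) : invo k L (bd k L w) = -bd k L (invo k L w) :=
  inv_bd w

namespace GD

/-- The chains of internal degree `n` and parity `ε`. -/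
def F (n ε : ℤ) : LieSubmodule k (sl3 k) (ExteriorAlgebra k L) where
  carrier := {w | der G.δ w = n • w ∧ invo k L w = ε • w}
  add_mem' {x y} hx hy := ⟨by rw [map_add, hx.1, hy.1, smul_add], by
    rw [map_add, hx.2, hy.2, smul_add]⟩
  zero_mem' := ⟨by rw [map_zero, smul_zero], by rw [map_zero, smul_zero]⟩
  smul_mem' c x hx := ⟨by rw [map_smul, hx.1, smul_comm], by rw [map_smul, hx.2, smul_comm]⟩
  lie_mem {x w} hw := ⟨by
      show der G.δ ⁅x, w⁆ = n • ⁅x, w⁆
      rw [← lie_derδ, hw.1, lie_zsmul], by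
      show invo k L ⁅x, w⁆ = ε • ⁅x, w⁆
      rw [invo_lie, hw.2, lie_zsmul]⟩

theorem mem_F {n ε : ℤ} {w : ExteriorAlgebra k L} :
    w ∈ G.F n ε ↔ der G.δ w = n • w ∧ invo k L w = ε • w := Iff.rfl

theorem F_le_FT (n ε : ℤ) : (G.F n ε : Submodule k (ExteriorAlgebra k L)) ≤ G.FT n :=
  fun _ hw => hw.1

instance finF (n ε : ℤ) : FiniteDimensional k (G.F n ε) := by
  haveI : FiniteDimensional k (G.FT n : Submodule k (ExteriorAlgebra k L)) := G.finFT n
  exact Submodule.finiteDimensional_of_le (G.F_le_FT n ε)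

theorem bd_F {n ε : ℤ} {w : ExteriorAlgebra k L} (hw : w ∈ G.F n ε) : bd k L w ∈ G.F n (-ε) := by
  refine ⟨G.bd_FT hw.1, ?_⟩
  rw [invo_bd, hw.2, map_zsmul, neg_smul]

/-- The operator family. -/
def T4 : Fin 4 → (ExteriorAlgebra k L →ₗ[k] ExteriorAlgebra k L) :=
  ![der G.δ, der (ac k L (SS k).h₁), der (ac k L (SS k).h₂), invo k L]

/-- The eigenvalues. -/
def c4 (S : Finset I) : Fin 4 → ℤ := ![G.D S, G.P S, G.Q S, sg S]

theorem hT4 (a : Fin 4) (S : Finset I) : G.T4 a (G.e S) = G.c4 S a • G.e S := by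
  fin_cases a
  · exact G.e_D S
  · exact G.e_P S
  · exact G.e_Q S
  · exact G.e_sg S

theorem mem_Eig4 {n p q ε : ℤ} {w : ExteriorAlgebra k L} : w ∈ Eig G.T4 ![n, p, q, ε] ↔
    w ∈ G.F n ε ∧ w ∈ (SS k).W k (ExteriorAlgebra k L) p q := by
  constructor
  · intro h
    exact ⟨⟨h 0, h 3⟩, ⟨h 1, h 2⟩⟩
  · rintro ⟨⟨h0, h3⟩, ⟨h1, h2⟩⟩ a
    fin_cases a
    · exact h0
    · exact h1
    · exact h2
    · exact h3

/-- The number of the sets of basis elements of given degree, weight and parity. -/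
def cnt (n p q ε : ℤ) : ℕ :=
  open Classical in
  ((G.finite_D n).toFinset.filter fun S => G.P S = p ∧ G.Q S = q ∧ sg S = ε).card

theorem finrank_W (n p q ε : ℤ) :
    finrank k ((SS k).W k (G.F n ε) p q) = G.cnt n p q ε := by
  classical
  have h1 : ((SS k).W k (G.F n ε) p q).map (G.F n ε : Submodule k (ExteriorAlgebra k L)).subtype =
      Eig G.T4 ![n, p, q, ε] := by
    ext w
    rw [mem_Eig4]
    constructor
    · rintro ⟨x, hx, rfl⟩
      exact ⟨x.2, congrArg Subtype.val hx.1, congrArg Subtype.val hx.2⟩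
    · rintro ⟨h2, h3, h4⟩
      exact ⟨⟨w, h2⟩, ⟨Subtype.ext h3, Subtype.ext h4⟩, rfl⟩
  have h2 : finrank k ((SS k).W k (G.F n ε) p q) = finrank k (Eig G.T4 ![n, p, q, ε]) := by
    rw [← h1]
    exact LinearEquiv.finrank_eq (((SS k).W k (G.F n ε) p q).equivMapOfInjective _
      (Submodule.injective_subtype _))
  rw [h2, finrank_Eig G.e G.T4 G.c4 G.hT4 _ ((G.finite_D n).toFinset.filter
    fun S => G.P S = p ∧ G.Q S = q ∧ sg S = ε), cnt]
  intro S
  rw [Finset.mem_filter, Set.Finite.mem_toFinset, Set.mem_ofPred_eq]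
  constructor
  · rintro ⟨h1, h2, h3, h4⟩
    funext a
    fin_cases a
    · exact h1
    · exact h2
    · exact h3
    · exact h4
  · intro h
    exact ⟨congrFun h 0, congrFun h 1, congrFun h 2, congrFun h 3⟩

/-- The highest weight chains. -/
def KE (n ε p q : ℤ) : Submodule k (ExteriorAlgebra k L) :=
  (SS k).K k (ExteriorAlgebra k L) p q ⊓ (G.F n ε : Submodule k (ExteriorAlgebra k L))

theorem finrank_KE (n ε p q : ℤ) :
    finrank k (G.KE n ε p q) = finrank k ((SS k).K k (G.F n ε) p q) := by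
  have h1 : ((SS k).K k (G.F n ε) p q).map (G.F n ε : Submodule k (ExteriorAlgebra k L)).subtype =
      G.KE n ε p q := by
    ext w
    constructor
    · rintro ⟨x, hx, rfl⟩
      exact ⟨K_map (G.F n ε).incl hx, x.2⟩
    · rintro ⟨h2, h3⟩
      exact ⟨⟨w, h3⟩, K_of_injective (G.F n ε).incl (G.F n ε).injective_incl h2, rfl⟩
  rw [← h1]
  exact (LinearEquiv.finrank_eq (((SS k).K k (G.F n ε) p q).equivMapOfInjective _
      (Submodule.injective_subtype _))).symm

/-- The signed number of the sets of basis elements of given degree and weight. -/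
def N (n p q : ℤ) : ℤ :=
  open Classical in
  ∑ S ∈ (G.finite_D n).toFinset.filter fun S => G.P S = p ∧ G.Q S = q, sg S

theorem sg_eq (S : Finset I) : sg S = 1 ∨ sg S = -1 := by
  rw [sg]; exact neg_one_pow_eq_or ℤ _

theorem N_eq (n p q : ℤ) : G.N n p q = G.cnt n p q 1 - G.cnt n p q (-1) := by
  classical
  rw [N, cnt, cnt, ← Finset.sum_filter_add_sum_filter_not _ (fun S => sg S = 1)]
  have h1 : ∀ S ∈ ((G.finite_D n).toFinset.filter fun S => G.P S = p ∧ G.Q S = q).filter
      fun S => sg S = 1, sg S = 1 := fun S hS => (Finset.mem_filter.1 hS).2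
  have h2 : ∀ S ∈ ((G.finite_D n).toFinset.filter fun S => G.P S = p ∧ G.Q S = q).filter
      fun S => ¬ sg S = 1, sg S = -1 := fun S hS =>
        (sg_eq S).resolve_left (Finset.mem_filter.1 hS).2
  rw [Finset.sum_congr rfl h1, Finset.sum_congr rfl h2, Finset.sum_const, Finset.sum_const,
    Finset.filter_filter, Finset.filter_filter]
  have h3 : ((G.finite_D n).toFinset.filter fun S => (G.P S = p ∧ G.Q S = q) ∧ ¬ sg S = 1) =
      ((G.finite_D n).toFinset.filter fun S => G.P S = p ∧ G.Q S = q ∧ sg S = -1) := by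
    apply Finset.filter_congr
    intro S _
    rcases sg_eq S with h | h <;> simp [h, and_assoc]
  have h4 : ((G.finite_D n).toFinset.filter fun S => (G.P S = p ∧ G.Q S = q) ∧ sg S = 1) =
      ((G.finite_D n).toFinset.filter fun S => G.P S = p ∧ G.Q S = q ∧ sg S = 1) := by
    apply Finset.filter_congr
    intro S _
    rw [and_assoc]
  rw [h3, h4]
  simp
  ring

theorem decomp (x : ExteriorAlgebra k L) (R : Submodule k (ExteriorAlgebra k L))
    (h : ∀ j : ℕ, G.prj j x ∈ R) : x ∈ R := by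
  classical
  have h1 : x = ∑ j ∈ (G.e.repr x).support.image Finset.card, G.prj j x := by
    apply G.e.repr.injective
    ext S
    rw [map_sum, Finsupp.finsetSum_apply]
    have h2 : ∀ j : ℕ, G.e.repr (G.prj j x) S = if j = S.card then G.e.repr x S else 0 := by
      intro j
      rw [prj, repr_pr]
      have h3 : (cj S = fun _ => (j : ℤ)) ↔ j = S.card := by
        constructor
        · intro h
          have := congrFun h 0
          simp only [cj, Nat.cast_inj] at this
          exact this.symm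
        · rintro rfl; rfl
      simp only [h3]
    rw [Finset.sum_congr rfl (fun j _ => h2 j), Finset.sum_ite_eq']
    split_ifs with h4
    · rfl
    · by_contra h5
      exact h4 (Finset.mem_image.2 ⟨S, Finsupp.mem_support_iff.2 h5, rfl⟩)
  rw [h1]
  exact Submodule.sum_mem _ fun j _ => h j

/-- Under the hypothesis that there are no components, highest weight cycles are boundaries. -/
theorem mem_range_bd {n : ℤ} (hn : 2 ≤ n) (hL : ∀ l : L, G.δ l = n • l →
      ExteriorAlgebra.ι k l ∈ LinearMap.range (bd k L)) {p q : ℤ}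
    (hno : ∀ j : ℕ, 2 ≤ j → ∀ v ∈ Zc k (sl3 k) L j, v ∈ G.FT n →
      v ∈ (SS k).K k (ExteriorAlgebra k L) p q → ∃ y, bd k L y = v)
    {x : ExteriorAlgebra k L} (hx : x ∈ (SS k).K k (ExteriorAlgebra k L) p q) (hxn : x ∈ G.FT n)
    (hb : bd k L x = 0) : x ∈ LinearMap.range (bd k L) := by
  refine G.decomp x _ fun j => ?_
  have h1 : G.prj j x ∈ ⋀[k]^j L := G.prj_mem j x
  have h2 : bd k L (G.prj j x) = 0 := by rw [← prj_bd, hb, map_zero]
  have h3 : G.prj j x ∈ G.FT n := by
    rw [mem_FT, ← prj_der, G.mem_FT.1 hxn, map_zsmul]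
  obtain ⟨⟨k1, k2⟩, k3, k4⟩ := (SS k).mem_K.1 hx
  have hl : ∀ y : sl3 k, ⁅y, G.prj j x⁆ = G.prj j ⁅y, x⁆ := fun y => (G.prj_der _ _ _).symm
  have h4 : G.prj j x ∈ (SS k).K k (ExteriorAlgebra k L) p q := by
    refine (SS k).mem_K.2 ⟨⟨?_, ?_⟩, ?_, ?_⟩
    · rw [hl, k1, map_zsmul]
    · rw [hl, k2, map_zsmul]
    · rw [hl, k3, map_zero]
    · rw [hl, k4, map_zero]
  rcases Nat.lt_or_ge j 2 with hj | hj
  · interval_cases j
    · -- exterior degree zero
      have h5 : G.prj 0 x ∈ (LinearMap.range (ExteriorAlgebra.ι k : L →ₗ[k] _)) ^ 0 := h1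
      rw [pow_zero, Submodule.mem_one] at h5
      obtain ⟨c, hc⟩ := h5
      have h6 : der G.δ (G.prj 0 x) = 0 := by
        rw [← hc, Algebra.algebraMap_eq_smul_one, map_smul, der_one, smul_zero]
      have h7 : der G.δ (G.prj 0 x) = n • G.prj 0 x := h3
      rw [h6, ← Int.cast_smul_eq_zsmul k] at h7
      have h8 := (smul_eq_zero.1 h7.symm).resolve_left (by
        intro h; have := Int.cast_eq_zero.1 h; omega)
      show G.prj 0 x ∈ _
      rw [h8]; exact zero_mem _
    · -- exterior degree one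
      have h5 : G.prj 1 x ∈ (LinearMap.range (ExteriorAlgebra.ι k : L →ₗ[k] _)) ^ 1 := h1
      rw [pow_one] at h5
      obtain ⟨l, hl⟩ := h5
      show G.prj 1 x ∈ _
      rw [← hl]
      apply hL
      have h7 : der G.δ (G.prj 1 x) = n • G.prj 1 x := h3
      rw [← hl, der_ι, ← map_zsmul] at h7
      exact (ExteriorAlgebra.ι_inj k _ _).1 h7
  · exact hno j hj _ ⟨h1, h2⟩ h3 h4

theorem box_coe (n ε c : ℤ) (m : G.F n ε) : ((SS k).box k (G.F n ε) c m : ExteriorAlgebra k L) =
    (SS k).box k (ExteriorAlgebra k L) c m := rfl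

theorem box_pow_coe (n ε c : ℤ) (N : ℕ) (m : G.F n ε) :
    ((((SS k).box k (G.F n ε) c) ^ N) m : ExteriorAlgebra k L) =
      (((SS k).box k (ExteriorAlgebra k L) c) ^ N) m := by
  induction N generalizing m with
  | zero => rfl
  | succ N ih => rw [pow_succ, pow_succ, End.mul_apply, End.mul_apply, ih, box_coe]

theorem bd_box (c : ℤ) (N : ℕ) (w : ExteriorAlgebra k L) :
    bd k L ((((SS k).box k (ExteriorAlgebra k L) c) ^ N) w) =
      (((SS k).box k (ExteriorAlgebra k L) c) ^ N) (bd k L w) := by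
  have h1 : ∀ w : ExteriorAlgebra k L, bd k L ((SS k).box k (ExteriorAlgebra k L) c w) =
      (SS k).box k (ExteriorAlgebra k L) c (bd k L w) := by
    intro w
    rw [Chev.box_apply, Chev.box_apply, Chev.cas, Chev.cas]
    simp only [map_sub, map_add, map_nsmul, map_zsmul, bd_lie]
  induction N generalizing w with
  | zero => rfl
  | succ N ih => rw [pow_succ, End.mul_apply, End.mul_apply, ih, h1]

/-- A highest weight boundary bounds a highest weight chain. -/
theorem exists_bd_K {n ε p q : ℤ} (hg : Chev.Good p q) {x : ExteriorAlgebra k L}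
    (hx : x ∈ G.KE n ε p q) (hb : x ∈ LinearMap.range (bd k L)) :
    ∃ y ∈ G.KE n (-ε) p q, bd k L y = x := by
  obtain ⟨y, hy⟩ := hb
  obtain ⟨hx1, hx2⟩ := hx
  -- projection to the joint eigenspace
  set y1 := pr G.e G.c4 ![n, p, q, -ε] y with hy1
  have hy1m := G.mem_Eig4.1 (pr_mem G.e G.T4 G.c4 G.hT4 ![n, p, q, -ε] y)
  have hy1b : bd k L y1 = x := by
    have h1 := pr_comm G.e G.T4 G.c4 G.hT4 (bd k L) (fun γ => ![γ 0, γ 1, γ 2, -γ 3])
      (fun γ γ' h => by
        funext a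
        have h0 := congrFun h 0
        have h1 := congrFun h 1
        have h2 := congrFun h 2
        have h3 := congrFun h 3
        simp at h0 h1 h2 h3
        fin_cases a
        · exact h0
        · exact h1
        · exact h2
        · exact h3)
      (by
        intro γ w hw
        rw [G.mem_Eig4]
        have e0 : der G.δ w = γ 0 • w := hw 0
        have e1 : ⁅(SS k).h₁, w⁆ = γ 1 • w := hw 1
        have e2 : ⁅(SS k).h₂, w⁆ = γ 2 • w := hw 2
        have e3 : invo k L w = γ 3 • w := hw 3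
        refine ⟨G.bd_F ⟨e0, e3⟩, ⟨?_, ?_⟩⟩
        · rw [← bd_lie, e1, map_zsmul]
        · rw [← bd_lie, e2, map_zsmul]) ![n, p, q, -ε] y
    rw [hy] at h1
    rw [← h1]
    refine pr_of_mem G.e G.T4 G.c4 G.hT4 (G.mem_Eig4.2 ⟨?_, hx1.1⟩)
    show x ∈ G.F n (- -ε)
    rw [neg_neg]; exact hx2
  obtain ⟨N, hN0, hN1, hN2⟩ := ((Filter.eventually_ge_atTop 1).and
    ((fit (k := k) (SS k) hg (M := G.F n (-ε)) (y := ⟨y1, hy1m.1⟩)
      ⟨Subtype.ext hy1m.2.1, Subtype.ext hy1m.2.2⟩).and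
    (Module.End.eventually_disjoint_ker_pow_range_pow
      ((SS k).box k (G.F n ε) (Qf p q))))).exists
  obtain ⟨u, hu, z, huz⟩ := hN1
  have hu' : (u : ExteriorAlgebra k L) ∈ (SS k).K k (ExteriorAlgebra k L) p q :=
    K_map (G.F n (-ε)).incl hu
  refine ⟨u, ⟨hu', u.2⟩, ?_⟩
  have e1 : y1 = u + (((SS k).box k (ExteriorAlgebra k L) (Qf p q)) ^ N) z := by
    rw [← box_pow_coe]; exact congrArg Subtype.val huz
  have hbu : bd k L (u : ExteriorAlgebra k L) ∈ G.F n ε := by
    have := G.bd_F u.2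
    rwa [neg_neg] at this
  have hbz : bd k L (z : ExteriorAlgebra k L) ∈ G.F n ε := by
    have := G.bd_F z.2
    rwa [neg_neg] at this
  have e2 : x - bd k L u = (((SS k).box k (ExteriorAlgebra k L) (Qf p q)) ^ N) (bd k L z) := by
    rw [← hy1b, e1, map_add, bd_box]; abel
  have e3 : (⟨x, hx2⟩ - ⟨bd k L u, hbu⟩ : G.F n ε) = 0 := by
    refine Submodule.disjoint_def.1 hN2 _ ?_ ⟨⟨bd k L z, hbz⟩, ?_⟩
    · obtain ⟨N', rfl⟩ : ∃ N', N = N' + 1 := ⟨N - 1, by omega⟩
      show (((SS k).box k (G.F n ε) (Qf p q)) ^ (N' + 1)) _ = 0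
      have h1 : (SS k).box k (G.F n ε) (Qf p q) ⟨x, hx2⟩ = 0 :=
        box_of_mem_K (SS k) (K_of_injective (G.F n ε).incl (G.F n ε).injective_incl hx1)
      have h2 : bd k L (u : ExteriorAlgebra k L) ∈ (SS k).K k (ExteriorAlgebra k L) p q := by
        obtain ⟨⟨a1, a2⟩, a3, a4⟩ := (SS k).mem_K.1 hu'
        refine (SS k).mem_K.2 ⟨⟨?_, ?_⟩, ?_, ?_⟩
        · rw [← bd_lie, a1, map_zsmul]
        · rw [← bd_lie, a2, map_zsmul]
        · rw [← bd_lie, a3, map_zero]
        · rw [← bd_lie, a4, map_zero]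
      have h3 : (SS k).box k (G.F n ε) (Qf p q) ⟨bd k L u, hbu⟩ = 0 :=
        box_of_mem_K (SS k) (K_of_injective (G.F n ε).incl (G.F n ε).injective_incl h2)
      rw [pow_succ, End.mul_apply, map_sub, h1, h3, sub_zero, map_zero]
    · apply Subtype.ext
      rw [box_pow_coe]
      exact e2.symm
  have e4 : x - bd k L u = 0 := congrArg Subtype.val e3
  exact (sub_eq_zero.1 e4).symm

/-- Under the hypothesis that there are no components, the multiplicity of `L(p, q)` in the Euler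
characteristic vanishes in degree `n ≥ 2`. -/
theorem euler {n : ℤ} (hn : 2 ≤ n) (hL : ∀ l : L, G.δ l = n • l →
      ExteriorAlgebra.ι k l ∈ LinearMap.range (bd k L)) {p q : ℤ} (hg : Chev.Good p q)
    (hno : ∀ j : ℕ, 2 ≤ j → ∀ v ∈ Zc k (sl3 k) L j, v ∈ G.FT n →
      v ∈ (SS k).K k (ExteriorAlgebra k L) p q → ∃ y, bd k L y = v) :
    G.N n p q - G.N n (p + 2) (q - 1) - G.N n (p - 1) (q + 2) + G.N n (p + 3) q +
      G.N n p (q + 3) - G.N n (p + 2) (q + 2) = 0 := by
  haveI hf : ∀ ε, FiniteDimensional k (G.KE n ε p q) := by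
    intro ε
    haveI : FiniteDimensional k (G.F n ε : Submodule k (ExteriorAlgebra k L)) := G.finF n ε
    exact Submodule.finiteDimensional_of_le inf_le_right
  have hbd : ∀ ε, ∀ x ∈ G.KE n ε p q, bd k L x ∈ G.KE n (-ε) p q := by
    rintro ε x ⟨hx1, hx2⟩
    obtain ⟨⟨a1, a2⟩, a3, a4⟩ := (SS k).mem_K.1 hx1
    refine ⟨(SS k).mem_K.2 ⟨⟨?_, ?_⟩, ?_, ?_⟩, G.bd_F hx2⟩
    · rw [← bd_lie, a1, map_zsmul]
    · rw [← bd_lie, a2, map_zsmul]
    · rw [← bd_lie, a3, map_zero]
    · rw [← bd_lie, a4, map_zero]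
  have hex : ∀ ε, ∀ x ∈ G.KE n ε p q, bd k L x = 0 → ∃ y ∈ G.KE n (-ε) p q, bd k L y = x :=
    fun ε x hx h0 => G.exists_bd_K hg hx (G.mem_range_bd hn hL hno hx.1 hx.2.1 h0)
  have h1 : finrank k (G.KE n 1 p q) = finrank k (G.KE n (-1) p q) := by
    refine finrank_eq_of_exact (bd k L) _ _ (hbd 1) ?_ bd_bd (hex 1) ?_
    · intro y hy
      have := hbd (-1) y hy
      rwa [neg_neg] at this
    · intro y hy h0
      have := hex (-1) y hy h0
      rwa [neg_neg] at this
  rw [finrank_KE, finrank_KE] at h1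
  have r1 := (SS k).factR (k := k) (M := G.F n 1) hg
  have r2 := (SS k).factR (k := k) (M := G.F n (-1)) hg
  simp only [finrank_W] at r1 r2
  rw [h1] at r1
  simp only [N_eq]
  linarith

end GD

end Pool.Agent.R412.ABG

end
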