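import Pool.Agent.R412.ABG.CE

/-!
# Eigenvectors in the exterior algebra and joint eigenspaces
-/

set_option autoImplicit false
set_option linter.unusedSimpArgs false
set_option linter.unusedSectionVars false

noncomputable section

open ExteriorAlgebra Module

namespace Pool.Agent.R412.ABG

section der

variable {k V : Type*} [Field k] [AddCommGroup V] [Module k V]

theorem der_list (T : V →ₗ[k] V) {J : Type*} (v : J → V) (c : J → k)
    (h : ∀ j, T (v j) = c j • v j) (l : List J) :
    der T ((l.map fun j => ι k (v j)).prod) =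
      (l.map c).sum • (l.map fun j => ι k (v j)).prod := by
  induction l with
  | nil => simp [der_one]
  | cons a l ih =>
    rw [List.map_cons, List.prod_cons, der_ι_mul, ih, h, List.map_cons, List.sum_cons, map_smul,
      smul_mul_assoc, mul_smul_comm, add_smul]

theorem inv_list {J : Type*} (v : J → V) (l : List J) :
    CliffordAlgebra.involute (Q := (0 : QuadraticForm k V)) ((l.map fun j => ι k (v j)).prod) =
      (-1 : k) ^ l.length • (l.map fun j => ι k (v j)).prod := by
  induction l with
  | nil => simp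
  | cons a l ih =>
    rw [List.map_cons, List.prod_cons, inv_ι_mul', ih, List.length_cons, pow_succ, mul_smul_comm,
      mul_neg_one, neg_smul]

variable {I : Type*} [LinearOrder I] (b : Basis I k V)

theorem EB_eq (S : Finset I) : b.ExteriorAlgebra S =
    ((List.ofFn fun j : Fin S.card => S.orderEmbOfFin rfl j).map fun i => ι k (b i)).prod := by
  rw [ExteriorAlgebra.basis_apply_ofCard b (rfl : S.card = S.card), List.map_ofFn]
  rfl

theorem sum_ofFn (S : Finset I) {M : Type*} [AddCommMonoid M] (c : I → M) :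
    ((List.ofFn fun j : Fin S.card => S.orderEmbOfFin rfl j).map c).sum = ∑ i ∈ S, c i := by
  rw [List.map_ofFn, List.sum_ofFn]
  conv_rhs => rw [← Finset.map_orderEmbOfFin_univ S rfl, Finset.sum_map]
  rfl

theorem der_EB (T : V →ₗ[k] V) (c : I → k) (h : ∀ i, T (b i) = c i • b i) (S : Finset I) :
    der T (b.ExteriorAlgebra S) = (∑ i ∈ S, c i) • b.ExteriorAlgebra S := by
  rw [EB_eq, der_list T b c h, sum_ofFn]

theorem inv_EB (S : Finset I) :
    CliffordAlgebra.involute (Q := (0 : QuadraticForm k V)) (b.ExteriorAlgebra S) =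
      (-1 : k) ^ S.card • b.ExteriorAlgebra S := by
  rw [EB_eq, inv_list, List.length_ofFn]

theorem EB_mem (S : Finset I) : b.ExteriorAlgebra S ∈ ⋀[k]^(S.card) V := by
  rw [ExteriorAlgebra.basis_apply]
  exact ExteriorAlgebra.ιMulti_range k _ ⟨_, rfl⟩

end der

section joint

variable {k E J : Type*} [Field k] [CharZero k] [AddCommGroup E] [Module k E] (e : Basis J k E)
  {m : ℕ} (T : Fin m → (E →ₗ[k] E)) (c : J → Fin m → ℤ)
  (hT : ∀ a S, T a (e S) = c S a • e S)

/-- The joint eigenspace. -/
def Eig (γ : Fin m → ℤ) : Submodule k E where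
  carrier := {x | ∀ a, T a x = γ a • x}
  add_mem' {x y} hx hy a := by rw [map_add, hx, hy, smul_add]
  zero_mem' a := by simp
  smul_mem' r x hx a := by rw [map_smul, hx, smul_comm]

omit [CharZero k] in
theorem mem_Eig {γ : Fin m → ℤ} {x : E} : x ∈ Eig T γ ↔ ∀ a, T a x = γ a • x := Iff.rfl

include hT in
theorem repr_T (a : Fin m) (x : E) (S : J) : e.repr (T a x) S = (c S a : k) * e.repr x S := by
  have h : (Finsupp.lapply S ∘ₗ e.repr.toLinearMap) ∘ₗ T a =
      (c S a : k) • (Finsupp.lapply S ∘ₗ e.repr.toLinearMap) := by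
    refine e.ext fun S' => ?_
    simp only [LinearMap.comp_apply, hT, map_zsmul, LinearEquiv.coe_coe, Basis.repr_self,
      Finsupp.lapply_apply, LinearMap.smul_apply]
    by_cases hS : S' = S
    · subst hS; simp
    · rw [Finsupp.single_eq_of_ne (Ne.symm hS)]; simp
  exact LinearMap.congr_fun h x

include hT in
theorem mem_Eig_iff {γ : Fin m → ℤ} {x : E} :
    x ∈ Eig T γ ↔ ∀ S, e.repr x S ≠ 0 → c S = γ := by
  constructor
  · intro hx S hS
    funext a
    have h1 := repr_T e T c hT a x S
    rw [hx a, map_zsmul, Finsupp.smul_apply, ← Int.cast_smul_eq_zsmul k, smul_eq_mul] at h1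
    have h2 := mul_right_cancel₀ hS h1
    exact_mod_cast h2.symm
  · intro h a
    apply e.repr.injective
    ext S
    rw [repr_T e T c hT, map_zsmul, Finsupp.smul_apply, ← Int.cast_smul_eq_zsmul k, smul_eq_mul]
    by_cases hS : e.repr x S = 0
    · rw [hS, mul_zero, mul_zero]
    · rw [h S hS]

include hT in
theorem Eig_eq_span (γ : Fin m → ℤ) : Eig T γ = Submodule.span k (e '' {S | c S = γ}) := by
  ext x
  rw [mem_Eig_iff e T c hT, e.mem_span_image]
  constructor
  · intro h S hS
    exact h S (Finsupp.mem_support_iff.1 hS)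
  · intro h S hS
    exact h (Finsupp.mem_support_iff.2 hS)

include hT in
theorem finrank_Eig (γ : Fin m → ℤ) (F : Finset J) (hF : ∀ S, S ∈ F ↔ c S = γ) :
    finrank k (Eig T γ) = F.card := by
  have h1 : e '' {S | c S = γ} = Set.range fun S : F => e S.1 := by
    ext x
    constructor
    · rintro ⟨S, hS, rfl⟩; exact ⟨⟨S, (hF S).2 hS⟩, rfl⟩
    · rintro ⟨S, rfl⟩; exact ⟨S, (hF S).1 S.2, rfl⟩
  rw [Eig_eq_span e T c hT, h1, finrank_span_eq_card, Fintype.card_coe]
  exact e.linearIndependent.comp _ Subtype.val_injective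

include hT in
theorem Eig_finite (γ : Fin m → ℤ) (hF : {S | c S = γ}.Finite) :
    FiniteDimensional k (Eig T γ) := by
  rw [Eig_eq_span e T c hT]
  exact FiniteDimensional.span_of_finite k (hF.image _)

/-- The projection onto the joint eigenspace. -/
def pr (γ : Fin m → ℤ) : E →ₗ[k] E :=
  open Classical in e.constr k fun S => if c S = γ then e S else 0

omit [CharZero k] in
theorem pr_e (γ : Fin m → ℤ) (S : J) :
    pr e c γ (e S) = open Classical in if c S = γ then e S else 0 := by
  classical
  rw [pr, Basis.constr_basis]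

omit [CharZero k] in
theorem repr_pr (γ : Fin m → ℤ) (x : E) (S : J) :
    e.repr (pr e c γ x) S = open Classical in if c S = γ then e.repr x S else 0 := by
  classical
  have h : (Finsupp.lapply S ∘ₗ e.repr.toLinearMap) ∘ₗ pr e c γ =
      (if c S = γ then (1 : k) else 0) • (Finsupp.lapply S ∘ₗ e.repr.toLinearMap) := by
    refine e.ext fun S' => ?_
    simp only [LinearMap.comp_apply, pr_e, LinearEquiv.coe_coe, Basis.repr_self,
      Finsupp.lapply_apply, LinearMap.smul_apply]
    by_cases hS : S' = S
    · subst hS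
      split_ifs <;> simp
    · rw [Finsupp.single_eq_of_ne (Ne.symm hS)]
      split_ifs <;> simp [Finsupp.single_eq_of_ne (Ne.symm hS)]
  have h2 := LinearMap.congr_fun h x
  simp only [LinearMap.comp_apply, LinearEquiv.coe_coe, Finsupp.lapply_apply,
    LinearMap.smul_apply, smul_eq_mul] at h2
  rw [h2]
  split_ifs <;> simp

include hT in
theorem pr_mem (γ : Fin m → ℤ) (x : E) : pr e c γ x ∈ Eig T γ := by
  classical
  rw [mem_Eig_iff e T c hT]
  intro S hS
  rw [repr_pr] at hS
  by_contra h
  rw [if_neg h] at hS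
  exact hS rfl

include hT in
theorem pr_of_mem {γ : Fin m → ℤ} {x : E} (hx : x ∈ Eig T γ) : pr e c γ x = x := by
  classical
  apply e.repr.injective
  ext S
  rw [repr_pr]
  split_ifs with h
  · rfl
  · by_contra h2
    exact h ((mem_Eig_iff e T c hT).1 hx S (Ne.symm h2))

include hT in
theorem pr_of_mem_ne {γ γ' : Fin m → ℤ} (hne : γ' ≠ γ) {x : E} (hx : x ∈ Eig T γ') :
    pr e c γ x = 0 := by
  classical
  apply e.repr.injective
  ext S
  rw [repr_pr, map_zero, Finsupp.zero_apply]
  split_ifs with h
  · by_contra h2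
    exact hne (((mem_Eig_iff e T c hT).1 hx S h2).symm.trans h)
  · rfl

include hT in
/-- The projections commute with homogeneous maps. -/
theorem pr_comm (Φ : E →ₗ[k] E) (σ : (Fin m → ℤ) → (Fin m → ℤ)) (hσ : Function.Injective σ)
    (hΦ : ∀ γ x, x ∈ Eig T γ → Φ x ∈ Eig T (σ γ)) (γ : Fin m → ℤ) (x : E) :
    pr e c (σ γ) (Φ x) = Φ (pr e c γ x) := by
  classical
  have h : pr e c (σ γ) ∘ₗ Φ = Φ ∘ₗ pr e c γ := by
    refine e.ext fun S => ?_
    rw [LinearMap.comp_apply, LinearMap.comp_apply, pr_e]
    have hS : e S ∈ Eig T (c S) := fun a => hT a S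
    split_ifs with h
    · subst h
      exact pr_of_mem e T c hT (hΦ _ _ hS)
    · rw [map_zero]
      exact pr_of_mem_ne e T c hT (fun h' => h (hσ h')) (hΦ _ _ hS)
  exact LinearMap.congr_fun h x

end joint

end Pool.Agent.R412.ABG

end
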