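import Pool.Agent.R412.ABG.Chev

/-!
# The dimension of the space of highest weight vectors
-/

set_option autoImplicit false
set_option linter.unusedSimpArgs false
set_option linter.unusedSectionVars false

noncomputable section

open Module LieModule

namespace Pool.Agent.R412.ABG

/-- The value of the Casimir element. -/
def Qf (x y : ℤ) : ℤ := x ^ 2 + x * y + y ^ 2 + 3 * x + 3 * y

namespace Chev

variable {k g M : Type*} [Field k] [LieRing g] [LieAlgebra k g] [AddCommGroup M]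
  [Module k M] [LieRingModule g M] [LieModule k g M] (S : Chev g)

variable (k M) in
/-- Weight spaces. -/
def W (p q : ℤ) : Submodule k M where
  carrier := {m | ⁅S.h₁, m⁆ = p • m ∧ ⁅S.h₂, m⁆ = q • m}
  add_mem' {a b} ha hb := ⟨by rw [lie_add, ha.1, hb.1, smul_add], by
    rw [lie_add, ha.2, hb.2, smul_add]⟩
  zero_mem' := ⟨by simp, by simp⟩
  smul_mem' c m hm := ⟨by rw [lie_smul, hm.1, smul_comm], by rw [lie_smul, hm.2, smul_comm]⟩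

theorem mem_W {p q : ℤ} {m : M} : m ∈ S.W k M p q ↔ ⁅S.h₁, m⁆ = p • m ∧ ⁅S.h₂, m⁆ = q • m :=
  Iff.rfl

theorem lie_mem_W {x : g} {a b : ℤ} (h1 : ⁅S.h₁, x⁆ = a • x) (h2 : ⁅S.h₂, x⁆ = b • x)
    {p q p' q' : ℤ} (hp : p' = p + a) (hq : q' = q + b) {m : M} (hm : m ∈ S.W k M p q) :
    ⁅x, m⁆ ∈ S.W k M p' q' := by
  subst hp hq
  refine ⟨?_, ?_⟩
  · rw [leibniz_lie, h1, hm.1, lie_zsmul, zsmul_lie, add_comm, ← add_smul]
  · rw [leibniz_lie, h2, hm.2, lie_zsmul, zsmul_lie, add_comm, ← add_smul]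

section mem

variable {p q p' q' : ℤ} {m : M}

theorem e₁_mem (hm : m ∈ S.W k M p q) (hp : p' = p + 2) (hq : q' = q - 1) :
    ⁅S.e₁, m⁆ ∈ S.W k M p' q' :=
  S.lie_mem_W (by rw [S.h₁e₁]; abel) (by rw [S.h₂e₁]; abel) hp hq hm (a := 2) (b := -1)

theorem e₂_mem (hm : m ∈ S.W k M p q) (hp : p' = p - 1) (hq : q' = q + 2) :
    ⁅S.e₂, m⁆ ∈ S.W k M p' q' :=
  S.lie_mem_W (by rw [S.h₁e₂]; abel) (by rw [S.h₂e₂]; abel) hp hq hm (a := -1) (b := 2)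

theorem e₃_mem (hm : m ∈ S.W k M p q) (hp : p' = p + 1) (hq : q' = q + 1) :
    ⁅S.e₃, m⁆ ∈ S.W k M p' q' :=
  S.lie_mem_W (by rw [S.h₁e₃]; abel) (by rw [S.h₂e₃]; abel) hp hq hm (a := 1) (b := 1)

theorem f₁_mem (hm : m ∈ S.W k M p q) (hp : p' = p - 2) (hq : q' = q + 1) :
    ⁅S.f₁, m⁆ ∈ S.W k M p' q' :=
  S.lie_mem_W (by rw [S.h₁f₁]; abel) (by rw [S.h₂f₁]; abel) hp hq hm (a := -2) (b := 1)

theorem f₂_mem (hm : m ∈ S.W k M p q) (hp : p' = p + 1) (hq : q' = q - 2) :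
    ⁅S.f₂, m⁆ ∈ S.W k M p' q' :=
  S.lie_mem_W (by rw [S.h₁f₂]; abel) (by rw [S.h₂f₂]; abel) hp hq hm (a := 1) (b := -2)

theorem f₃_mem (hm : m ∈ S.W k M p q) (hp : p' = p - 1) (hq : q' = q - 1) :
    ⁅S.f₃, m⁆ ∈ S.W k M p' q' :=
  S.lie_mem_W (by rw [S.h₁f₃]; abel) (by rw [S.h₂f₃]; abel) hp hq hm (a := -1) (b := -1)

end mem

variable (k M) in
/-- The Casimir element as a linear map. -/
def casL : M →ₗ[k] M where
  toFun := S.cas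
  map_add' x y := by simp only [cas, lie_add, smul_add]; abel
  map_smul' c x := by
    simp only [cas, lie_smul, smul_add, RingHom.id_apply]
    simp only [smul_comm c (3 : ℕ)]

theorem casL_apply (m : M) : S.casL k M m = S.cas m := rfl

variable (k M) in
/-- The Casimir element minus a scalar. -/
def box (c : ℤ) : M →ₗ[k] M := S.casL k M - c • LinearMap.id

theorem box_apply (c : ℤ) (m : M) : S.box k M c m = S.cas m - c • m := rfl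

theorem box_e₁ (c : ℤ) (m : M) : S.box k M c ⁅S.e₁, m⁆ = ⁅S.e₁, S.box k M c m⁆ := by
  rw [box_apply, box_apply, cas_e₁, lie_sub, lie_zsmul]

theorem box_e₂ (c : ℤ) (m : M) : S.box k M c ⁅S.e₂, m⁆ = ⁅S.e₂, S.box k M c m⁆ := by
  rw [box_apply, box_apply, cas_e₂, lie_sub, lie_zsmul]

theorem box_f₁ (c : ℤ) (m : M) : S.box k M c ⁅S.f₁, m⁆ = ⁅S.f₁, S.box k M c m⁆ := by
  rw [box_apply, box_apply, cas_f₁, lie_sub, lie_zsmul]

theorem box_f₂ (c : ℤ) (m : M) : S.box k M c ⁅S.f₂, m⁆ = ⁅S.f₂, S.box k M c m⁆ := by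
  rw [box_apply, box_apply, cas_f₂, lie_sub, lie_zsmul]

theorem box_h₁ (c : ℤ) (m : M) : S.box k M c ⁅S.h₁, m⁆ = ⁅S.h₁, S.box k M c m⁆ := by
  rw [box_apply, box_apply, cas_h₁, lie_sub, lie_zsmul]

theorem box_h₂ (c : ℤ) (m : M) : S.box k M c ⁅S.h₂, m⁆ = ⁅S.h₂, S.box k M c m⁆ := by
  rw [box_apply, box_apply, cas_h₂, lie_sub, lie_zsmul]

theorem box_e₃ (c : ℤ) (m : M) : S.box k M c ⁅S.e₃, m⁆ = ⁅S.e₃, S.box k M c m⁆ := by
  rw [e₃, lie_lie, lie_lie, map_sub, box_e₁, box_e₂, box_e₂, box_e₁]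

theorem box_mem {c p q : ℤ} {m : M} (hm : m ∈ S.W k M p q) :
    S.box k M c m ∈ S.W k M p q := by
  refine ⟨?_, ?_⟩
  · rw [← box_h₁, hm.1, map_zsmul]
  · rw [← box_h₂, hm.2, map_zsmul]

theorem cas_of_mem {p q : ℤ} {m : M} (hm : m ∈ S.W k M p q) :
    S.cas m = Qf p q • m +
      3 • (⁅S.f₁, ⁅S.e₁, m⁆⁆ + ⁅S.f₂, ⁅S.e₂, m⁆⁆ + ⁅S.f₃, ⁅S.e₃, m⁆⁆) := by
  rw [cas]
  congr 1
  rw [hm.1, hm.2, lie_zsmul, lie_zsmul, lie_zsmul, hm.1, hm.2, Qf]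
  module

variable [CharZero k]

/-- A vector of maximal weight. -/
theorem exists_hw [FiniteDimensional k M] {p q : ℤ} {m : M} (hm : m ∈ S.W k M p q) (hm0 : m ≠ 0)
    {c : ℤ} (hc : S.box k M c m = 0) :
    ∃ a b x y : ℕ, p + 2 * a - b = x ∧ q - a + 2 * b = y ∧ c = Qf x y := by
  set V : ℕ → ℕ → Submodule k M := fun a b =>
    S.W k M (p + 2 * a - b) (q - a + 2 * b) ⊓ LinearMap.ker (S.box k M c) with hV
  set T : Set ℕ := {s | ∃ a b, a + b = s ∧ V a b ≠ ⊥} with hT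
  have hfin : T.Finite := by
    have h1 : T ⊆ (fun s : ℕ => ((p + q + s : ℤ) : k)) ⁻¹'
        {μ | (toEnd k g M (S.h₁ + S.h₂)).HasEigenvalue μ} := by
      rintro s ⟨a, b, rfl, h⟩
      obtain ⟨x, hx, hx0⟩ := Submodule.exists_mem_ne_zero_of_ne_bot h
      have hx1 := (Submodule.mem_inf.1 hx).1
      refine Module.End.hasEigenvalue_of_hasEigenvector (x := x)
        (Module.End.hasEigenvector_iff.2 ⟨Module.End.mem_eigenspace_iff.2 ?_, hx0⟩)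
      rw [toEnd_apply_apply, add_lie, hx1.1, hx1.2, ← add_smul, Int.cast_smul_eq_zsmul]
      congr 1
      push_cast; ring
    refine Set.Finite.subset (Set.Finite.preimage ?_ (Module.End.finite_hasEigenvalue _)) h1
    intro s _ t _ hst
    simp only [Int.cast_inj] at hst
    omega
  have hne : T.Nonempty := by
    refine ⟨0, 0, 0, rfl, ?_⟩
    intro h
    have : m ∈ V 0 0 := Submodule.mem_inf.2 ⟨by simpa using hm, hc⟩
    rw [h, Submodule.mem_bot] at this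
    exact hm0 this
  obtain ⟨s, hs, hmax⟩ := hfin.exists_maximal hne
  obtain ⟨a, b, hab, h⟩ := hs
  obtain ⟨x, hx, hx0⟩ := Submodule.exists_mem_ne_zero_of_ne_bot h
  obtain ⟨hx1, hx2⟩ := Submodule.mem_inf.1 hx
  have hbot : ∀ a' b', s < a' + b' → V a' b' = ⊥ := by
    intro a' b' hlt
    by_contra hne
    have := hmax ⟨a', b', rfl, hne⟩ hlt.le
    omega
  have he1 : ⁅S.e₁, x⁆ = 0 := by
    have : ⁅S.e₁, x⁆ ∈ V (a + 1) b := Submodule.mem_inf.2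
      ⟨S.e₁_mem hx1 (by push_cast; ring) (by push_cast; ring), by
        rw [LinearMap.mem_ker, box_e₁, LinearMap.mem_ker.1 hx2, lie_zero]⟩
    rwa [hbot _ _ (by omega), Submodule.mem_bot] at this
  have he2 : ⁅S.e₂, x⁆ = 0 := by
    have : ⁅S.e₂, x⁆ ∈ V a (b + 1) := Submodule.mem_inf.2
      ⟨S.e₂_mem hx1 (by push_cast; ring) (by push_cast; ring), by
        rw [LinearMap.mem_ker, box_e₂, LinearMap.mem_ker.1 hx2, lie_zero]⟩
    rwa [hbot _ _ (by omega), Submodule.mem_bot] at this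
  have t1 : IsSl2Triple S.h₁ S.e₁ S.f₁ := ⟨S.h₁_ne, S.e₁f₁, S.h₁e₁, S.h₁f₁⟩
  have t2 : IsSl2Triple S.h₂ S.e₂ S.f₂ := ⟨S.h₂_ne, S.e₂f₂, S.h₂e₂, S.h₂f₂⟩
  have P1 : t1.HasPrimitiveVectorWith x ((p + 2 * a - b : ℤ) : k) :=
    ⟨hx0, by rw [hx1.1, Int.cast_smul_eq_zsmul], he1⟩
  have P2 : t2.HasPrimitiveVectorWith x ((q - a + 2 * b : ℤ) : k) :=
    ⟨hx0, by rw [hx1.2, Int.cast_smul_eq_zsmul], he2⟩
  obtain ⟨n1, hn1⟩ := P1.exists_nat
  obtain ⟨n2, hn2⟩ := P2.exists_nat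
  have hn1' : p + 2 * a - b = n1 := by exact_mod_cast hn1
  have hn2' : q - a + 2 * b = n2 := by exact_mod_cast hn2
  refine ⟨a, b, n1, n2, hn1', hn2', ?_⟩
  have he3 : ⁅S.e₃, x⁆ = 0 := by rw [e₃, lie_lie, he1, he2, lie_zero, lie_zero, sub_zero]
  have h3 := S.cas_of_mem hx1
  rw [he1, he2, he3, lie_zero, lie_zero, lie_zero, add_zero, add_zero, smul_zero, add_zero] at h3
  have h4 : S.box k M c x = 0 := LinearMap.mem_ker.1 hx2
  rw [box_apply, h3, ← sub_smul, ← Int.cast_smul_eq_zsmul k, smul_eq_zero] at h4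
  have h5 := h4.resolve_right hx0
  rw [Int.cast_eq_zero, hn1', hn2'] at h5
  linarith

/-- `(p, q)` is the only dominant weight with its Casimir value. -/
def Good (p q : ℤ) : Prop := ∀ x y : ℕ, Qf x y = Qf p q → (x : ℤ) = p ∧ (y : ℤ) = q

theorem good_zero : Good 0 0 := by
  intro x y h
  simp only [Qf] at h
  have h0 : (0 : ℤ) ≤ x := by positivity
  have h1 : (0 : ℤ) ≤ y := by positivity
  constructor <;> nlinarith [mul_nonneg h0 h1, sq_nonneg (x : ℤ), sq_nonneg (y : ℤ)]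

theorem good_one : Good 1 1 := by
  intro x y h
  simp only [Qf] at h
  have h0 : (0 : ℤ) ≤ x := by positivity
  have h1 : (0 : ℤ) ≤ y := by positivity
  have h2 : (x : ℤ) ≤ 2 := by nlinarith [mul_nonneg h0 h1, sq_nonneg (y : ℤ)]
  have h3 : (y : ℤ) ≤ 2 := by nlinarith [mul_nonneg h0 h1, sq_nonneg (x : ℤ)]
  have h2' : x ≤ 2 := by exact_mod_cast h2
  have h3' : y ≤ 2 := by exact_mod_cast h3
  interval_cases x <;> interval_cases y <;> simp_all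

theorem box_inj [FiniteDimensional k M] {p q p' q' : ℤ} (hg : Good p q) {a b : ℕ}
    (hab : a ≠ 0 ∨ b ≠ 0) (hp : p' = p + 2 * a - b) (hq : q' = q - a + 2 * b) {m : M}
    (hm : m ∈ S.W k M p' q') (h : S.box k M (Qf p q) m = 0) : m = 0 := by
  by_contra hm0
  obtain ⟨a', b', x, y, h1, h2, h3⟩ := S.exists_hw hm hm0 h
  obtain ⟨h4, h5⟩ := hg x y h3.symm
  omega

theorem box_surj [FiniteDimensional k M] {p q p' q' : ℤ} (hg : Good p q) {a b : ℕ}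
    (hab : a ≠ 0 ∨ b ≠ 0) (hp : p' = p + 2 * a - b) (hq : q' = q - a + 2 * b) {m : M}
    (hm : m ∈ S.W k M p' q') : ∃ m' ∈ S.W k M p' q', S.box k M (Qf p q) m' = m := by
  let B : S.W k M p' q' →ₗ[k] S.W k M p' q' :=
    (S.box k M (Qf p q)).restrict fun m hm => S.box_mem hm
  have hB : Function.Injective B := by
    rw [← LinearMap.ker_eq_bot, LinearMap.ker_eq_bot']
    rintro ⟨x, hx⟩ h
    have h' : S.box k M (Qf p q) x = 0 := congrArg Subtype.val h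
    exact Subtype.ext (S.box_inj hg hab hp hq hx h')
  obtain ⟨x, hx⟩ := (LinearMap.injective_iff_surjective.1 hB) ⟨m, hm⟩
  exact ⟨x, x.2, congrArg Subtype.val hx⟩

/-! ### Exactness -/

section exact

variable [FiniteDimensional k M] {p q : ℤ} (hg : Good p q)

include hg in
theorem exact_one {a b c : M} (ha : a ∈ S.W k M (p + 2) (q - 1)) (hb : b ∈ S.W k M (p - 1) (q + 2))
    (hc : c ∈ S.W k M (p + 1) (q + 1)) (h12 : ⁅S.e₁, b⁆ - ⁅S.e₂, a⁆ - c = 0)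
    (h13 : ⁅S.e₁, c⁆ - ⁅S.e₃, a⁆ = 0) (h23 : ⁅S.e₂, c⁆ - ⁅S.e₃, b⁆ = 0) :
    ∃ m ∈ S.W k M p q, ⁅S.e₁, m⁆ = a ∧ ⁅S.e₂, m⁆ = b ∧ ⁅S.e₃, m⁆ = c := by
  obtain ⟨a', ha', rfl⟩ := S.box_surj (a := 1) (b := 0) hg (by simp) (by push_cast; ring)
    (by push_cast; ring) ha
  obtain ⟨b', hb', rfl⟩ := S.box_surj (a := 0) (b := 1) hg (by simp) (by push_cast; ring)
    (by push_cast; ring) hb
  obtain ⟨c', hc', rfl⟩ := S.box_surj (a := 1) (b := 1) hg (by simp) (by push_cast; ring)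
    (by push_cast; ring) hc
  have k12 : ⁅S.e₁, b'⁆ - ⁅S.e₂, a'⁆ - c' = 0 := by
    refine S.box_inj (k := k) (a := 1) (b := 1) hg (by simp) (by push_cast; ring) (by push_cast; ring)
      (p' := p + 1) (q' := q + 1) ?_ ?_
    · exact Submodule.sub_mem _ (Submodule.sub_mem _ (S.e₁_mem hb' (by ring) (by ring))
        (S.e₂_mem ha' (by ring) (by ring))) hc'
    · rw [map_sub, map_sub, box_e₁, box_e₂]; exact h12
  have k13 : ⁅S.e₁, c'⁆ - ⁅S.e₃, a'⁆ = 0 := by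
    refine S.box_inj (k := k) (a := 2) (b := 1) hg (by simp) (by push_cast; ring) (by push_cast; ring)
      (p' := p + 3) (q' := q) ?_ ?_
    · exact Submodule.sub_mem _ (S.e₁_mem hc' (by ring) (by ring))
        (S.e₃_mem ha' (by ring) (by ring))
    · rw [map_sub, box_e₁, box_e₃]; exact h13
  have k23 : ⁅S.e₂, c'⁆ - ⁅S.e₃, b'⁆ = 0 := by
    refine S.box_inj (k := k) (a := 1) (b := 2) hg (by simp) (by push_cast; ring) (by push_cast; ring)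
      (p' := p) (q' := q + 3) ?_ ?_
    · exact Submodule.sub_mem _ (S.e₂_mem hc' (by ring) (by ring))
        (S.e₃_mem hb' (by ring) (by ring))
    · rw [map_sub, box_e₂, box_e₃]; exact h23
  have e1 : ⁅S.e₁, 3 • (⁅S.f₁, a'⁆ + ⁅S.f₂, b'⁆ + ⁅S.f₃, c'⁆)⁆ = S.box k M (Qf p q) a' := by
    have h1 : ⁅S.e₁, b'⁆ = ⁅S.e₂, a'⁆ + c' := by
      rw [← sub_eq_zero, ← k12]; abel
    have h2 : ⁅S.e₁, c'⁆ = ⁅S.e₃, a'⁆ := sub_eq_zero.1 k13
    rw [box_apply, S.cas_of_mem ha', lie_nsmul, lie_add, lie_add, n_e₁f₁, n_e₁f₂, n_e₁f₃, h1, h2,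
      ha'.1, lie_add]
    simp only [Qf]
    module
  have e2 : ⁅S.e₂, 3 • (⁅S.f₁, a'⁆ + ⁅S.f₂, b'⁆ + ⁅S.f₃, c'⁆)⁆ = S.box k M (Qf p q) b' := by
    have h1 : ⁅S.e₂, a'⁆ = ⁅S.e₁, b'⁆ - c' := by
      rw [← sub_eq_zero, ← neg_eq_zero, ← k12]; abel
    have h2 : ⁅S.e₂, c'⁆ = ⁅S.e₃, b'⁆ := sub_eq_zero.1 k23
    rw [box_apply, S.cas_of_mem hb', lie_nsmul, lie_add, lie_add, n_e₂f₁, n_e₂f₂, n_e₂f₃, h1, h2,
      hb'.2, lie_sub]
    simp only [Qf]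
    module
  refine ⟨3 • (⁅S.f₁, a'⁆ + ⁅S.f₂, b'⁆ + ⁅S.f₃, c'⁆), ?_, e1, e2, ?_⟩
  · exact Submodule.smul_of_tower_mem _ _ (Submodule.add_mem _ (Submodule.add_mem _
      (S.f₁_mem ha' (by ring) (by ring)) (S.f₂_mem hb' (by ring) (by ring)))
      (S.f₃_mem hc' (by ring) (by ring)))
  · rw [e₃, lie_lie, e1, e2, ← box_e₁, ← box_e₂, ← map_sub]
    congr 1
    rw [← sub_eq_zero, ← k12]

include hg in
theorem exact_two {u v w : M} (hu : u ∈ S.W k M (p + 1) (q + 1)) (hv : v ∈ S.W k M (p + 3) q)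
    (hw : w ∈ S.W k M p (q + 3)) (h : ⁅S.e₁, w⁆ - ⁅S.e₂, v⁆ + ⁅S.e₃, u⁆ = 0) :
    ∃ a ∈ S.W k M (p + 2) (q - 1), ∃ b ∈ S.W k M (p - 1) (q + 2), ∃ c ∈ S.W k M (p + 1) (q + 1),
      ⁅S.e₁, b⁆ - ⁅S.e₂, a⁆ - c = u ∧ ⁅S.e₁, c⁆ - ⁅S.e₃, a⁆ = v ∧ ⁅S.e₂, c⁆ - ⁅S.e₃, b⁆ = w := by
  obtain ⟨u', hu', rfl⟩ := S.box_surj (a := 1) (b := 1) hg (by simp) (by push_cast; ring)
    (by push_cast; ring) hu
  obtain ⟨v', hv', rfl⟩ := S.box_surj (a := 2) (b := 1) hg (by simp) (by push_cast; ring)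
    (by push_cast; ring) hv
  obtain ⟨w', hw', rfl⟩ := S.box_surj (a := 1) (b := 2) hg (by simp) (by push_cast; ring)
    (by push_cast; ring) hw
  have k1 : ⁅S.e₁, w'⁆ - ⁅S.e₂, v'⁆ + ⁅S.e₃, u'⁆ = 0 := by
    refine S.box_inj (k := k) (a := 2) (b := 2) hg (by simp) (by push_cast; ring) (by push_cast; ring)
      (p' := p + 2) (q' := q + 2) ?_ ?_
    · exact Submodule.add_mem _ (Submodule.sub_mem _ (S.e₁_mem hw' (by ring) (by ring))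
        (S.e₂_mem hv' (by ring) (by ring))) (S.e₃_mem hu' (by ring) (by ring))
    · rw [map_add, map_sub, box_e₁, box_e₂, box_e₃]; exact h
  have k2 : ⁅S.e₁, w'⁆ = ⁅S.e₂, v'⁆ - ⁅S.e₃, u'⁆ := by
    rw [← sub_eq_zero, ← k1]; abel
  have k3 : ⁅S.e₂, v'⁆ = ⁅S.e₁, w'⁆ + ⁅S.e₃, u'⁆ := by
    rw [← sub_eq_zero, ← neg_eq_zero, ← k1]; abel
  have k4 : ⁅S.e₃, u'⁆ = ⁅S.e₂, v'⁆ - ⁅S.e₁, w'⁆ := by
    rw [← sub_eq_zero, ← k1]; abel
  refine ⟨3 • (-⁅S.f₂, u'⁆ - ⁅S.f₃, v'⁆), ?_, 3 • (⁅S.f₁, u'⁆ - ⁅S.f₃, w'⁆), ?_,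
    3 • (⁅S.f₁, v'⁆ + ⁅S.f₂, w'⁆ - u'), ?_, ?_, ?_, ?_⟩
  · exact Submodule.smul_of_tower_mem _ _ (Submodule.sub_mem _ (Submodule.neg_mem _
      (S.f₂_mem hu' (by ring) (by ring))) (S.f₃_mem hv' (by ring) (by ring)))
  · exact Submodule.smul_of_tower_mem _ _ (Submodule.sub_mem _
      (S.f₁_mem hu' (by ring) (by ring)) (S.f₃_mem hw' (by ring) (by ring)))
  · exact Submodule.smul_of_tower_mem _ _ (Submodule.sub_mem _ (Submodule.add_mem _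
      (S.f₁_mem hv' (by ring) (by ring)) (S.f₂_mem hw' (by ring) (by ring))) hu')
  · rw [box_apply, S.cas_of_mem hu']
    simp only [lie_nsmul, lie_add, lie_sub, lie_neg, n_e₁f₁, n_e₁f₂, n_e₁f₃, n_e₂f₁, n_e₂f₂,
      n_e₂f₃, k2, hu'.1, hu'.2]
    rw [k4, k2]
    simp only [Qf, lie_sub, lie_add]
    module
  · rw [box_apply, S.cas_of_mem hv']
    simp only [lie_nsmul, lie_add, lie_sub, lie_neg, n_e₁f₁, n_e₁f₂, n_e₁f₃, n_e₃f₁, n_e₃f₂,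
      n_e₃f₃, hv'.1, hv'.2]
    rw [k2]
    simp only [Qf, lie_sub, lie_add]
    module
  · rw [box_apply, S.cas_of_mem hw']
    simp only [lie_nsmul, lie_add, lie_sub, lie_neg, n_e₂f₁, n_e₂f₂, n_e₂f₃, n_e₃f₁, n_e₃f₂,
      n_e₃f₃, hw'.1, hw'.2]
    rw [k3]
    simp only [Qf, lie_sub, lie_add]
    module

include hg in
theorem exact_three {z : M} (hz : z ∈ S.W k M (p + 2) (q + 2)) :
    ∃ u ∈ S.W k M (p + 1) (q + 1), ∃ v ∈ S.W k M (p + 3) q, ∃ w ∈ S.W k M p (q + 3),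
      ⁅S.e₁, w⁆ - ⁅S.e₂, v⁆ + ⁅S.e₃, u⁆ = z := by
  obtain ⟨z', hz', rfl⟩ := S.box_surj (a := 2) (b := 2) hg (by simp) (by push_cast; ring)
    (by push_cast; ring) hz
  refine ⟨3 • ⁅S.f₃, z'⁆, ?_, 3 • (-⁅S.f₂, z'⁆), ?_, 3 • ⁅S.f₁, z'⁆, ?_, ?_⟩
  · exact Submodule.smul_of_tower_mem _ _ (S.f₃_mem hz' (by ring) (by ring))
  · exact Submodule.smul_of_tower_mem _ _ (Submodule.neg_mem _ (S.f₂_mem hz' (by ring) (by ring)))
  · exact Submodule.smul_of_tower_mem _ _ (S.f₁_mem hz' (by ring) (by ring))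
  · rw [box_apply, S.cas_of_mem hz']
    simp only [lie_nsmul, lie_neg, n_e₁f₁, n_e₂f₂, n_e₃f₃, hz'.1, hz'.2]
    simp only [Qf]
    module

end exact

variable (k M) in
/-- The highest weight vectors of weight `(p, q)`. -/
def K (p q : ℤ) : Submodule k M :=
  S.W k M p q ⊓ (LinearMap.ker (toEnd k g M S.e₁) ⊓ LinearMap.ker (toEnd k g M S.e₂))

theorem mem_K {p q : ℤ} {m : M} :
    m ∈ S.K k M p q ↔ m ∈ S.W k M p q ∧ ⁅S.e₁, m⁆ = 0 ∧ ⁅S.e₂, m⁆ = 0 := Iff.rfl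

variable (k M) in
/-- The restriction of the action. -/
def res (x : g) (p q p' q' : ℤ) (h : ∀ m ∈ S.W k M p q, ⁅x, m⁆ ∈ S.W k M p' q') :
    S.W k M p q →ₗ[k] S.W k M p' q' :=
  (toEnd k g M x).restrict h

theorem res_apply (x : g) (p q p' q' : ℤ) (h : ∀ m ∈ S.W k M p q, ⁅x, m⁆ ∈ S.W k M p' q')
    (m : S.W k M p q) : (S.res k M x p q p' q' h m : M) = ⁅x, (m : M)⁆ := rfl

/-- The dimension of the space of highest weight vectors. -/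
theorem factR [FiniteDimensional k M] {p q : ℤ} (hg : Good p q) :
    (finrank k (S.K k M p q) : ℤ) = finrank k (S.W k M p q) - finrank k (S.W k M (p + 2) (q - 1)) -
      finrank k (S.W k M (p - 1) (q + 2)) + finrank k (S.W k M (p + 3) q) +
      finrank k (S.W k M p (q + 3)) - finrank k (S.W k M (p + 2) (q + 2)) := by
  let d0 : S.W k M p q →ₗ[k]
      (S.W k M (p + 2) (q - 1) × S.W k M (p - 1) (q + 2) × S.W k M (p + 1) (q + 1)) :=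
    (S.res k M S.e₁ p q (p + 2) (q - 1) fun m hm => S.e₁_mem hm rfl rfl).prod
      ((S.res k M S.e₂ p q (p - 1) (q + 2) fun m hm => S.e₂_mem hm rfl rfl).prod
        (S.res k M S.e₃ p q (p + 1) (q + 1) fun m hm => S.e₃_mem hm rfl rfl))
  let d1 : (S.W k M (p + 2) (q - 1) × S.W k M (p - 1) (q + 2) × S.W k M (p + 1) (q + 1)) →ₗ[k]
      (S.W k M (p + 1) (q + 1) × S.W k M (p + 3) q × S.W k M p (q + 3)) :=
    (((S.res k M S.e₁ (p - 1) (q + 2) (p + 1) (q + 1) fun m hm =>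
        S.e₁_mem hm (by ring) (by ring)) ∘ₗ LinearMap.fst k _ _ ∘ₗ LinearMap.snd k _ _) -
      ((S.res k M S.e₂ (p + 2) (q - 1) (p + 1) (q + 1) fun m hm =>
        S.e₂_mem hm (by ring) (by ring)) ∘ₗ LinearMap.fst k _ _) -
      (LinearMap.snd k _ _ ∘ₗ LinearMap.snd k _ _)).prod
    ((((S.res k M S.e₁ (p + 1) (q + 1) (p + 3) q fun m hm =>
        S.e₁_mem hm (by ring) (by ring)) ∘ₗ LinearMap.snd k _ _ ∘ₗ LinearMap.snd k _ _) -
      ((S.res k M S.e₃ (p + 2) (q - 1) (p + 3) q fun m hm =>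
        S.e₃_mem hm (by ring) (by ring)) ∘ₗ LinearMap.fst k _ _)).prod
    (((S.res k M S.e₂ (p + 1) (q + 1) p (q + 3) fun m hm =>
        S.e₂_mem hm (by ring) (by ring)) ∘ₗ LinearMap.snd k _ _ ∘ₗ LinearMap.snd k _ _) -
      ((S.res k M S.e₃ (p - 1) (q + 2) p (q + 3) fun m hm =>
        S.e₃_mem hm (by ring) (by ring)) ∘ₗ LinearMap.fst k _ _ ∘ₗ LinearMap.snd k _ _)))
  let d2 : (S.W k M (p + 1) (q + 1) × S.W k M (p + 3) q × S.W k M p (q + 3)) →ₗ[k]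
      S.W k M (p + 2) (q + 2) :=
    ((S.res k M S.e₁ p (q + 3) (p + 2) (q + 2) fun m hm =>
        S.e₁_mem hm (by ring) (by ring)) ∘ₗ LinearMap.snd k _ _ ∘ₗ LinearMap.snd k _ _) -
    ((S.res k M S.e₂ (p + 3) q (p + 2) (q + 2) fun m hm =>
        S.e₂_mem hm (by ring) (by ring)) ∘ₗ LinearMap.fst k _ _ ∘ₗ LinearMap.snd k _ _) +
    ((S.res k M S.e₃ (p + 1) (q + 1) (p + 2) (q + 2) fun m hm =>
        S.e₃_mem hm (by ring) (by ring)) ∘ₗ LinearMap.fst k _ _)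
  have hk0 : finrank k (LinearMap.ker d0) = finrank k (S.K k M p q) := by
    have h1 : (LinearMap.ker d0).map (S.W k M p q).subtype = S.K k M p q := by
      ext m
      constructor
      · rintro ⟨x, hx, rfl⟩
        have hx' : d0 x = 0 := hx
        have h1 : ⁅S.e₁, (x : M)⁆ = 0 := congrArg (fun y => (y.1 : M)) hx'
        have h2 : ⁅S.e₂, (x : M)⁆ = 0 := congrArg (fun y => (y.2.1 : M)) hx'
        exact S.mem_K.2 ⟨x.2, h1, h2⟩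
      · intro hm
        obtain ⟨h1, h2, h3⟩ := S.mem_K.1 hm
        refine ⟨⟨m, h1⟩, ?_, rfl⟩
        show d0 ⟨m, h1⟩ = 0
        refine Prod.ext (Subtype.ext h2) (Prod.ext (Subtype.ext h3) (Subtype.ext ?_))
        show ⁅S.e₃, m⁆ = 0
        rw [e₃, lie_lie, h2, h3, lie_zero, lie_zero, sub_zero]
    rw [← h1]
    exact (LinearEquiv.finrank_eq ((LinearMap.ker d0).equivMapOfInjective _
      (S.W k M p q).injective_subtype))
  have hr0 : LinearMap.range d0 = LinearMap.ker d1 := by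
    ext ⟨⟨a, ha⟩, ⟨b, hb⟩, ⟨c, hc⟩⟩
    constructor
    · rintro ⟨⟨m, hm⟩, hx⟩
      have h1 : ⁅S.e₁, m⁆ = a := congrArg (fun y => (y.1 : M)) hx
      have h2 : ⁅S.e₂, m⁆ = b := congrArg (fun y => (y.2.1 : M)) hx
      have h3 : ⁅S.e₃, m⁆ = c := congrArg (fun y => (y.2.2 : M)) hx
      show d1 _ = 0
      refine Prod.ext (Subtype.ext ?_) (Prod.ext (Subtype.ext ?_) (Subtype.ext ?_))
      · show ⁅S.e₁, b⁆ - ⁅S.e₂, a⁆ - c = 0
        rw [← h1, ← h2, ← h3, n_e₂e₁]; abel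
      · show ⁅S.e₁, c⁆ - ⁅S.e₃, a⁆ = 0
        rw [← h1, ← h3, n_e₃e₁]; abel
      · show ⁅S.e₂, c⁆ - ⁅S.e₃, b⁆ = 0
        rw [← h2, ← h3, n_e₃e₂]; abel
    · intro h
      have h' : d1 _ = 0 := h
      have h1 : ⁅S.e₁, b⁆ - ⁅S.e₂, a⁆ - c = 0 := congrArg (fun y => (y.1 : M)) h'
      have h2 : ⁅S.e₁, c⁆ - ⁅S.e₃, a⁆ = 0 := congrArg (fun y => (y.2.1 : M)) h'
      have h3 : ⁅S.e₂, c⁆ - ⁅S.e₃, b⁆ = 0 := congrArg (fun y => (y.2.2 : M)) h'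
      obtain ⟨m, hm, e1, e2, e3⟩ := S.exact_one hg ha hb hc h1 h2 h3
      exact ⟨⟨m, hm⟩, Prod.ext (Subtype.ext e1) (Prod.ext (Subtype.ext e2) (Subtype.ext e3))⟩
  have hr1 : LinearMap.range d1 = LinearMap.ker d2 := by
    ext ⟨⟨u, hu⟩, ⟨v, hv⟩, ⟨w, hw⟩⟩
    constructor
    · rintro ⟨⟨⟨a, ha⟩, ⟨b, hb⟩, ⟨c, hc⟩⟩, hx⟩
      have h1 : ⁅S.e₁, b⁆ - ⁅S.e₂, a⁆ - c = u := congrArg (fun y => (y.1 : M)) hx
      have h2 : ⁅S.e₁, c⁆ - ⁅S.e₃, a⁆ = v := congrArg (fun y => (y.2.1 : M)) hx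
      have h3 : ⁅S.e₂, c⁆ - ⁅S.e₃, b⁆ = w := congrArg (fun y => (y.2.2 : M)) hx
      show d2 _ = 0
      refine Subtype.ext ?_
      show ⁅S.e₁, w⁆ - ⁅S.e₂, v⁆ + ⁅S.e₃, u⁆ = 0
      rw [← h1, ← h2, ← h3]
      simp only [lie_sub, n_e₂e₁, n_e₃e₁, n_e₃e₂]
      abel
    · intro h
      have h' : d2 _ = 0 := h
      have h1 : ⁅S.e₁, w⁆ - ⁅S.e₂, v⁆ + ⁅S.e₃, u⁆ = 0 := congrArg Subtype.val h'
      obtain ⟨a, ha, b, hb, c, hc, e1, e2, e3⟩ := S.exact_two hg hu hv hw h1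
      exact ⟨⟨⟨a, ha⟩, ⟨b, hb⟩, ⟨c, hc⟩⟩,
        Prod.ext (Subtype.ext e1) (Prod.ext (Subtype.ext e2) (Subtype.ext e3))⟩
  have hr2 : LinearMap.range d2 = ⊤ := by
    rw [LinearMap.range_eq_top]
    rintro ⟨z, hz⟩
    obtain ⟨u, hu, v, hv, w, hw, e⟩ := S.exact_three hg hz
    exact ⟨⟨⟨u, hu⟩, ⟨v, hv⟩, ⟨w, hw⟩⟩, Subtype.ext e⟩
  have n0 := LinearMap.finrank_range_add_finrank_ker d0
  have n1 := LinearMap.finrank_range_add_finrank_ker d1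
  have n2 := LinearMap.finrank_range_add_finrank_ker d2
  rw [hr0, hk0] at n0
  rw [hr1, finrank_prod, finrank_prod] at n1
  rw [hr2, finrank_top, finrank_prod, finrank_prod] at n2
  omega

end Chev

end Pool.Agent.R412.ABG

end
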