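import Pool.Agent.R412.ABG.BBdef
import Pool.Agent.R929.Shang.Lower

/-!
# The free alternative algebra
-/

set_option autoImplicit false
set_option linter.unusedSimpArgs false
set_option linter.unusedSectionVars false

noncomputable section

open scoped TensorProduct
open Module

namespace Pool.Agent.R412.ABG

open Pool.Agent.R929.Shang (FreeNA altIdeal IsAlternativeIdeal)

section

variable {k : Type} [Field k] {D : ℕ}

theorem altIdeal_isAlt : IsAlternativeIdeal k D (altIdeal k D) := by
  constructor
  · intro x y
    exact ⟨Submodule.mem_sInf.2 fun J hJ => (hJ.1 x y).1,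
      Submodule.mem_sInf.2 fun J hJ => (hJ.1 x y).2⟩
  · intro x hx y
    exact ⟨Submodule.mem_sInf.2 fun J hJ => (hJ.2 x (Submodule.mem_sInf.1 hx J hJ) y).1,
      Submodule.mem_sInf.2 fun J hJ => (hJ.2 x (Submodule.mem_sInf.1 hx J hJ) y).2⟩

variable (k D) in
/-- `Alt(V)`, the free (non-unital) alternative algebra generated by `V = k ^ D`: the quotient of
the free nonassociative algebra by the ideal generated by the alternators. -/
def FAlt : Type := FreeNA k D ⧸ altIdeal k D

instance : AddCommGroup (FAlt k D) := inferInstanceAs (AddCommGroup (FreeNA k D ⧸ altIdeal k D))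
instance : Module k (FAlt k D) := inferInstanceAs (Module k (FreeNA k D ⧸ altIdeal k D))

/-- The quotient map. -/
def mkF : FreeNA k D →ₗ[k] FAlt k D := (altIdeal k D).mkQ

theorem mkF_surj : Function.Surjective (mkF (k := k) (D := D)) := Submodule.mkQ_surjective _

theorem mkF_eq {x y : FreeNA k D} : mkF x = mkF y ↔ x - y ∈ altIdeal k D :=
  Submodule.Quotient.eq _

theorem mkF_zero {x : FreeNA k D} : mkF x = 0 ↔ x ∈ altIdeal k D :=
  Submodule.Quotient.mk_eq_zero _

/-- Left multiplication. -/
def mulF1 (x : FreeNA k D) : FAlt k D →ₗ[k] FAlt k D :=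
  (altIdeal k D).mapQ (altIdeal k D) (LinearMap.mulLeft k x)
    (fun y hy => (altIdeal_isAlt.2 y hy x).2)

theorem mulF1_mk (x y : FreeNA k D) : mulF1 x (mkF y) = mkF (x * y) := rfl

/-- Multiplication. -/
def mulF2 : FreeNA k D →ₗ[k] FAlt k D →ₗ[k] FAlt k D where
  toFun := mulF1
  map_add' x y := by
    ext z
    obtain ⟨z, rfl⟩ := mkF_surj z
    rw [LinearMap.add_apply, mulF1_mk, mulF1_mk, mulF1_mk, add_mul, map_add]
  map_smul' c x := by
    ext z
    obtain ⟨z, rfl⟩ := mkF_surj z
    rw [LinearMap.smul_apply, mulF1_mk, mulF1_mk, smul_mul_assoc, map_smul]; rfl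

/-- Multiplication. -/
def mulF : FAlt k D →ₗ[k] FAlt k D →ₗ[k] FAlt k D :=
  (altIdeal k D).liftQ mulF2 (fun x hx => by
    rw [LinearMap.mem_ker]
    ext z
    obtain ⟨z, rfl⟩ := mkF_surj z
    show mkF (x * z) = 0
    exact mkF_zero.2 (altIdeal_isAlt.2 x hx z).1)

instance : Mul (FAlt k D) := ⟨fun a b => mulF a b⟩

theorem mkF_mul (x y : FreeNA k D) : mkF (x * y) = mkF x * mkF y := rfl

theorem mul_eq_mulF (a b : FAlt k D) : a * b = mulF a b := rfl

instance : NonUnitalNonAssocRing (FAlt k D) :=
  { (inferInstance : AddCommGroup (FAlt k D)) with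
    mul := (· * ·)
    left_distrib := fun a b c => map_add (mulF a) b c
    right_distrib := fun a b c => by
      show mulF (a + b) c = mulF a c + mulF b c
      rw [map_add]; rfl
    zero_mul := fun a => by
      show mulF 0 a = 0
      rw [map_zero]; rfl
    mul_zero := fun a => map_zero (mulF a) }

instance : IsScalarTower k (FAlt k D) (FAlt k D) := ⟨fun c a b => by
  show mulF (c • a) b = c • mulF a b
  rw [map_smul]; rfl⟩

instance : SMulCommClass k (FAlt k D) (FAlt k D) := ⟨fun c a b => by
  show c • mulF a b = mulF a (c • b)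
  rw [map_smul]⟩

instance : IsAlt (FAlt k D) where
  left p q := by
    obtain ⟨p, rfl⟩ := mkF_surj p
    obtain ⟨q, rfl⟩ := mkF_surj q
    rw [← mkF_mul, ← mkF_mul, ← mkF_mul, ← mkF_mul]
    exact (mkF_eq.2 (altIdeal_isAlt.1 p q).1).symm
  right p q := by
    obtain ⟨p, rfl⟩ := mkF_surj p
    obtain ⟨q, rfl⟩ := mkF_surj q
    rw [← mkF_mul, ← mkF_mul, ← mkF_mul, ← mkF_mul]
    exact mkF_eq.2 (altIdeal_isAlt.1 p q).2

/-! ### The degree derivation -/

/-- The degree derivation of the free nonassociative algebra. -/
def degF : FreeNA k D →ₗ[k] FreeNA k D :=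
  (MonoidAlgebra.basis (FreeMagma (Fin D)) k).constr k
    fun w => (w.length : k) • MonoidAlgebra.single w 1

theorem degF_single (w : FreeMagma (Fin D)) : degF (MonoidAlgebra.single w 1 : FreeNA k D) =
    (w.length : k) • MonoidAlgebra.single w 1 := by
  have h := (MonoidAlgebra.basis (FreeMagma (Fin D)) k).constr_basis k
    (fun w => (w.length : k) • (MonoidAlgebra.single w 1 : FreeNA k D)) w
  rwa [MonoidAlgebra.basis_apply] at h

theorem FreeNA_ind {P : FreeNA k D → Prop} (h0 : P 0) (hadd : ∀ x y, P x → P y → P (x + y))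
    (hs : ∀ (c : k) w, P (c • MonoidAlgebra.single w 1)) (x : FreeNA k D) : P x := by
  refine MonoidAlgebra.induction_linear (motive := P) x h0 hadd fun w r => ?_
  have h : (MonoidAlgebra.single w r : FreeNA k D) = r • MonoidAlgebra.single w 1 := by
    rw [MonoidAlgebra.smul_single, smul_eq_mul, mul_one]
  rw [h]; exact hs r w

theorem degF_mul (x y : FreeNA k D) : degF (x * y) = degF x * y + x * degF y := by
  induction x using FreeNA_ind with
  | h0 => rw [zero_mul, map_zero, zero_mul, zero_mul, add_zero]
  | hadd x x' hx hx' => rw [add_mul, map_add, hx, hx', map_add, add_mul, add_mul]; abel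
  | hs c w =>
    rw [smul_mul_assoc, map_smul, map_smul, smul_mul_assoc, smul_mul_assoc, ← smul_add]
    congr 1
    induction y using FreeNA_ind with
    | h0 => rw [mul_zero, map_zero, mul_zero, mul_zero, add_zero]
    | hadd y y' hy hy' => rw [mul_add, map_add, hy, hy', map_add, mul_add, mul_add]; abel
    | hs d v =>
      rw [mul_smul_comm, map_smul, map_smul, mul_smul_comm, mul_smul_comm, ← smul_add]
      congr 1
      have h1 : (MonoidAlgebra.single w 1 * MonoidAlgebra.single v 1 : FreeNA k D) =
          MonoidAlgebra.single (w * v) 1 := by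
        rw [MonoidAlgebra.single_mul_single, one_mul]
      have h2 : (w * v).length = w.length + v.length := rfl
      rw [h1, degF_single, degF_single, degF_single, smul_mul_assoc, mul_smul_comm, h1, h2,
        Nat.cast_add, add_smul]

theorem degF_mem {x : FreeNA k D} (hx : x ∈ altIdeal k D) : degF x ∈ altIdeal k D := by
  have hJ : IsAlternativeIdeal k D (altIdeal k D ⊓ (altIdeal k D).comap degF) := by
    constructor
    · intro x y
      have lin1 : degF x * (x * y) + x * (degF x * y) - (degF x * x) * y - (x * degF x) * y ∈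
          altIdeal k D := by
        have h1 := (altIdeal_isAlt.1 (x + degF x) y).1
        have h2 := (altIdeal_isAlt.1 x y).1
        have h3 := (altIdeal_isAlt.1 (degF x) y).1
        have h4 := Submodule.sub_mem _ (Submodule.sub_mem _ h1 h2) h3
        have e : (x + degF x) * ((x + degF x) * y) - (x + degF x) * (x + degF x) * y -
            (x * (x * y) - x * x * y) - (degF x * (degF x * y) - degF x * degF x * y) =
            degF x * (x * y) + x * (degF x * y) - (degF x * x) * y - (x * degF x) * y := by
          simp only [add_mul, mul_add]; abel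
        rwa [e] at h4
      have lin2 : y * degF x * x + y * x * degF x - y * (degF x * x) - y * (x * degF x) ∈
          altIdeal k D := by
        have h1 := (altIdeal_isAlt.1 (x + degF x) y).2
        have h2 := (altIdeal_isAlt.1 x y).2
        have h3 := (altIdeal_isAlt.1 (degF x) y).2
        have h4 := Submodule.sub_mem _ (Submodule.sub_mem _ h1 h2) h3
        have e : y * (x + degF x) * (x + degF x) - y * ((x + degF x) * (x + degF x)) -
            (y * x * x - y * (x * x)) - (y * degF x * degF x - y * (degF x * degF x)) =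
            y * degF x * x + y * x * degF x - y * (degF x * x) - y * (x * degF x) := by
          simp only [add_mul, mul_add]; abel
        rwa [e] at h4
      refine ⟨⟨(altIdeal_isAlt.1 x y).1, ?_⟩, ⟨(altIdeal_isAlt.1 x y).2, ?_⟩⟩
      · show degF (x * (x * y) - x * x * y) ∈ altIdeal k D
        have e : degF (x * (x * y) - x * x * y) =
            (degF x * (x * y) + x * (degF x * y) - (degF x * x) * y - (x * degF x) * y) +
              (x * (x * degF y) - x * x * degF y) := by
          rw [map_sub, degF_mul, degF_mul, degF_mul, degF_mul]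
          simp only [add_mul, mul_add]; abel
        rw [e]
        exact Submodule.add_mem _ lin1 (altIdeal_isAlt.1 x (degF y)).1
      · show degF (y * x * x - y * (x * x)) ∈ altIdeal k D
        have e : degF (y * x * x - y * (x * x)) =
            (y * degF x * x + y * x * degF x - y * (degF x * x) - y * (x * degF x)) +
              (degF y * x * x - degF y * (x * x)) := by
          rw [map_sub, degF_mul, degF_mul, degF_mul, degF_mul]
          simp only [add_mul, mul_add]; abel
        rw [e]
        exact Submodule.add_mem _ lin2 (altIdeal_isAlt.1 x (degF y)).2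
    · rintro x ⟨hx1, hx2⟩ y
      rw [SetLike.mem_coe, Submodule.mem_comap] at hx2
      refine ⟨⟨(altIdeal_isAlt.2 x hx1 y).1, ?_⟩, ⟨(altIdeal_isAlt.2 x hx1 y).2, ?_⟩⟩
      · rw [SetLike.mem_coe, Submodule.mem_comap, degF_mul]
        exact Submodule.add_mem _ (altIdeal_isAlt.2 _ hx2 y).1 (altIdeal_isAlt.2 x hx1 _).1
      · rw [SetLike.mem_coe, Submodule.mem_comap, degF_mul]
        exact Submodule.add_mem _ (altIdeal_isAlt.2 x hx1 _).2 (altIdeal_isAlt.2 _ hx2 y).2
  exact ((sInf_le hJ : altIdeal k D ≤ _) hx).2

variable (k D) in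
/-- The degree derivation of `Alt(V)`. -/
def degA : derA k (FAlt k D) :=
  ⟨(altIdeal k D).mapQ (altIdeal k D) degF (fun _ hx => degF_mem hx), by
    intro r s
    obtain ⟨r, rfl⟩ := mkF_surj r
    obtain ⟨s, rfl⟩ := mkF_surj s
    show mkF (degF (r * s)) = mkF (degF r) * mkF s + mkF r * mkF (degF s)
    rw [degF_mul, map_add, mkF_mul, mkF_mul]⟩

variable (k) in
/-- The image of a monomial. -/
def mon (w : FreeMagma (Fin D)) : FAlt k D := mkF (MonoidAlgebra.single w 1)

theorem mon_mul (w v : FreeMagma (Fin D)) : mon k (w * v) = mon k w * mon k v := by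
  rw [mon, mon, mon, ← mkF_mul, MonoidAlgebra.single_mul_single, one_mul]

theorem degA_mon (w : FreeMagma (Fin D)) : (degA k D).1 (mon k w) = (w.length : k) • mon k w := by
  show mkF (degF (MonoidAlgebra.single w 1)) = _
  rw [degF_single, map_smul]; rfl

theorem span_mon : Submodule.span k (Set.range (mon k (D := D))) = ⊤ := by
  rw [eq_top_iff]
  rintro x -
  obtain ⟨x, rfl⟩ := mkF_surj x
  induction x using FreeNA_ind with
  | h0 => rw [map_zero]; exact Submodule.zero_mem _
  | hadd x y hx hy => rw [map_add]; exact Submodule.add_mem _ hx hy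
  | hs c w => rw [map_smul]; exact Submodule.smul_mem _ _ (Submodule.subset_span ⟨w, rfl⟩)

end

/-! ### Graded bases -/

section

variable {k : Type} [Field k] {M : Type} [AddCommGroup M] [Module k M]

/-- A basis of eigenvectors for a degree operator. -/
structure GB (k M : Type) [Field k] [AddCommGroup M] [Module k M] (T : M →ₗ[k] M) where
  /-- the index set -/
  ι : Type
  /-- the basis -/
  b : Basis ι k M
  /-- the degree -/
  deg : ι → ℕ
  b_deg : ∀ i, T (b i) = (deg i : ℤ) • b i
  fin : ∀ n, {i | deg i ≤ n}.Finite

/-- A graded basis from a graded spanning family; the degrees of the basis vectors are degrees of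
members of the family. -/
theorem exists_GB (T : M →ₗ[k] M) {W : Type} (v : W → M) (dg : W → ℕ)
    (hv : ∀ w, T (v w) = (dg w : k) • v w) (hs : Submodule.span k (Set.range v) = ⊤)
    (hf : ∀ n, {w | dg w ≤ n}.Finite) :
    ∃ (B : GB k M T) (a : B.ι → W), Function.Injective a ∧ ∀ i, B.deg i = dg (a i) := by
  obtain ⟨κ, a, ha, h1, h2⟩ := exists_linearIndependent' k v
  refine ⟨⟨κ, Basis.mk h2 (by rw [h1, hs]), fun i => dg (a i), ?_, ?_⟩, a, ha, fun i => rfl⟩
  · intro i
    rw [Basis.mk_apply, Function.comp_apply, hv]
    exact (Int.cast_smul_eq_zsmul k _ _).symm.trans (by push_cast; rfl) |>.symm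
  · intro n
    exact (hf n).preimage ha.injOn

theorem GB.mem_span [CharZero k] {T : M →ₗ[k] M} (B : GB k M T) {n : ℕ} {x : M}
    (hx : T x = (n : k) • x) : x ∈ Submodule.span k (B.b '' {i | B.deg i = n}) := by
  rw [Basis.mem_span_image]
  intro i hi
  rw [SetLike.mem_coe, Finsupp.mem_support_iff] at hi
  have h1 : ∀ y : M, B.b.repr (T y) i = (B.deg i : k) * B.b.repr y i := by
    intro y
    have h2 : (Finsupp.lapply i ∘ₗ B.b.repr.toLinearMap) ∘ₗ T =
        (B.deg i : k) • (Finsupp.lapply i ∘ₗ B.b.repr.toLinearMap) := by
      refine B.b.ext fun j => ?_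
      simp only [LinearMap.comp_apply, LinearMap.smul_apply, B.b_deg, LinearEquiv.coe_coe,
        map_zsmul, Finsupp.lapply_apply, Basis.repr_self]
      by_cases hij : j = i
      · subst hij; simp
      · rw [Finsupp.single_eq_of_ne (Ne.symm hij)]; simp
    exact LinearMap.congr_fun h2 y
  have h3 := h1 x
  rw [hx, map_smul, Finsupp.smul_apply, smul_eq_mul] at h3
  have h4 := mul_right_cancel₀ hi h3
  exact (Nat.cast_injective h4).symm

end

section

variable {k : Type} [Field k] {D : ℕ}

open Pool.Agent.R929.Shang

/-- The map to the free associative algebra. -/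
def toAs : FAlt k D →ₗ[k] MonoidAlgebra k (FreeMonoid (Fin D)) :=
  (altIdeal k D).liftQ (toAssocL k D) altIdeal_le_ker

theorem toAs_mon (w : FreeMagma (Fin D)) : toAs (mon k w) = MonoidAlgebra.single (word w) 1 :=
  toAssoc_single w

theorem length_leftNormed (i : Fin D) (l : List (Fin D)) :
    (leftNormed i l).length = l.length + 1 := by
  rw [leftNormed]
  have h : ∀ (l : List (Fin D)) (u : FreeMagma (Fin D)),
      (l.foldl (fun u j => u * FreeMagma.of j) u).length = l.length + u.length := by
    intro l
    induction l with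
    | nil => intro u; simp
    | cons a l ih =>
      intro u
      rw [List.foldl_cons, ih, List.length_cons]
      have : (u * FreeMagma.of a).length = u.length + 1 := rfl
      rw [this]; ring
  rw [h]; rfl

/-- The lower bound for the dimension of the component of degree `n`. -/
theorem card_ge [CharZero k] (B : GB k (FAlt k D) (degA k D).1) (n : ℕ) :
    D ^ (n + 1) ≤ ((B.fin (n + 1)).toFinset.filter fun i => B.deg i = n + 1).card := by
  classical
  set s := (B.fin (n + 1)).toFinset.filter fun i => B.deg i = n + 1 with hs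
  have hss : (s : Set B.ι) = {i | B.deg i = n + 1} := by
    ext i
    simp only [hs, Finset.coe_filter, Set.Finite.mem_toFinset, Set.mem_ofPred_eq]
    exact ⟨fun h => h.2, fun h => ⟨h.le, h⟩⟩
  let U : Submodule k (FAlt k D) := Submodule.span k ((s.image B.b : Finset (FAlt k D)) : Set (FAlt k D))
  have hU : ∀ x, (degA k D).1 x = ((n + 1 : ℕ) : k) • x → x ∈ U := by
    intro x hx
    have := B.mem_span hx
    rwa [← hss, ← Finset.coe_image] at this
  have hfin : finrank k U ≤ s.card :=
    (finrank_span_finset_le_card _).trans Finset.card_image_le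
  haveI : Module.Finite k U := FiniteDimensional.span_finset k _
  have hmem : ∀ f : Fin (n + 1) → Fin D, mon k (leftNormed (f 0) (List.ofFn (Fin.tail f))) ∈ U := by
    intro f
    apply hU
    rw [degA_mon, length_leftNormed, List.length_ofFn]
  let v : (Fin (n + 1) → Fin D) → U := fun f => ⟨_, hmem f⟩
  have hli : LinearIndependent k v := by
    refine LinearIndependent.of_comp (toAs.comp U.subtype) ?_
    have h2 : (⇑(toAs.comp U.subtype) ∘ v) =
        fun f : Fin (n + 1) → Fin D => (MonoidAlgebra.single (FreeMonoid.ofList (List.ofFn f)) 1 :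
          MonoidAlgebra k (FreeMonoid (Fin D))) := by
      funext f
      show toAs (mon k _) = _
      rw [toAs_mon, word_leftNormed]
      have h1 : (f 0 :: List.ofFn (Fin.tail f)) = List.ofFn f := by
        rw [List.ofFn_succ]; rfl
      rw [h1]
    rw [h2]
    have h3 : LinearIndependent k (fun w : FreeMonoid (Fin D) =>
        (MonoidAlgebra.single w 1 : MonoidAlgebra k (FreeMonoid (Fin D)))) := by
      have h4 : LinearIndependent k (fun w : FreeMonoid (Fin D) =>
        (Finsupp.single w 1 : FreeMonoid (Fin D) →₀ k)) :=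
          Finsupp.linearIndependent_single_one k _
      have h5 := h4.map' (MonoidAlgebra.coeffLinearEquiv k).symm.toLinearMap
        (LinearEquiv.ker _)
      exact h5
    refine h3.comp (fun f : Fin (n + 1) → Fin D => FreeMonoid.ofList (List.ofFn f)) ?_
    intro f g hfg
    exact List.ofFn_injective (FreeMonoid.ofList.injective hfg)
  have h6 := hli.fintype_card_le_finrank
  rw [Fintype.card_fun, Fintype.card_fin, Fintype.card_fin] at h6
  exact h6.trans hfin

/-- The graded basis of `Alt(V)`. -/
theorem exists_GBA (k : Type) [Field k] (D : ℕ) : ∃ (B : GB k (FAlt k D) (degA k D).1),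
    (∀ i, 1 ≤ B.deg i) ∧ ((B.fin 1).toFinset.filter fun i => B.deg i = 1).card ≤ D := by
  classical
  obtain ⟨B, a, ha, hB⟩ := exists_GB (degA k D).1 (mon k) (fun w => w.length)
    degA_mon span_mon finite_length
  refine ⟨B, fun i => by rw [hB]; exact (a i).length_pos, ?_⟩
  have h1 : ((B.fin 1).toFinset.filter fun i => B.deg i = 1).card ≤
      ((Finset.univ : Finset (Fin D)).image (FreeMagma.of : Fin D → _)).card := by
    refine Finset.card_le_card_of_injOn a ?_ ha.injOn
    intro i hi
    have h2 : B.deg i = 1 := (Finset.mem_filter.1 hi).2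
    rw [hB] at h2
    rw [SetLike.mem_coe, Finset.mem_image]
    cases hw : a i with
    | of j => exact ⟨j, Finset.mem_univ _, rfl⟩
    | mul u w =>
      exfalso
      rw [hw] at h2
      have h3 : (FreeMagma.mul u w).length = u.length + w.length := rfl
      rw [h3] at h2
      have := u.length_pos
      have := w.length_pos
      omega
  refine h1.trans (Finset.card_image_le.trans ?_)
  rw [Finset.card_univ, Fintype.card_fin]

theorem span_wd : Submodule.span k (Set.range fun w : FreeMagma (Fin D) × FreeMagma (Fin D) =>
    wd k (mon k w.1) (mon k w.2)) = ⊤ := by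
  rw [eq_top_iff]
  rintro x -
  induction x using BB_ind with
  | hadd x y hx hy => exact Submodule.add_mem _ hx hy
  | hwd p q =>
    have hp : p ∈ Submodule.span k (Set.range (mon k (D := D))) := by
      rw [span_mon]; exact Submodule.mem_top
    have hq : q ∈ Submodule.span k (Set.range (mon k (D := D))) := by
      rw [span_mon]; exact Submodule.mem_top
    induction hp using Submodule.span_induction with
    | zero => rw [wd_zero_left]; exact Submodule.zero_mem _
    | add x y _ _ hx hy => rw [wd_add_left]; exact Submodule.add_mem _ hx hy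
    | smul c x _ hx => rw [wd_smul_left]; exact Submodule.smul_mem _ _ hx
    | mem x hx =>
      obtain ⟨w, rfl⟩ := hx
      induction hq using Submodule.span_induction with
      | zero => rw [wd_zero_right]; exact Submodule.zero_mem _
      | add x y _ _ hx hy => rw [wd_add_right]; exact Submodule.add_mem _ hx hy
      | smul c x _ hx => rw [wd_smul_right]; exact Submodule.smul_mem _ _ hx
      | mem x hx =>
        obtain ⟨v, rfl⟩ := hx
        exact Submodule.subset_span ⟨(w, v), rfl⟩

/-- The graded basis of `B(Alt(V))`. -/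
theorem exists_GBB (k : Type) [Field k] (D : ℕ) :
    ∃ (B : GB k (BB k (FAlt k D)) (onB (degA k D))), ∀ i, 2 ≤ B.deg i := by
  obtain ⟨B, a, ha, hB⟩ := exists_GB (onB (degA k D))
    (fun w : FreeMagma (Fin D) × FreeMagma (Fin D) => wd k (mon k w.1) (mon k w.2))
    (fun w => w.1.length + w.2.length) (fun w => by
      rw [onB_wd, degA_mon, degA_mon, wd_smul_left, wd_smul_right, ← add_smul, Nat.cast_add])
    span_wd (fun n => by
      refine ((finite_length n).prod (finite_length n)).subset ?_
      rintro ⟨w, v⟩ h
      have h1 : w.length + v.length ≤ n := h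
      exact ⟨show w.length ≤ n by omega, show v.length ≤ n by omega⟩)
  refine ⟨B, fun i => ?_⟩
  rw [hB]
  have := (a i).1.length_pos
  have := (a i).2.length_pos
  omega

end

end Pool.Agent.R412.ABG

end
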