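import Pool.Agent.R412.ABG.Action
import Pool.Agent.R412.ABG.Euler
import Pool.Agent.R412.ABG.Free

/-!
# The graded structure of the Allison–Benkart–Gao algebra of the free alternative algebra
-/

set_option autoImplicit false
set_option linter.unusedSimpArgs false
set_option linter.unusedSectionVars false

noncomputable section

open scoped TensorProduct
open Module

namespace Pool.Agent.R412.ABG

section

variable (k : Type) [Field k] [CharZero k]

/-- The basis of `sl₃`. -/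
def sv : Fin 8 → sl3 k := ![(SS k).e₁, (SS k).e₂, (SS k).f₁, (SS k).f₂, (SS k).e₃, (SS k).f₃,
  (SS k).h₁, (SS k).h₂]

/-- The roots. -/
def rt : Fin 8 → ℤ × ℤ := ![(1, 0), (0, 1), (-1, 0), (0, -1), (1, 1), (-1, -1), (0, 0), (0, 0)]

theorem sv_h₁ (i : Fin 8) : ⁅(SS k).h₁, sv k i⁆ = (2 * (rt i).1 - (rt i).2) • sv k i := by
  fin_cases i
  · show ⁅(SS k).h₁, (SS k).e₁⁆ = (2 : ℤ) • (SS k).e₁
    rw [(SS k).h₁e₁, two_zsmul, two_nsmul]
  · show ⁅(SS k).h₁, (SS k).e₂⁆ = (-1 : ℤ) • (SS k).e₂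
    rw [(SS k).h₁e₂, neg_one_zsmul]
  · show ⁅(SS k).h₁, (SS k).f₁⁆ = (-2 : ℤ) • (SS k).f₁
    rw [(SS k).h₁f₁, neg_zsmul, two_zsmul, two_nsmul]
  · show ⁅(SS k).h₁, (SS k).f₂⁆ = (1 : ℤ) • (SS k).f₂
    rw [(SS k).h₁f₂, one_zsmul]
  · show ⁅(SS k).h₁, (SS k).e₃⁆ = (1 : ℤ) • (SS k).e₃
    rw [(SS k).h₁e₃, one_zsmul]
  · show ⁅(SS k).h₁, (SS k).f₃⁆ = (-1 : ℤ) • (SS k).f₃
    rw [(SS k).h₁f₃, neg_one_zsmul]
  · show ⁅(SS k).h₁, (SS k).h₁⁆ = (0 : ℤ) • (SS k).h₁
    rw [lie_self, zero_zsmul]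
  · show ⁅(SS k).h₁, (SS k).h₂⁆ = (0 : ℤ) • (SS k).h₂
    rw [(SS k).h₁h₂, zero_zsmul]

theorem sv_h₂ (i : Fin 8) : ⁅(SS k).h₂, sv k i⁆ = (2 * (rt i).2 - (rt i).1) • sv k i := by
  fin_cases i
  · show ⁅(SS k).h₂, (SS k).e₁⁆ = (-1 : ℤ) • (SS k).e₁
    rw [(SS k).h₂e₁, neg_one_zsmul]
  · show ⁅(SS k).h₂, (SS k).e₂⁆ = (2 : ℤ) • (SS k).e₂
    rw [(SS k).h₂e₂, two_zsmul, two_nsmul]
  · show ⁅(SS k).h₂, (SS k).f₁⁆ = (1 : ℤ) • (SS k).f₁
    rw [(SS k).h₂f₁, one_zsmul]
  · show ⁅(SS k).h₂, (SS k).f₂⁆ = (-2 : ℤ) • (SS k).f₂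
    rw [(SS k).h₂f₂, neg_zsmul, two_zsmul, two_nsmul]
  · show ⁅(SS k).h₂, (SS k).e₃⁆ = (1 : ℤ) • (SS k).e₃
    rw [(SS k).h₂e₃, one_zsmul]
  · show ⁅(SS k).h₂, (SS k).f₃⁆ = (-1 : ℤ) • (SS k).f₃
    rw [(SS k).h₂f₃, neg_one_zsmul]
  · show ⁅(SS k).h₂, (SS k).h₁⁆ = (0 : ℤ) • (SS k).h₁
    rw [← lie_skew, (SS k).h₁h₂, neg_zero, zero_zsmul]
  · show ⁅(SS k).h₂, (SS k).h₂⁆ = (0 : ℤ) • (SS k).h₂
    rw [lie_self, zero_zsmul]

/-- The coordinates on `sl₃`. -/
def sl3Equiv : sl3 k ≃ₗ[k] (Fin 8 → k) where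
  toFun x := ![x.val 0 1, x.val 1 2, x.val 1 0, x.val 2 1, x.val 0 2, x.val 2 0, x.val 0 0,
    x.val 0 0 + x.val 1 1]
  map_add' x y := by
    funext i
    fin_cases i
    · rfl
    · rfl
    · rfl
    · rfl
    · rfl
    · rfl
    · rfl
    · show (x + y).val 0 0 + (x + y).val 1 1 = (x.val 0 0 + x.val 1 1) + (y.val 0 0 + y.val 1 1)
      rw [add_val, add_val]; ring
  map_smul' c x := by
    funext i
    fin_cases i
    · rfl
    · rfl
    · rfl
    · rfl
    · rfl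
    · rfl
    · rfl
    · show (c • x).val 0 0 + (c • x).val 1 1 = c * (x.val 0 0 + x.val 1 1)
      rw [smul_val, smul_val]; ring
  invFun v := ∑ i, v i • sv k i
  left_inv x := by
    show ∑ i, (![x.val 0 1, x.val 1 2, x.val 1 0, x.val 2 1, x.val 0 2, x.val 2 0, x.val 0 0,
      x.val 0 0 + x.val 1 1] : Fin 8 → k) i • sv k i = x
    rw [Fin.sum_univ_eight]
    exact (sl3_eq x).symm
  right_inv v := by
    have e : ∀ i j, (∑ l, v l • sv k l).val i j = ∑ l, v l * (sv k l).val i j := by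
      intro i j
      rw [Fin.sum_univ_eight, Fin.sum_univ_eight]; rfl
    funext i
    fin_cases i
    · show (∑ l, v l • sv k l).val 0 1 = v 0
      rw [e, Fin.sum_univ_eight]
      simp [sv, SS, Chev.e₃, Chev.f₃, E_lie_apply, E_apply]
    · show (∑ l, v l • sv k l).val 1 2 = v 1
      rw [e, Fin.sum_univ_eight]
      simp [sv, SS, Chev.e₃, Chev.f₃, E_lie_apply, E_apply]
    · show (∑ l, v l • sv k l).val 1 0 = v 2
      rw [e, Fin.sum_univ_eight]
      simp [sv, SS, Chev.e₃, Chev.f₃, E_lie_apply, E_apply]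
    · show (∑ l, v l • sv k l).val 2 1 = v 3
      rw [e, Fin.sum_univ_eight]
      simp [sv, SS, Chev.e₃, Chev.f₃, E_lie_apply, E_apply]
    · show (∑ l, v l • sv k l).val 0 2 = v 4
      rw [e, Fin.sum_univ_eight]
      simp [sv, SS, Chev.e₃, Chev.f₃, E_lie_apply, E_apply]
    · show (∑ l, v l • sv k l).val 2 0 = v 5
      rw [e, Fin.sum_univ_eight]
      simp [sv, SS, Chev.e₃, Chev.f₃, E_lie_apply, E_apply]
    · show (∑ l, v l • sv k l).val 0 0 = v 6
      rw [e, Fin.sum_univ_eight]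
      simp [sv, SS, Chev.e₃, Chev.f₃, E_lie_apply, E_apply]
    · show (∑ l, v l • sv k l).val 0 0 + (∑ l, v l • sv k l).val 1 1 = v 7
      rw [e, e, Fin.sum_univ_eight, Fin.sum_univ_eight]
      simp [sv, SS, Chev.e₃, Chev.f₃, E_lie_apply, E_apply]

/-- The basis of `sl₃`. -/
def sl3B : Basis (Fin 8) k (sl3 k) := Basis.ofEquivFun (sl3Equiv k)

theorem sl3B_apply (i : Fin 8) : sl3B k i = sv k i := by
  rw [sl3B, Basis.coe_ofEquivFun]
  show ∑ l, (Pi.single i (1 : k) : Fin 8 → k) l • sv k l = sv k i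
  rw [Finset.sum_eq_single i]
  · rw [Pi.single_eq_same, one_smul]
  · intro j _ hj
    rw [Pi.single_eq_of_ne hj, zero_smul]
  · intro h; exact absurd (Finset.mem_univ _) h

end

section

variable {k : Type} [Field k] [CharZero k] {A : Type} [NonUnitalNonAssocRing A] [Module k A]
  [IsScalarTower k A A] [SMulCommClass k A A] (T : derA k A) (BA : GB k A T.1)
  (BB' : GB k (BB k A) (onB T))

/-- The index set of the basis. -/
abbrev IX : Type := (Fin 8 × BA.ι) ⊕ BB'.ι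

/-- The basis of `sl₃ ⊗ A ⊕ B(A)`. -/
def abgB : Basis (IX T BA BB') k (ABG k A) :=
  (((sl3B k).tensorProduct BA.b).prod BB'.b : Basis _ k ((sl3 k ⊗[k] A) × BB k A))

theorem abgB_inl (p : Fin 8 × BA.ι) :
    abgB T BA BB' (Sum.inl p) = inT (sv k p.1 ⊗ₜ[k] BA.b p.2) := by
  obtain ⟨i, j⟩ := p
  have h := Basis.prod_apply ((sl3B k).tensorProduct BA.b) BB'.b (Sum.inl (i, j))
  refine Eq.trans h ?_
  simp only [Sum.elim_inl, Function.comp_apply, LinearMap.inl_apply, Basis.tensorProduct_apply,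
    sl3B_apply]
  rfl

theorem abgB_inr (j : BB'.ι) : abgB T BA BB' (Sum.inr j) = inB (BB'.b j) := by
  have h := Basis.prod_apply ((sl3B k).tensorProduct BA.b) BB'.b (Sum.inr j)
  refine Eq.trans h ?_
  simp only [Sum.elim_inr, Function.comp_apply, LinearMap.inr_apply]
  rfl

/-- The root coordinates of the basis vectors. -/
def xr : IX T BA BB' → ℤ × ℤ := Sum.elim (fun p => rt p.1) (fun _ => (0, 0))

/-- The degrees of the basis vectors. -/
def dgr : IX T BA BB' → ℕ := Sum.elim (fun p => BA.deg p.2) BB'.deg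

variable [IsAlt A]

/-- The graded structure. -/
def gd (hA : ∀ i, 1 ≤ BA.deg i) (hB : ∀ i, 2 ≤ BB'.deg i) : GD k (ABG k A) (IX T BA BB') where
  δ := derG T
  hδ := derG_brk T
  hδg x y := (actG_derG x T y).symm
  b := abgB T BA BB'
  deg := dgr T BA BB'
  w₁ i := 2 * (xr T BA BB' i).1 - (xr T BA BB' i).2
  w₂ i := 2 * (xr T BA BB' i).2 - (xr T BA BB' i).1
  b_deg := by
    rintro (p | j)
    · rw [abgB_inl]
      refine Prod.ext ?_ ?_
      · show LinearMap.lTensor (sl3 k) T.1 (sv k p.1 ⊗ₜ[k] BA.b p.2) =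
          (BA.deg p.2 : ℤ) • (sv k p.1 ⊗ₜ[k] BA.b p.2)
        rw [LinearMap.lTensor_tmul, BA.b_deg, ← Int.cast_smul_eq_zsmul k,
          ← Int.cast_smul_eq_zsmul k, TensorProduct.tmul_smul]
      · show onB T 0 = (BA.deg p.2 : ℤ) • (0 : BB k A)
        rw [map_zero, smul_zero]
    · rw [abgB_inr]
      refine Prod.ext ?_ ?_
      · show LinearMap.lTensor (sl3 k) T.1 0 = (BB'.deg j : ℤ) • (0 : sl3 k ⊗[k] A)
        rw [map_zero, smul_zero]
      · exact BB'.b_deg j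
  b_w₁ := by
    rintro (p | j)
    · rw [abgB_inl, ABG_lie, actG_tmul, sv_h₁, ← Int.cast_smul_eq_zsmul k,
        ← TensorProduct.smul_tmul', Int.cast_smul_eq_zsmul k]
      refine Prod.ext rfl ?_
      exact (smul_zero (2 * (rt p.1).1 - (rt p.1).2) : _ • (0 : BB k A) = 0).symm
    · rw [abgB_inr, ABG_lie, actG_inB]
      exact (zero_smul ℤ _).symm
  b_w₂ := by
    rintro (p | j)
    · rw [abgB_inl, ABG_lie, actG_tmul, sv_h₂, ← Int.cast_smul_eq_zsmul k,
        ← TensorProduct.smul_tmul', Int.cast_smul_eq_zsmul k]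
      refine Prod.ext rfl ?_
      exact (smul_zero (2 * (rt p.1).2 - (rt p.1).1) : _ • (0 : BB k A) = 0).symm
    · rw [abgB_inr, ABG_lie, actG_inB]
      exact (zero_smul ℤ _).symm
  deg_pos := by
    rintro (p | j)
    · exact hA p.2
    · exact (by norm_num : 1 ≤ 2).trans (hB j)
  fin n := by
    refine ((((Set.finite_univ (α := Fin 8)).prod (BA.fin n)).image Sum.inl).union
      ((BB'.fin n).image Sum.inr)).subset ?_
    rintro (p | j) h
    · exact Or.inl ⟨p, ⟨Set.mem_univ _, h⟩, rfl⟩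
    · exact Or.inr ⟨j, h, rfl⟩

end

/-! ### Generation in degree one -/

section

variable {k : Type} [Field k] [CharZero k] {A : Type} [NonUnitalNonAssocRing A] [Module k A]
  [IsScalarTower k A A] [SMulCommClass k A A] [IsAlt A]

variable (k A) in
/-- The elements whose class in the first homology is zero. -/
def RR : Submodule k (ABG k A) := (LinearMap.range (bd k (ABG k A))).comap (ExteriorAlgebra.ι k)

theorem RR_brk (x y : ABG k A) : ⁅x, y⁆ ∈ RR k A := ⟨_, bd_ι_ι x y⟩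

theorem RR_lie (x : sl3 k) {y : ABG k A} (hy : y ∈ RR k A) : ⁅x, y⁆ ∈ RR k A := by
  obtain ⟨w, hw⟩ := hy
  refine ⟨⁅x, w⁆, ?_⟩
  rw [bd_lie, hw, ext_lie, der_ι, ac_apply]

theorem RR_T (X : sl3 k) (p q : A) : inT (X ⊗ₜ (p * q)) ∈ RR k A := by
  have hadd : ∀ X Y : sl3 k, inT (X ⊗ₜ (p * q)) ∈ RR k A → inT (Y ⊗ₜ (p * q)) ∈ RR k A →
      inT ((X + Y) ⊗ₜ (p * q)) ∈ RR k A := by
    intro X Y hX hY
    rw [TensorProduct.add_tmul, inT_add]
    exact Submodule.add_mem _ hX hY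
  have hsmul : ∀ (c : k) (X : sl3 k), inT (X ⊗ₜ (p * q)) ∈ RR k A →
      inT ((c • X) ⊗ₜ (p * q)) ∈ RR k A := by
    intro c X hX
    have h : (inT ((c • X) ⊗ₜ (p * q)) : ABG k A) = c • inT (X ⊗ₜ (p * q)) := by
      rw [← TensorProduct.smul_tmul']
      exact Prod.ext rfl (smul_zero c : c • (0 : BB k A) = 0).symm
    rw [h]
    exact Submodule.smul_mem _ _ hX
  have hlie : ∀ X Y : sl3 k, inT (Y ⊗ₜ (p * q)) ∈ RR k A →
      inT (⁅X, Y⁆ ⊗ₜ (p * q)) ∈ RR k A := by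
    intro X Y hY
    exact RR_lie X hY
  have hneg : ∀ X : sl3 k, inT ((-X) ⊗ₜ (p * q)) ∈ RR k A → inT (X ⊗ₜ (p * q)) ∈ RR k A := by
    intro X hX
    have := hsmul (-1) _ hX
    rwa [neg_one_smul, neg_neg] at this
  have he1 : inT (e1 k ⊗ₜ (p * q)) ∈ RR k A := by
    have h := RR_brk (k := k) (A := A) (inT (E k 0 2 (by decide) ⊗ₜ p)) (inT (E k 2 1 (by decide) ⊗ₜ q))
    rw [inT_brk, ttT_tmul, ttB_tmul] at h
    have h1 : ⁅E k 0 2 (by decide), E k 2 1 (by decide)⁆ = e1 k := by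
      apply sl3_ext; intro i j
      fin_cases i <;> fin_cases j <;> simp [E_lie_apply, E_apply]
    have h2 : curly (E k 0 2 (by decide)) (E k 2 1 (by decide)) = (1 / 2 : k) • e1 k := by
      apply sl3_ext; intro i j
      rw [curly_val, smul_val]
      fin_cases i <;> fin_cases j <;>
        simp [E_val, E_apply, tr2, Matrix.mul_apply, Fin.sum_univ_three, Matrix.single_apply]
    have h3 : Matrix.trace ((E k 0 2 (by decide)).val * (E k 2 1 (by decide)).val) = 0 := by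
      rw [tr2]; simp [E_apply]
    rw [h1, h2, h3, mul_zero, zero_smul] at h
    have h4 : (inB 0 : ABG k A) = 0 := rfl
    rw [h4, add_zero] at h
    have h5 : e1 k ⊗ₜ[k] ((1 / 2 : k) • (p * q + q * p)) + ((1 / 2 : k) • e1 k) ⊗ₜ[k] (p * q - q * p) =
        e1 k ⊗ₜ[k] (p * q) := by
      rw [← TensorProduct.smul_tmul', ← TensorProduct.tmul_smul, ← TensorProduct.tmul_add]
      congr 1
      module
    rwa [h5] at h
  have hh1 : inT (⁅f1 k, e1 k⁆ ⊗ₜ (p * q)) ∈ RR k A := hlie _ _ he1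
  have hf1 : inT (f1 k ⊗ₜ (p * q)) ∈ RR k A := by
    have h := hsmul (-(1 / 2 : k)) _ (hlie (f1 k) _ hh1)
    have h1 : (-(1 / 2 : k)) • ⁅f1 k, ⁅f1 k, e1 k⁆⁆ = f1 k := by
      apply sl3_ext; intro i j
      rw [smul_val]
      fin_cases i <;> fin_cases j <;> simp [E_lie_apply, E_apply]
      norm_num
    rwa [h1] at h
  have he2 : inT (e2 k ⊗ₜ (p * q)) ∈ RR k A := by
    have h := hlie (e2 k) _ hh1
    have h1 : ⁅e2 k, ⁅f1 k, e1 k⁆⁆ = -e2 k := by
      apply sl3_ext; intro i j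
      rw [neg_val]
      fin_cases i <;> fin_cases j <;> simp [E_lie_apply, E_apply]
    rw [h1] at h
    exact hneg _ h
  have hf2 : inT (f2 k ⊗ₜ (p * q)) ∈ RR k A := by
    have h := hlie (f2 k) _ hh1
    have h1 : ⁅f2 k, ⁅f1 k, e1 k⁆⁆ = f2 k := by
      apply sl3_ext; intro i j
      fin_cases i <;> fin_cases j <;> simp [E_lie_apply, E_apply]
    rwa [h1] at h
  exact sl3_ind (P := fun X => inT (X ⊗ₜ (p * q)) ∈ RR k A) hadd hsmul
    (fun X Y _ hY => hlie X Y hY) he1 he2 hf1 hf2 X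

theorem RR_T2 (X : sl3 k) {r : A} (hr : r ∈ Submodule.span k {x : A | ∃ p q, x = p * q}) :
    inT (X ⊗ₜ r) ∈ RR k A := by
  induction hr using Submodule.span_induction with
  | mem x hx =>
    obtain ⟨p, q, rfl⟩ := hx
    exact RR_T X p q
  | zero =>
    rw [TensorProduct.tmul_zero]
    exact Submodule.zero_mem _
  | add x y _ _ hx hy =>
    rw [TensorProduct.tmul_add, inT_add]
    exact Submodule.add_mem _ hx hy
  | smul c x _ hx =>
    have h : (inT (X ⊗ₜ (c • x)) : ABG k A) = c • inT (X ⊗ₜ x) := by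
      rw [TensorProduct.tmul_smul]
      exact Prod.ext rfl (smul_zero c : c • (0 : BB k A) = 0).symm
    rw [h]
    exact Submodule.smul_mem _ _ hx

theorem RR_B (p q : A) : inB (wd k p q) ∈ RR k A := by
  have h := RR_brk (k := k) (A := A) (inT (e1 k ⊗ₜ p)) (inT (f1 k ⊗ₜ q))
  rw [inT_brk, ttT_tmul, ttB_tmul] at h
  have h3 : Matrix.trace ((e1 k).val * (f1 k).val) = 1 := by
    rw [tr2]; simp [E_apply]
  have hs : ∀ p q : A, p * q ∈ Submodule.span k {x : A | ∃ p q, x = p * q} := fun p q =>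
    Submodule.subset_span ⟨p, q, rfl⟩
  rw [h3, mul_one, inT_add] at h
  have h4 := RR_T2 (k := k) ⁅e1 k, f1 k⁆ (Submodule.smul_mem _ (1 / 2 : k)
    (Submodule.add_mem _ (hs p q) (hs q p)))
  have h5 := RR_T2 (k := k) (curly (e1 k) (f1 k)) (Submodule.sub_mem _ (hs p q) (hs q p))
  have h6 := (Submodule.add_mem_iff_right _ (Submodule.add_mem _ h4 h5)).1 h
  have h7 := Submodule.smul_mem _ (3 : k) h6
  have h8 : (3 : k) • (inB ((1 / 3 : k) • wd k p q) : ABG k A) = inB (wd k p q) := by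
    refine Prod.ext (smul_zero (3 : k) : (3 : k) • (0 : sl3 k ⊗[k] A) = 0) ?_
    show (3 : k) • (1 / 3 : k) • wd k p q = wd k p q
    rw [smul_smul]
    norm_num
  rwa [h8] at h7

end

section

variable {k : Type} [Field k] [CharZero k] {D : ℕ}

theorem RR_sub (x : ABG k (FAlt k D)) : derG (degA k D) x - x ∈ RR k (FAlt k D) := by
  induction x using ABG_ind with
  | hT X p =>
    have hp : p ∈ Submodule.span k (Set.range (mon k (D := D))) := by
      rw [span_mon]; exact Submodule.mem_top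
    have hd : ∀ p : FAlt k D, derG (degA k D) (inT (X ⊗ₜ p)) = inT (X ⊗ₜ ((degA k D).1 p)) := by
      intro p
      refine Prod.ext ?_ ?_
      · exact LinearMap.lTensor_tmul _ _ _ _
      · exact map_zero (onB (degA k D))
    rw [hd]
    have hs : (inT (X ⊗ₜ ((degA k D).1 p)) - inT (X ⊗ₜ p) : ABG k (FAlt k D)) =
        inT (X ⊗ₜ ((degA k D).1 p - p)) := by
      rw [TensorProduct.tmul_sub]
      exact Prod.ext rfl (sub_zero (0 : BB k (FAlt k D)))
    rw [hs]
    clear hs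
    apply RR_T2
    induction hp using Submodule.span_induction with
    | zero => rw [map_zero, sub_zero]; exact Submodule.zero_mem _
    | add x y _ _ hx hy =>
      rw [map_add, add_sub_add_comm]; exact Submodule.add_mem _ hx hy
    | smul c x _ hx => rw [map_smul, ← smul_sub]; exact Submodule.smul_mem _ _ hx
    | mem x hx =>
      obtain ⟨w, rfl⟩ := hx
      rw [degA_mon]
      cases w with
      | of i =>
        have : (FreeMagma.of i).length = 1 := rfl
        rw [this, Nat.cast_one, one_smul, sub_self]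
        exact Submodule.zero_mem _
      | mul u v =>
        have : mon k (FreeMagma.mul u v) = mon k u * mon k v := mon_mul u v
        rw [this]
        exact Submodule.sub_mem _ (Submodule.smul_mem _ _ (Submodule.subset_span ⟨_, _, rfl⟩))
          (Submodule.subset_span ⟨_, _, rfl⟩)
  | hB p q =>
    have hd : derG (degA k D) (inB (wd k p q)) = inB (wd k ((degA k D).1 p) q) +
        inB (wd k p ((degA k D).1 q)) := by
      refine Prod.ext ?_ ?_
      · show LinearMap.lTensor (sl3 k) (degA k D).1 0 = 0 + 0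
        rw [map_zero, add_zero]
      · exact onB_wd (degA k D) p q
    rw [hd]
    exact Submodule.sub_mem _ (Submodule.add_mem _ (RR_B _ _) (RR_B _ _)) (RR_B _ _)
  | hadd x y hx hy => rw [map_add, add_sub_add_comm]; exact Submodule.add_mem _ hx hy

theorem mem_RR {n : ℤ} (hn : 2 ≤ n) {x : ABG k (FAlt k D)} (hx : derG (degA k D) x = n • x) :
    x ∈ RR k (FAlt k D) := by
  have h := RR_sub x
  rw [hx] at h
  have h1 : n • x - x = ((n - 1 : ℤ) : k) • x := by
    rw [Int.cast_smul_eq_zsmul, sub_zsmul, one_zsmul, sub_eq_add_neg]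
  rw [h1] at h
  have h2 : ((n - 1 : ℤ) : k) ≠ 0 := by
    rw [Int.cast_ne_zero]; omega
  exact (Submodule.smul_mem_iff _ h2).1 h

end

end Pool.Agent.R412.ABG

end
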