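import Pool.Agent.R412.ABG.ABGdef

/-!
# The Jacobi identity
-/

set_option autoImplicit false
set_option linter.unusedSimpArgs false
set_option linter.unusedSectionVars false
set_option linter.dupNamespace false

noncomputable section

open scoped TensorProduct
open LieAlgebra.SpecialLinear

namespace Pool.Agent.R412.ABG

variable {k : Type*} [Field k] {A : Type*} [NonUnitalNonAssocRing A] [Module k A]
  [IsScalarTower k A A] [SMulCommClass k A A]

/-- The entry `(i, j)` of an element of `sl₃`. -/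
def entF (i j : Fin 3) : sl3 k →ₗ[k] k where
  toFun x := x.val i j
  map_add' _ _ := rfl
  map_smul' _ _ := rfl

/-- The entry `(i, j)` of an element of `sl₃ ⊗ A`. -/
def ent (i j : Fin 3) : sl3 k ⊗[k] A →ₗ[k] A :=
  (TensorProduct.lid k A).toLinearMap ∘ₗ LinearMap.rTensor A (entF i j)

theorem ent_tmul (i j : Fin 3) (X : sl3 k) (p : A) : ent i j (X ⊗ₜ[k] p) = X.val i j • p := by
  rw [ent, LinearMap.comp_apply, LinearMap.rTensor_tmul, LinearEquiv.coe_coe,
    TensorProduct.lid_tmul]; rfl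

theorem ent_rec (s : sl3 k ⊗[k] A) : s = e1 k ⊗ₜ ent 0 1 s + e2 k ⊗ₜ ent 1 2 s +
    f1 k ⊗ₜ ent 1 0 s + f2 k ⊗ₜ ent 2 1 s + ⁅e1 k, e2 k⁆ ⊗ₜ ent 0 2 s +
    ⁅f2 k, f1 k⁆ ⊗ₜ ent 2 0 s + ⁅e1 k, f1 k⁆ ⊗ₜ ent 0 0 s +
    ⁅e2 k, f2 k⁆ ⊗ₜ (ent 0 0 s + ent 1 1 s) := by
  induction s using TensorProduct.induction_on with
  | zero => simp
  | add x y hx hy =>
    conv_lhs => rw [hx, hy]
    simp only [map_add, TensorProduct.tmul_add]
    abel
  | tmul X p =>
    conv_lhs => rw [sl3_eq X]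
    simp only [ent_tmul, TensorProduct.add_tmul, TensorProduct.tmul_add, TensorProduct.tmul_smul,
      ← TensorProduct.smul_tmul', add_smul]

theorem ent_inj {s t : sl3 k ⊗[k] A} (h : ∀ i j, ent i j s = ent i j t) : s = t := by
  rw [ent_rec s, ent_rec t]
  simp only [h]

variable [CharZero k] [IsAlt A]

/-- The component in `sl₃ ⊗ A` of the triple bracket `[Z ⊗ r, [X ⊗ p, Y ⊗ q]]`. -/
def TT (X : sl3 k) (p : A) (Y : sl3 k) (q : A) (Z : sl3 k) (r : A) : sl3 k ⊗[k] A :=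
  ttT k A (Z ⊗ₜ r) (ttT k A (X ⊗ₜ p) (Y ⊗ₜ q)) -
    Z ⊗ₜ (((1 / 3 : k) * Matrix.trace (X.val * Y.val)) • Dv p q r)

theorem ent_TT (X : sl3 k) (p : A) (Y : sl3 k) (q : A) (Z : sl3 k) (r : A) (i j : Fin 3) :
    ent i j (TT X p Y q Z r) =
      -((X.val * Y.val * Z.val) i j • (p * q * r) - (Y.val * X.val * Z.val) i j • (q * p * r) -
        (Z.val * X.val * Y.val) i j • (r * (p * q)) + (Z.val * Y.val * X.val) i j • (r * (q * p))) +
      (Matrix.trace (X.val * Y.val) * Z.val i j) • as p q r +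
      ((1 / 3 : k) * (if i = j then 1 else 0)) •
        (Matrix.trace (X.val * Y.val * Z.val) • (p * q * r - r * (p * q)) -
          Matrix.trace (Y.val * X.val * Z.val) • (q * p * r - r * (q * p))) := by
  have hz : Matrix.trace Z.val = 0 := Z.2
  have a1 : Matrix.trace (Z.val * X.val * Y.val) = Matrix.trace (X.val * Y.val * Z.val) := by
    rw [Matrix.trace_mul_cycle, Matrix.trace_mul_cycle]
  have a2 : Matrix.trace (Z.val * Y.val * X.val) = Matrix.trace (Y.val * X.val * Z.val) := by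
    rw [Matrix.trace_mul_cycle, Matrix.trace_mul_cycle]
  rw [TT, ttT_tmul, map_add, ttT_tmul, ttT_tmul, map_sub, map_add, map_add, map_add]
  simp only [ent_tmul, Dv_eq, curly_val, sl_bracket, Matrix.sub_apply, Matrix.add_apply,
    Matrix.smul_apply, Matrix.one_apply, mul_sub, sub_mul, mul_add, add_mul, Matrix.trace_sub,
    Matrix.trace_add, Matrix.trace_smul, ← mul_assoc, mul_smul_comm, smul_mul_assoc, mul_one,
    one_mul, smul_eq_mul, hz, a1, a2]
  module

theorem jac_T (X : sl3 k) (p : A) (Y : sl3 k) (q : A) (Z : sl3 k) (r : A) :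
    TT X p Y q Z r + TT Y q Z r X p + TT Z r X p Y q = 0 := by
  apply ent_inj
  intro i j
  have tx : X.val 2 2 = -X.val 0 0 - X.val 1 1 := by linear_combination tr_zero X
  have ty : Y.val 2 2 = -Y.val 0 0 - Y.val 1 1 := by linear_combination tr_zero Y
  have tz : Z.val 2 2 = -Z.val 0 0 - Z.val 1 1 := by linear_combination tr_zero Z
  have hch := ch X.val Y.val Z.val tx ty tz i j
  rw [map_add, map_add, ent_TT, ent_TT, ent_TT, map_zero]
  have b1 : as q r p = as p q r := by rw [S23 r p q, S12 q p r, neg_neg]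
  have b2 : as r p q = as p q r := by rw [S12 r p q, S23 r q p, neg_neg]
  have b3 : as r q p = -as p q r := by rw [S23 q p r, b2]
  have b4 : as p r q = -as p q r := S23 _ _ _
  have b5 : as q p r = -as p q r := S12 _ _ _
  have w1 : r * (p * q) = r * p * q - as p q r := by rw [← b2, as]; abel
  have w2 : r * (q * p) = r * q * p + as p q r := by rw [← neg_neg (as p q r), ← b3, as]; abel
  have w3 : p * (q * r) = p * q * r - as p q r := by rw [as]; abel
  have w4 : p * (r * q) = p * r * q + as p q r := by rw [← neg_neg (as p q r), ← b4, as]; abel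
  have w5 : q * (r * p) = q * r * p - as p q r := by rw [← b1, as]; abel
  have w6 : q * (p * r) = q * p * r + as p q r := by rw [← neg_neg (as p q r), ← b5, as]; abel
  have c1 : Matrix.trace (Y.val * Z.val * X.val) = Matrix.trace (X.val * Y.val * Z.val) := by
    rw [Matrix.trace_mul_cycle]
  have c2 : Matrix.trace (Z.val * X.val * Y.val) = Matrix.trace (X.val * Y.val * Z.val) := by
    rw [Matrix.trace_mul_cycle, Matrix.trace_mul_cycle]
  have c3 : Matrix.trace (Y.val * X.val * Z.val) = Matrix.trace (X.val * Z.val * Y.val) := by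
    rw [Matrix.trace_mul_cycle, Matrix.trace_mul_cycle]
  have c4 : Matrix.trace (Z.val * Y.val * X.val) = Matrix.trace (X.val * Z.val * Y.val) := by
    rw [Matrix.trace_mul_cycle]
  rw [b1, b2, w1, w2, w3, w4, w5, w6, c1, c2, c3, c4]
  linear_combination (norm := module) (-hch) • as p q r

theorem jac_B (X : sl3 k) (p : A) (Y : sl3 k) (q : A) (Z : sl3 k) (r : A) :
    ttB k A (Z ⊗ₜ r) (ttT k A (X ⊗ₜ p) (Y ⊗ₜ q)) + ttB k A (X ⊗ₜ p) (ttT k A (Y ⊗ₜ q) (Z ⊗ₜ r)) +
      ttB k A (Y ⊗ₜ q) (ttT k A (Z ⊗ₜ r) (X ⊗ₜ p)) = 0 := by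
  have key : ∀ (X : sl3 k) (p : A) (Y : sl3 k) (q : A) (Z : sl3 k) (r : A),
      ttB k A (Z ⊗ₜ r) (ttT k A (X ⊗ₜ p) (Y ⊗ₜ q)) =
      ((1 / 3 : k) * Matrix.trace (Z.val * X.val * Y.val)) • wd k r (p * q) -
        ((1 / 3 : k) * Matrix.trace (Z.val * Y.val * X.val)) • wd k r (q * p) := by
    intro X p Y q Z r
    have hz : Matrix.trace Z.val = 0 := Z.2
    rw [ttT_tmul, map_add, ttB_tmul, ttB_tmul]
    simp only [curly_val, sl_bracket, mul_sub, sub_mul, mul_add, add_mul, Matrix.trace_sub,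
      Matrix.trace_add, Matrix.trace_smul, ← mul_assoc, mul_smul_comm, smul_mul_assoc, mul_one,
      one_mul, smul_eq_mul, hz, wd_smul_right, wd_add_right, wd_sub_right]
    module
  rw [key, key, key]
  have c1 : Matrix.trace (Z.val * X.val * Y.val) = Matrix.trace (X.val * Y.val * Z.val) := by
    rw [Matrix.trace_mul_cycle, Matrix.trace_mul_cycle]
  have c2 : Matrix.trace (Y.val * Z.val * X.val) = Matrix.trace (X.val * Y.val * Z.val) := by
    rw [Matrix.trace_mul_cycle]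
  have c3 : Matrix.trace (Z.val * Y.val * X.val) = Matrix.trace (X.val * Z.val * Y.val) := by
    rw [Matrix.trace_mul_cycle]
  have c4 : Matrix.trace (Y.val * X.val * Z.val) = Matrix.trace (X.val * Z.val * Y.val) := by
    rw [Matrix.trace_mul_cycle, Matrix.trace_mul_cycle]
  rw [c1, c2, c3, c4]
  have h1 := wd_cyc (k := k) p q r
  have h2 := wd_cyc (k := k) q p r
  have s1 := wd_swap (k := k) r (p * q)
  have s2 := wd_swap (k := k) p (q * r)
  have s3 := wd_swap (k := k) q (r * p)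
  have s4 := wd_swap (k := k) r (q * p)
  have s5 := wd_swap (k := k) p (r * q)
  have s6 := wd_swap (k := k) q (p * r)
  rw [s1, s2, s3, s4, s5, s6]
  linear_combination (norm := module) (-((1 / 3 : k) * Matrix.trace (X.val * Y.val * Z.val))) • h1 +
    ((1 / 3 : k) * Matrix.trace (X.val * Z.val * Y.val)) • h2

/-- Elements of `sl₃ ⊗ A`. -/
def inT (s : sl3 k ⊗[k] A) : ABG k A := ((s, 0) : (sl3 k ⊗[k] A) × BB k A)

/-- Elements of `B(A)`. -/
def inB (b : BB k A) : ABG k A := ((0, b) : (sl3 k ⊗[k] A) × BB k A)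

omit [CharZero k] [IsAlt A] in
theorem inT_add (s t : sl3 k ⊗[k] A) : (inT (s + t) : ABG k A) = inT s + inT t :=
  Prod.ext rfl (add_zero _).symm

omit [CharZero k] [IsAlt A] in
theorem in_add_in (x : ABG k A) : inT x.1 + inB x.2 = x :=
  Prod.ext (add_zero _) (zero_add _)

theorem inB_brk (b : BB k A) (y : ABG k A) : ⁅inB b, y⁆ = derG (DD b) y := by
  refine Prod.ext ?_ ?_
  · show ttT k A 0 y.1 + LinearMap.lTensor (sl3 k) (DB b) y.1 -
      LinearMap.lTensor (sl3 k) (DB y.2) 0 = _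
    rw [map_zero, map_zero, LinearMap.zero_apply, zero_add, sub_zero]; rfl
  · show ttB k A 0 y.1 + onB (DD b) y.2 = _
    rw [map_zero, LinearMap.zero_apply, zero_add]; rfl

theorem inT_brk (s t : sl3 k ⊗[k] A) :
    ⁅(inT s : ABG k A), (inT t : ABG k A)⁆ = inT (ttT k A s t) + inB (ttB k A s t) := by
  refine Prod.ext ?_ ?_
  · show ttT k A s t + LinearMap.lTensor (sl3 k) (DB 0) t - LinearMap.lTensor (sl3 k) (DB 0) s =
      ttT k A s t + 0
    rw [map_zero, LinearMap.lTensor_zero, LinearMap.zero_apply, LinearMap.zero_apply, sub_zero]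
  · show ttB k A s t + onB (DD 0) 0 = 0 + ttB k A s t
    rw [map_zero, add_comm]

/-- The Jacobian. -/
def Jac (x y z : ABG k A) : ABG k A := ⁅x, ⁅y, z⁆⁆ + ⁅y, ⁅z, x⁆⁆ + ⁅z, ⁅x, y⁆⁆

theorem Jac_cyc (x y z : ABG k A) : Jac x y z = Jac y z x := by simp only [Jac]; abel

theorem Jac_add (x x' y z : ABG k A) : Jac (x + x') y z = Jac x y z + Jac x' y z := by
  simp only [Jac, add_brk, brk_add]; abel

theorem brk_neg (x y : ABG k A) : ⁅x, -y⁆ = -⁅x, y⁆ := by
  have := brk_smul (-1 : k) x y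
  rwa [neg_one_smul, neg_one_smul] at this

theorem Jac_inB (b : BB k A) (y z : ABG k A) : Jac (inB b) y z = 0 := by
  have h := derG_brk (DD b) y z
  rw [← inB_brk, ← inB_brk, ← inB_brk] at h
  rw [Jac, h, brk_skew z (inB b), brk_neg, brk_skew z]
  abel

theorem Jac_inT (s t u : sl3 k ⊗[k] A) : Jac (inT s : ABG k A) (inT t) (inT u) = 0 := by
  have key : ∀ (X : sl3 k) (p : A) (Y : sl3 k) (q : A) (Z : sl3 k) (r : A),
      ⁅(inT (Z ⊗ₜ r) : ABG k A), ⁅(inT (X ⊗ₜ p) : ABG k A), (inT (Y ⊗ₜ q) : ABG k A)⁆⁆ =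
      ((TT X p Y q Z r, ttB k A (Z ⊗ₜ r) (ttT k A (X ⊗ₜ p) (Y ⊗ₜ q))) :
        (sl3 k ⊗[k] A) × BB k A) := by
    intro X p Y q Z r
    rw [inT_brk, brk_add, inT_brk, brk_skew _ (inB _), inB_brk]
    refine Prod.ext ?_ ?_
    · show ttT k A (Z ⊗ₜ r) (ttT k A (X ⊗ₜ p) (Y ⊗ₜ q)) + 0 +
        -(LinearMap.lTensor (sl3 k) (DB (ttB k A (X ⊗ₜ p) (Y ⊗ₜ q))) (Z ⊗ₜ r)) = _
      rw [LinearMap.lTensor_tmul, ttB_tmul, map_smul, LinearMap.smul_apply, DB_wd, add_zero, TT,
        sub_eq_add_neg]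
    · show 0 + ttB k A (Z ⊗ₜ r) (ttT k A (X ⊗ₜ p) (Y ⊗ₜ q)) + -(onB (DD _) 0) = _
      rw [map_zero, neg_zero, add_zero, zero_add]
  induction s using TensorProduct.induction_on with
  | zero =>
    have h0 : (inT (0 : sl3 k ⊗[k] A) : ABG k A) = inB 0 := rfl
    rw [h0, Jac_inB]
  | add x y hx hy => rw [inT_add, Jac_add, hx, hy, add_zero]
  | tmul X p =>
    induction t using TensorProduct.induction_on with
    | zero =>
      have h0 : (inT (0 : sl3 k ⊗[k] A) : ABG k A) = inB 0 := rfl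
      rw [h0, Jac_cyc, Jac_inB]
    | add x y hx hy =>
      rw [inT_add, Jac_cyc, Jac_add, ← Jac_cyc, ← Jac_cyc (inT (X ⊗ₜ[k] p)), hx, hy, add_zero]
    | tmul Y q =>
      induction u using TensorProduct.induction_on with
      | zero =>
        have h0 : (inT (0 : sl3 k ⊗[k] A) : ABG k A) = inB 0 := rfl
        rw [h0, Jac_cyc, Jac_cyc, Jac_inB]
      | add x y hx hy =>
        rw [inT_add, ← Jac_cyc, Jac_add, Jac_cyc, Jac_cyc (inT y), hx, hy, add_zero]
      | tmul Z r =>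
        rw [Jac, key, key, key]
        refine Prod.ext ?_ ?_
        · show TT Y q Z r X p + TT Z r X p Y q + TT X p Y q Z r = 0
          rw [← jac_T X p Y q Z r]; abel
        · show ttB k A (X ⊗ₜ p) (ttT k A (Y ⊗ₜ q) (Z ⊗ₜ r)) +
            ttB k A (Y ⊗ₜ q) (ttT k A (Z ⊗ₜ r) (X ⊗ₜ p)) +
            ttB k A (Z ⊗ₜ r) (ttT k A (X ⊗ₜ p) (Y ⊗ₜ q)) = 0
          rw [← jac_B X p Y q Z r]; abel

theorem Jac_zero (x y z : ABG k A) : Jac x y z = 0 := by
  rw [← in_add_in x, Jac_add, Jac_inB, add_zero, Jac_cyc, ← in_add_in y, Jac_add, Jac_inB,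
    add_zero, Jac_cyc, ← in_add_in z, Jac_add, Jac_inB, add_zero, Jac_cyc, Jac_inT]

instance : LieRing (ABG k A) where
  add_lie := add_brk
  lie_add := brk_add
  lie_self x := by
    have h := brk_skew x x
    have h2 : (2 : k) • ⁅x, x⁆ = 0 := by
      rw [two_smul]; nth_rw 1 [h]; rw [neg_add_cancel]
    exact (smul_eq_zero.1 h2).resolve_left two_ne_zero
  leibniz_lie x y z := by
    have h := Jac_zero x y z
    rw [Jac, brk_skew z ⁅x, y⁆, brk_skew z x, brk_neg] at h
    rw [← sub_eq_zero, ← h]; abel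

instance : LieAlgebra k (ABG k A) where
  lie_smul c x y := brk_smul c x y

end Pool.Agent.R412.ABG

end
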