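import Pool.Agent.R412.ABG.Graded
import Pool.Agent.R929.Shang.Rec

/-!
# The generating function of the Euler characteristic
-/

set_option autoImplicit false
set_option linter.unusedSimpArgs false
set_option linter.unusedSectionVars false

noncomputable section

open scoped TensorProduct
open Module PowerSeries

namespace Pool.Agent.R412.ABG

open Pool.Agent.R929.Shang (Wt ex roots mult ufac ufac_val wden wden_eq mult_eq ex_mul)

/-- `mult` in terms of the coefficients. -/
theorem mult_coeff (u v : ℤ) (X : Wt) : mult (u, v) X = X.coeff (u, v) - X.coeff (u + 1, v) -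
    X.coeff (u, v + 1) + X.coeff (u + 2, v + 1) + X.coeff (u + 1, v + 2) -
      X.coeff (u + 2, v + 2) := by
  have h : ∀ w : ℤ × ℤ, (X * ex w).coeff (u, v) = X.coeff ((u, v) - w) := by
    intro w
    have h1 := Pool.Agent.R929.Shang.ex_coeff w (u, v) X
    rw [mul_comm, h1]
    congr 1
    abel
  rw [mult_eq, wden_eq]
  simp only [mul_sub, mul_add, AddMonoidAlgebra.coeff_sub, AddMonoidAlgebra.coeff_add,
    Finsupp.sub_apply, Finsupp.add_apply, h]
  simp only [Prod.mk_sub_mk, sub_neg_eq_add, sub_zero]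

section

variable {I : Type} (xr : I → ℤ × ℤ) (d : I → ℕ)

theorem prod_term (t : Finset I) : ∏ i ∈ t, (-(C (ex (xr i)) * X ^ d i) : PowerSeries Wt) =
    C (AddMonoidAlgebra.single (∑ i ∈ t, xr i) ((-1) ^ t.card) : Wt) * X ^ (∑ i ∈ t, d i) := by
  classical
  induction t using Finset.induction_on with
  | empty =>
    simp only [Finset.prod_empty, Finset.sum_empty, Finset.card_empty, pow_zero, mul_one]
    exact (map_one (C (R := Wt))).symm
  | insert a s ha ih =>
    rw [Finset.prod_insert ha, Finset.sum_insert ha, Finset.sum_insert ha,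
      Finset.card_insert_of_notMem ha, ih]
    have h : (AddMonoidAlgebra.single (xr a + ∑ i ∈ s, xr i) ((-1) ^ (s.card + 1)) : Wt) =
        -(ex (xr a) * AddMonoidAlgebra.single (∑ i ∈ s, xr i) ((-1) ^ s.card)) := by
      rw [ex, AddMonoidAlgebra.single_mul_single, one_mul, pow_succ, mul_neg_one,
        AddMonoidAlgebra.single_neg]
    rw [h, map_neg, map_mul, pow_add]
    ring

theorem prod_expand (s : Finset I) : ∏ i ∈ s, (1 - C (ex (xr i)) * X ^ d i : PowerSeries Wt) =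
    ∑ t ∈ s.powerset, C (AddMonoidAlgebra.single (∑ i ∈ t, xr i) ((-1) ^ t.card) : Wt) *
      X ^ (∑ i ∈ t, d i) := by
  classical
  have h : ∀ i ∈ s, (1 - C (ex (xr i)) * X ^ d i : PowerSeries Wt) =
      -(C (ex (xr i)) * X ^ d i) + 1 := fun i _ => by ring
  rw [Finset.prod_congr rfl h, Finset.prod_add]
  refine Finset.sum_congr rfl fun t _ => ?_
  rw [Finset.prod_const_one, mul_one, prod_term]

theorem coeff_expand (s : Finset I) (n : ℕ) (u v : ℤ) [DecidableEq I] :
    (coeff n (∏ i ∈ s, (1 - C (ex (xr i)) * X ^ d i : PowerSeries Wt))).coeff (u, v) =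
      ∑ t ∈ s.powerset.filter (fun t => ∑ i ∈ t, d i = n ∧ ∑ i ∈ t, xr i = (u, v)),
        (-1) ^ t.card := by
  rw [prod_expand, map_sum, Finset.sum_filter]
  have h1 : ∀ (T : Finset (Finset I)) (f : Finset I → Wt),
      (∑ t ∈ T, f t).coeff (u, v) = ∑ t ∈ T, (f t).coeff (u, v) := by
    intro T f
    induction T using Finset.induction_on with
    | empty => rfl
    | insert a s ha ih => rw [Finset.sum_insert ha, Finset.sum_insert ha, ← ih]; rfl
  rw [h1]
  refine Finset.sum_congr rfl fun t _ => ?_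
  rw [coeff_C_mul, coeff_X_pow]
  by_cases h2 : ∑ i ∈ t, d i = n
  · rw [if_pos h2.symm, mul_one, AddMonoidAlgebra.coeff_single, Finsupp.single_apply]
    simp only [h2, true_and]
  · rw [if_neg (Ne.symm h2), mul_zero, if_neg (fun h => h2 h.1)]; rfl

end

/-- The number of the basis vectors of degree `n`. -/
def GB.cnt {k M : Type} [Field k] [AddCommGroup M] [Module k M] {T : M →ₗ[k] M} (B : GB k M T)
    (n : ℕ) : ℕ :=
  open Classical in ((B.fin n).toFinset.filter fun i => B.deg i = n).card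

section

variable {k : Type} [Field k] [CharZero k] {A : Type} [NonUnitalNonAssocRing A] [Module k A]
  [IsScalarTower k A A] [SMulCommClass k A A] [IsAlt A] (T : derA k A) (BA : GB k A T.1)
  (BB' : GB k (BB k A) (onB T)) (hA : ∀ i, 1 ≤ BA.deg i) (hB : ∀ i, 2 ≤ BB'.deg i)

theorem G_val {j : ℕ} (hj : j ≠ 0) (a b : ℕ) :
    (Pool.Agent.R929.Shang.G j (a : ℤ) (b : ℤ) : PowerSeries Wt) =
      (∏ i : Fin 8, (1 - C (ex (rt i)) * X ^ j) ^ a) * (1 - C (ex (0, 0)) * X ^ j) ^ b := by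
  have h1 : (b : ℤ) + 2 * (a : ℤ) = ((b + 2 * a : ℕ) : ℤ) := by push_cast; ring
  rw [Pool.Agent.R929.Shang.G, h1, zpow_natCast, Units.val_mul, Units.val_pow_eq_pow_val,
    ufac_val hj, roots]
  rw [Finset.prod_insert (by decide), Finset.prod_insert (by decide),
    Finset.prod_insert (by decide), Finset.prod_insert (by decide),
    Finset.prod_insert (by decide), Finset.prod_singleton]
  simp only [zpow_natCast, Units.val_mul, Units.val_pow_eq_pow_val, ufac_val hj]
  rw [Fin.prod_univ_eight]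
  show _ = ((1 - C (ex (1, 0)) * X ^ j) ^ a * (1 - C (ex (0, 1)) * X ^ j) ^ a *
    (1 - C (ex (-1, 0)) * X ^ j) ^ a * (1 - C (ex (0, -1)) * X ^ j) ^ a *
    (1 - C (ex (1, 1)) * X ^ j) ^ a * (1 - C (ex (-1, -1)) * X ^ j) ^ a *
    (1 - C (ex (0, 0)) * X ^ j) ^ a * (1 - C (ex (0, 0)) * X ^ j) ^ a) *
      (1 - C (ex (0, 0)) * X ^ j) ^ b
  rw [pow_add, two_mul, pow_add]
  ring


open Classical in
theorem Q_eq0 (N : ℕ) : ∀ i ∈ ((gd T BA BB' hA hB).fin N).toFinset, dgr T BA BB' i ∈ Finset.Icc 1 N := by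
  intro i hi
  rw [Set.Finite.mem_toFinset] at hi
  exact Finset.mem_Icc.2 ⟨(gd T BA BB' hA hB).deg_pos i, hi⟩

open Classical in
theorem Q_eq1 (N j : ℕ) (hj : 1 ≤ j ∧ j ≤ N) :
   (((gd T BA BB' hA hB).fin N).toFinset.filter fun i => dgr T BA BB' i = j) =
      ((Finset.univ : Finset (Fin 8)) ×ˢ ((BA.fin j).toFinset.filter fun i => BA.deg i = j)).disjSum
        ((BB'.fin j).toFinset.filter fun i => BB'.deg i = j) := by
    ext i
    rcases i with ⟨p, i⟩ | i
    · rw [Finset.inl_mem_disjSum, Finset.mem_filter, Set.Finite.mem_toFinset, Finset.mem_product,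
        Finset.mem_filter, Set.Finite.mem_toFinset]
      show (BA.deg i ≤ N ∧ BA.deg i = j) ↔ p ∈ Finset.univ ∧ BA.deg i ≤ j ∧ BA.deg i = j
      constructor
      · rintro ⟨_, h⟩; exact ⟨Finset.mem_univ _, h.le, h⟩
      · rintro ⟨_, _, h⟩; exact ⟨by omega, h⟩
    · rw [Finset.inr_mem_disjSum, Finset.mem_filter, Set.Finite.mem_toFinset,
        Finset.mem_filter, Set.Finite.mem_toFinset]
      show (BB'.deg i ≤ N ∧ BB'.deg i = j) ↔ BB'.deg i ≤ j ∧ BB'.deg i = j
      constructor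
      · rintro ⟨_, h⟩; exact ⟨h.le, h⟩
      · rintro ⟨_, h⟩; exact ⟨by omega, h⟩

open Classical in
theorem Q_eq2 (j : ℕ) (hj : j ≠ 0) :
    (Pool.Agent.R929.Shang.G j (BA.cnt j : ℤ) (BB'.cnt j : ℤ) : PowerSeries Wt) =
    ∏ i ∈ ((Finset.univ : Finset (Fin 8)) ×ˢ
      ((BA.fin j).toFinset.filter fun i => BA.deg i = j)).disjSum
        ((BB'.fin j).toFinset.filter fun i => BB'.deg i = j),
      (1 - C (ex (xr T BA BB' i)) * X ^ dgr T BA BB' i) := by
  rw [Finset.prod_disjSum, Finset.prod_product, G_val hj]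
  refine congrArg₂ (· * ·) ?_ ?_
  · refine Finset.prod_congr rfl fun p _ => ?_
    have h2 : ∀ i ∈ ((BA.fin j).toFinset.filter fun i => BA.deg i = j),
        (1 - C (ex (xr T BA BB' (Sum.inl (p, i)))) * X ^ dgr T BA BB' (Sum.inl (p, i)) :
          PowerSeries Wt) = 1 - C (ex (rt p)) * X ^ j := by
      intro i hi
      have h3 : dgr T BA BB' (Sum.inl (p, i)) = j := (Finset.mem_filter.1 hi).2
      have h4 : xr T BA BB' (Sum.inl (p, i)) = rt p := rfl
      rw [h3, h4]
    rw [Finset.prod_congr rfl h2, Finset.prod_const, GB.cnt]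
  · have h2 : ∀ i ∈ ((BB'.fin j).toFinset.filter fun i => BB'.deg i = j),
        (1 - C (ex (xr T BA BB' (Sum.inr i))) * X ^ dgr T BA BB' (Sum.inr i) :
          PowerSeries Wt) = 1 - C (ex (0, 0)) * X ^ j := by
      intro i hi
      have h3 : dgr T BA BB' (Sum.inr i) = j := (Finset.mem_filter.1 hi).2
      have h4 : xr T BA BB' (Sum.inr i) = (0, 0) := rfl
      rw [h3, h4]
    rw [Finset.prod_congr rfl h2, Finset.prod_const, GB.cnt]


open Classical in
theorem Q_eq (N : ℕ) : (Pool.Agent.R929.Shang.Q N (fun j => (BA.cnt j : ℤ)) (fun j => (BB'.cnt j : ℤ)) :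
    PowerSeries Wt) = ∏ i ∈ ((gd T BA BB' hA hB).fin N).toFinset,
      (1 - C (ex (xr T BA BB' i)) * X ^ dgr T BA BB' i) := by
  rw [Pool.Agent.R929.Shang.Q, Units.coe_prod, ← Finset.prod_fiberwise_of_maps_to
    (Q_eq0 T BA BB' hA hB N)]
  refine Finset.prod_congr rfl fun j hj => ?_
  rw [Finset.mem_Icc] at hj
  rw [Q_eq1 T BA BB' hA hB N j hj, Q_eq2 T BA BB' j (by omega)]

/-- The coefficients of the generating function are the numbers in `GD.euler`. -/
theorem coeff_Q_eq [LinearOrder (IX T BA BB')] {N n : ℕ} (hn : n ≤ N) (u v : ℤ) :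
    (coeff n (Pool.Agent.R929.Shang.Q N (fun j => (BA.cnt j : ℤ)) (fun j => (BB'.cnt j : ℤ)) :
      PowerSeries Wt)).coeff (u, v) = (gd T BA BB' hA hB).N n (2 * u - v) (2 * v - u) := by
  rw [Q_eq T BA BB' hA hB, coeff_expand, GD.N]
  have hP : ∀ S : Finset (IX T BA BB'), (gd T BA BB' hA hB).P S =
      2 * (∑ i ∈ S, xr T BA BB' i).1 - (∑ i ∈ S, xr T BA BB' i).2 := by
    intro S
    rw [Prod.fst_sum, Prod.snd_sum, Finset.mul_sum, ← Finset.sum_sub_distrib]; rfl
  have hQ : ∀ S : Finset (IX T BA BB'), (gd T BA BB' hA hB).Q S =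
      2 * (∑ i ∈ S, xr T BA BB' i).2 - (∑ i ∈ S, xr T BA BB' i).1 := by
    intro S
    rw [Prod.fst_sum, Prod.snd_sum, Finset.mul_sum, ← Finset.sum_sub_distrib]; rfl
  have hD : ∀ S : Finset (IX T BA BB'), (gd T BA BB' hA hB).D S =
      ((∑ i ∈ S, dgr T BA BB' i : ℕ) : ℤ) := by
    intro S
    rw [Nat.cast_sum]; rfl
  refine Finset.sum_congr ?_ fun _ _ => rfl
  ext S
  rw [Finset.mem_filter, Finset.mem_filter, Set.Finite.mem_toFinset, Finset.mem_powerset]
  show _ ↔ (gd T BA BB' hA hB).D S = n ∧ _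
  rw [hP, hQ, hD]
  constructor
  · rintro ⟨_, h1, h2⟩
    rw [h1, h2]
    exact ⟨rfl, rfl, rfl⟩
  · rintro ⟨h1, h2, h3⟩
    have h4 : ∑ i ∈ S, dgr T BA BB' i = n := by exact_mod_cast h1
    refine ⟨?_, h4, ?_⟩
    · intro i hi
      rw [Set.Finite.mem_toFinset]
      show dgr T BA BB' i ≤ N
      have h5 := Finset.single_le_sum (f := dgr T BA BB') (fun _ _ => Nat.zero_le _) hi
      omega
    · refine Prod.ext ?_ ?_
      · show (∑ i ∈ S, xr T BA BB' i).1 = u
        omega
      · show (∑ i ∈ S, xr T BA BB' i).2 = v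
        omega

end

end Pool.Agent.R412.ABG

end
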