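import Pool.Agent.R412.ABG.Link
import Pool.Agent.R412.ABG.Comp2

/-!
# The homology of the Allison–Benkart–Gao algebra of the free alternative algebra
-/

set_option autoImplicit false
set_option linter.unusedSimpArgs false
set_option linter.unusedSectionVars false

noncomputable section

open scoped TensorProduct
open Module PowerSeries

namespace Pool.Agent.R412.ABG

open Pool.Agent.R929.Shang (Wt ex roots mult multHom multHom_apply coeff_Q A_ten)

section

variable {k : Type} [Field k] [CharZero k] {D : ℕ} (BA : GB k (FAlt k D) (degA k D).1)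
  (BB' : GB k (BB k (FAlt k D)) (onB (degA k D))) (hA : ∀ i, 1 ≤ BA.deg i)
  (hB : ∀ i, 2 ≤ BB'.deg i)

include hA hB in
theorem mult_zero_of [LinearOrder (IX (degA k D) BA BB')]
    (hcon : ∀ j : ℕ, 2 ≤ j → ¬ IsSummand k (sl3 k) (Tr k) (HH k (sl3 k) (ABG k (FAlt k D)) j))
    {n : ℕ} (hn : 2 ≤ n) (hn' : n ≤ 10) :
    mult (0, 0) (coeff n (Pool.Agent.R929.Shang.Q 10 (fun j => (BA.cnt j : ℤ))
      (fun j => (BB'.cnt j : ℤ)) : PowerSeries Wt)) = 0 := by
  have h := (gd (degA k D) BA BB' hA hB).euler (n := n) (by exact_mod_cast hn)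
    (fun l hl => mem_RR (by exact_mod_cast hn) hl) Chev.good_zero (by
      intro j hj v hv hvn hK
      by_contra hnb
      push Not at hnb
      exact hcon j hj ((gd (degA k D) BA BB' hA hB).comp_triv hv hvn (fun y _ => hnb y) hK))
  rw [mult_coeff]
  simp only [coeff_Q_eq (degA k D) BA BB' hA hB hn']
  norm_num at h ⊢
  exact h

include hA hB in
theorem mult_one_of [LinearOrder (IX (degA k D) BA BB')]
    (hcon : ∀ j : ℕ, 2 ≤ j → ¬ IsSummand k (sl3 k) (sl3 k) (HH k (sl3 k) (ABG k (FAlt k D)) j))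
    {n : ℕ} (hn : 2 ≤ n) (hn' : n ≤ 10) :
    mult (1, 1) (coeff n (Pool.Agent.R929.Shang.Q 10 (fun j => (BA.cnt j : ℤ))
      (fun j => (BB'.cnt j : ℤ)) : PowerSeries Wt)) = 0 := by
  have h := (gd (degA k D) BA BB' hA hB).euler (n := n) (by exact_mod_cast hn)
    (fun l hl => mem_RR (by exact_mod_cast hn) hl) Chev.good_one (by
      intro j hj v hv hvn hK
      by_contra hnb
      push Not at hnb
      exact hcon j hj ((gd (degA k D) BA BB' hA hB).comp_adj hv hvn (fun y _ => hnb y) hK))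
  rw [mult_coeff]
  simp only [coeff_Q_eq (degA k D) BA BB' hA hB hn']
  norm_num at h ⊢
  exact h

include hB in
theorem cntB_one : BB'.cnt 1 = 0 := by
  classical
  rw [GB.cnt, Finset.card_eq_zero, Finset.filter_eq_empty_iff]
  intro i hi h
  have := hB i
  omega

end

/-- The statement for `V = k ^ 3`. -/
theorem main (k : Type) [Field k] [CharZero k] : ∃ j : ℕ, 2 ≤ j ∧
    (IsSummand k (sl3 k) (Tr k) (HH k (sl3 k) (ABG k (FAlt k 3)) j) ∨
      IsSummand k (sl3 k) (sl3 k) (HH k (sl3 k) (ABG k (FAlt k 3)) j)) := by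
  classical
  by_contra hcon
  have hc1 : ∀ j : ℕ, 2 ≤ j →
      ¬ IsSummand k (sl3 k) (Tr k) (HH k (sl3 k) (ABG k (FAlt k 3)) j) :=
    fun j hj h => hcon ⟨j, hj, Or.inl h⟩
  have hc2 : ∀ j : ℕ, 2 ≤ j →
      ¬ IsSummand k (sl3 k) (sl3 k) (HH k (sl3 k) (ABG k (FAlt k 3)) j) :=
    fun j hj h => hcon ⟨j, hj, Or.inr h⟩
  obtain ⟨BA, hA, hA1⟩ := exists_GBA k 3
  obtain ⟨BB', hB⟩ := exists_GBB k 3
  letI : LinearOrder (IX (degA k 3) BA BB') := IsWellOrder.linearOrder WellOrderingRel
  have hA1' : BA.cnt 1 = 3 := by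
    refine le_antisymm ?_ ?_
    · rw [GB.cnt]; convert hA1
    · have h := card_ge BA 0
      rw [zero_add, pow_one] at h
      rw [GB.cnt]
      refine h.trans (le_of_eq ?_)
      congr
  have hA10 : 59049 ≤ BA.cnt 10 := by
    have h := card_ge BA 9
    rw [GB.cnt]
    refine le_trans ?_ (h.trans (le_of_eq ?_))
    · norm_num
    · congr
  have hB1 := cntB_one BB' hB
  have h1 : coeff (0 + 1) (Pool.Agent.R929.Shang.Q 10 (fun j => (BA.cnt j : ℤ))
      (fun j => (BB'.cnt j : ℤ)) : PowerSeries Wt) =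
        -((0 + 2 * 3 : ℤ) • ex (0, 0) + (3 : ℤ) • ∑ w ∈ roots, ex w) := by
    rw [coeff_Q (by norm_num : 0 < 10)]
    have h2 : coeff (0 + 1) (Pool.Agent.R929.Shang.Q 0 (fun j => (BA.cnt j : ℤ))
      (fun j => (BB'.cnt j : ℤ)) : PowerSeries Wt) = 0 := by
      rw [Pool.Agent.R929.Shang.Q, Finset.Icc_eq_empty (by norm_num), Finset.prod_empty,
        Units.val_one, coeff_one, if_neg (by norm_num)]
    rw [h2, zero_sub]
    simp only [zero_add, hA1', hB1]
    norm_num
  have hval := A_ten (A := fun j => (BA.cnt j : ℤ)) (B := fun j => (BB'.cnt j : ℤ)) (by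
      intro n hn
      rcases Nat.eq_zero_or_pos n with rfl | hn0
      · rw [h1, ← multHom_apply, map_neg, map_add, map_zsmul, map_zsmul, multHom_apply,
          multHom_apply, Pool.Agent.R929.Shang.mult_zero_one,
          Pool.Agent.R929.Shang.mult_zero_roots]
        norm_num
      · exact mult_zero_of BA BB' hA hB hc1 (by omega) (by omega)) (by
      intro n hn
      rcases Nat.eq_zero_or_pos n with rfl | hn0
      · rw [h1, ← multHom_apply, map_neg, map_add, map_zsmul, map_zsmul, multHom_apply,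
          multHom_apply, Pool.Agent.R929.Shang.mult_adj_one,
          Pool.Agent.R929.Shang.mult_adj_roots]
        norm_num
      · rw [if_neg (by omega)]
        exact mult_one_of BA BB' hA hB hc2 (by omega) (by omega))
  have hval' : (BA.cnt 10 : ℤ) = 56961 := hval
  omega

end Pool.Agent.R412.ABG

end
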