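import Pool.Agent.R412.ABG.CE

/-!
# Free alternative algebras and Allison–Benkart–Gao Lie algebras
-/

set_option autoImplicit false

noncomputable section

namespace Pool.Agent.R412.ABG

/-- `f` is a bilinear map. -/
def IsBilin (k : Type) {U V W : Type} [Field k] [AddCommGroup U] [Module k U] [AddCommGroup V]
    [Module k V] [AddCommGroup W] [Module k W] (f : U → V → W) : Prop :=
  (∀ u, IsLinearMap k (f u)) ∧ ∀ v, IsLinearMap k fun u => f u v

/-- `A` (with its bilinear product) is an alternative algebra over `k`. -/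
def IsAltAlgebra (k A : Type) [Field k] [NonUnitalNonAssocRing A] [Module k A] : Prop :=
  IsBilin k (fun a b : A => a * b) ∧ ∀ p q : A, p * p * q = p * (p * q) ∧ q * p * p = q * (p * p)

/-- `A` is the free (non-unital) alternative algebra over `k` on the elements `x 0, …, x (n - 1)`,
that is `Alt(V)` with `V = k ^ n`. -/
def IsFreeAlt (k A : Type) [Field k] [NonUnitalNonAssocRing A] [Module k A] {n : ℕ}
    (x : Fin n → A) : Prop :=
  IsAltAlgebra k A ∧ ∀ (B : Type) [NonUnitalNonAssocRing B] [Module k B], IsAltAlgebra k B →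
    ∀ y : Fin n → B, ∃! φ : A → B,
      IsLinearMap k φ ∧ (∀ a b, φ (a * b) = φ a * φ b) ∧ ∀ i, φ (x i) = y i

/-- The relations of `B(A) = Λ²(A) / span {pq ∧ r + qr ∧ p + rp ∧ q}` for a map on `A × A`. -/
def IsWedge {A N : Type} [NonUnitalNonAssocRing A] [AddCommGroup N] (g : A → A → N) : Prop :=
  (∀ p, g p p = 0) ∧ ∀ p q r, g (p * q) r + g (q * r) p + g (r * p) q = 0

/-- The vector space `L` is `S ⊗ A ⊕ B(A)`, with `t X p = X ⊗ p` and `w p q = p ∧ q`: the pair
`(t, w)` is the universal pair of a bilinear map on `S × A` and a bilinear map on `A × A` with the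
relations of `B(A)`. -/
def IsTensorPlusB (k : Type) {S A L : Type} [Field k] [AddCommGroup S] [Module k S]
    [NonUnitalNonAssocRing A] [Module k A] [AddCommGroup L] [Module k L]
    (t : S → A → L) (w : A → A → L) : Prop :=
  IsBilin k t ∧ IsBilin k w ∧ IsWedge w ∧
    ∀ (N : Type) [AddCommGroup N] [Module k N] (f : S → A → N) (g : A → A → N),
      IsBilin k f → IsBilin k g → IsWedge g →
        ∃! h : L → N, IsLinearMap k h ∧ (∀ X p, h (t X p) = f X p) ∧ ∀ p q, h (w p q) = g p q

/-- The inner derivation `D_{p,q} = [L_p, L_q] + [R_p, R_q] + [L_p, R_q]`. -/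
def Dpq {A : Type} [NonUnitalNonAssocRing A] (p q r : A) : A :=
  (p * (q * r) - q * (p * r)) + ((r * q) * p - (r * p) * q) + (p * (r * q) - (p * r) * q)

/-- `Z = {X, Y} = (XY + YX) / 2 - (tr(XY) / 3) I`. -/
def IsCurly {k : Type} [Field k] (X Y Z : Matrix (Fin 3) (Fin 3) k) : Prop :=
  Z = (1 / 2 : k) • (X * Y + Y * X) - ((1 / 3 : k) * Matrix.trace (X * Y)) • 1

/-- The Lie algebra `sl₃` of the matrices with trace zero. -/
abbrev sl3' (k : Type) [Field k] : Type := LieAlgebra.SpecialLinear.sl (Fin 3) k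

/-- `[X ⊗ p, Y ⊗ q] = [X, Y] ⊗ (p · q) + {X, Y} ⊗ [p, q] + (1 / 3) tr(XY) p ∧ q`. -/
def BracketTT {k A L : Type} [Field k] [NonUnitalNonAssocRing A] [Module k A] [LieRing L]
    [Module k L] (t : sl3' k → A → L) (w : A → A → L) : Prop :=
  ∀ X Y Z : sl3' k, IsCurly X.val Y.val Z.val → ∀ p q : A,
    ⁅t X p, t Y q⁆ = t ⁅X, Y⁆ ((1 / 2 : k) • (p * q + q * p)) + t Z (p * q - q * p) +
      ((1 / 3 : k) * Matrix.trace (X.val * Y.val)) • w p q

/-- `[p ∧ q, X ⊗ r] = X ⊗ D_{p,q}(r)` and `[p ∧ q, r ∧ s] = D_{p,q}(r) ∧ s + r ∧ D_{p,q}(s)`. -/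
def BracketW {S A L : Type} [NonUnitalNonAssocRing A] [LieRing L] (t : S → A → L)
    (w : A → A → L) : Prop :=
  (∀ p q X r, ⁅w p q, t X r⁆ = t X (Dpq p q r)) ∧
    ∀ p q r s, ⁅w p q, w r s⁆ = w (Dpq p q r) s + w r (Dpq p q s)

/-- The action of `sl₃` on `sl₃ ⊗ A ⊕ B(A)`: the adjoint action on the tensor factor `sl₃`, and zero
on `B(A)`. -/
def ActionTW {k A L : Type} [Field k] [LieRing L] [LieRingModule (sl3' k) L] (t : sl3' k → A → L)
    (w : A → A → L) : Prop :=
  (∀ (X Y : sl3' k) (p : A), ⁅X, t Y p⁆ = t ⁅X, Y⁆ p) ∧ ∀ (X : sl3' k) (p q : A), ⁅X, w p q⁆ = 0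

/-- The Lie algebra `L`, with its action of `sl₃`, is the Allison–Benkart–Gao Lie algebra
`ABG(A) = sl₃ ⊗ A ⊕ B(A)` of `A`; the structure maps are `t X p = X ⊗ p` and `w p q = p ∧ q`. -/
def IsABG {k A L : Type} [Field k] [NonUnitalNonAssocRing A] [Module k A] [LieRing L]
    [LieAlgebra k L] [LieRingModule (sl3' k) L] (t : sl3' k → A → L) (w : A → A → L) : Prop :=
  IsTensorPlusB k t w ∧ BracketTT t w ∧ BracketW t w ∧ ActionTW t w

section homology

variable (k L : Type) [Field k] [LieRing L] [LieAlgebra k L]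

/-- The cycles of degree `j` in the Chevalley–Eilenberg complex of `L` (with trivial
coefficients). -/
def cyc (j : ℕ) : Submodule k (ExteriorAlgebra k L) := ⋀[k]^j L ⊓ LinearMap.ker (bd k L)

/-- The boundaries of degree `j` in the Chevalley–Eilenberg complex of `L`; so
`H_j(L, k) = cyc k L j / bdry k L j`. -/
def bdry (j : ℕ) : Submodule k (ExteriorAlgebra k L) := (⋀[k]^(j + 1) L).map (bd k L)

variable [LieRingModule (sl3' k) L] [LieModule k (sl3' k) L]

/-- The action of `X ∈ sl₃` on the exterior algebra of `L`: the derivation that extends the action of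
`X` on `L`. -/
def act (X : sl3' k) : ExteriorAlgebra k L →ₗ[k] ExteriorAlgebra k L :=
  der (LieModule.toEnd k (sl3' k) L X)

/-- The `sl₃`-module `H_j(L, k)` has a direct summand isomorphic to the `sl₃`-module `V`, where
`X ∈ sl₃` acts on `V` by `a X`: there are linear maps `i` from `V` to the cycles and `r` from the
chains to `V`, zero on the boundaries, such that the induced maps `V → H_j(L, k)` and
`H_j(L, k) → V` are equivariant and their composition is the identity of `V`. -/
def HasSummand (V : Type) [AddCommGroup V] [Module k V] (a : sl3' k → V → V) (j : ℕ) : Prop :=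
  ∃ (i : V →ₗ[k] ExteriorAlgebra k L) (r : ExteriorAlgebra k L →ₗ[k] V),
    (∀ v, i v ∈ cyc k L j) ∧ (∀ z ∈ bdry k L j, r z = 0) ∧
      (∀ X v, act k L X (i v) - i (a X v) ∈ bdry k L j) ∧
        (∀ X, ∀ z ∈ cyc k L j, r (act k L X z) = a X (r z)) ∧ ∀ v, r (i v) = v

end homology

end Pool.Agent.R412.ABG
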