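import Pool.Agent.R412.ABG.Main
import Pool.Agent.R412.ABG.Stm

/-!
# The models of `Alt(V)` and `ABG(A)`
-/

set_option autoImplicit false
set_option linter.unusedSimpArgs false
set_option linter.unusedSectionVars false

noncomputable section

open scoped TensorProduct
open Module

namespace Pool.Agent.R412.ABG

section

open Pool.Agent.R929.Shang (FreeNA altIdeal IsAlternativeIdeal)

variable {k : Type} [Field k] {D : ℕ}

theorem isAltAlgebra_of {A : Type} [NonUnitalNonAssocRing A] [Module k A] [IsScalarTower k A A]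
    [SMulCommClass k A A] [IsAlt A] : IsAltAlgebra k A :=
  ⟨⟨fun a => ⟨fun x y => mul_add a x y, fun c x => mul_smul_comm c a x⟩,
    fun b => ⟨fun x y => add_mul x y b, fun c x => smul_mul_assoc c x b⟩⟩,
    fun p q => ⟨IsAlt.left p q, IsAlt.right p q⟩⟩

theorem isFreeAlt_FAlt : IsFreeAlt k (FAlt k D) (fun i => mon k (FreeMagma.of i)) := by
  refine ⟨isAltAlgebra_of, ?_⟩
  intro B _ _ hB y
  haveI : IsScalarTower k B B := ⟨fun c a b => (hB.1.2 b).map_smul c a⟩
  haveI : SMulCommClass k B B := ⟨fun c a b => ((hB.1.1 a).map_smul c b).symm⟩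
  let φ0 : FreeNA k D →ₙₐ[k] B := FreeNonUnitalNonAssocAlgebra.lift k y
  let φ1 : FreeNA k D →ₗ[k] B := { toFun := φ0, map_add' := map_add _, map_smul' := map_smul _ }
  have hk : altIdeal k D ≤ LinearMap.ker φ1 := by
    refine sInf_le ⟨fun x y => ⟨?_, ?_⟩, fun x hx y => ⟨?_, ?_⟩⟩
    · show φ0 _ = 0
      rw [map_sub, map_mul, map_mul, map_mul, map_mul, (hB.2 _ _).1, sub_self]
    · show φ0 _ = 0
      rw [map_sub, map_mul, map_mul, map_mul, map_mul, (hB.2 _ _).2, sub_self]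
    · have hx' : φ0 x = 0 := hx
      show φ0 _ = 0
      rw [map_mul, hx', zero_mul]
    · have hx' : φ0 x = 0 := hx
      show φ0 _ = 0
      rw [map_mul, hx', mul_zero]
  let φ : FAlt k D →ₗ[k] B := (altIdeal k D).liftQ φ1 hk
  have hφ : ∀ x, φ (mkF x) = φ0 x := fun x => rfl
  refine ⟨φ, ⟨φ.isLinear, ?_, ?_⟩, ?_⟩
  · intro a b
    obtain ⟨a, rfl⟩ := mkF_surj a
    obtain ⟨b, rfl⟩ := mkF_surj b
    rw [← mkF_mul, hφ, hφ, hφ, map_mul]
  · intro i
    exact FreeNonUnitalNonAssocAlgebra.lift_of_apply k _ i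
  · rintro ψ ⟨h1, h2, h3⟩
    have h4 : ∀ w, ψ (mon k w) = φ (mon k w) := by
      intro w
      induction w with
      | ih1 i =>
        rw [h3]
        exact (FreeNonUnitalNonAssocAlgebra.lift_of_apply k _ i).symm
      | ih2 u w hu hw =>
        rw [mon_mul, h2, hu, hw, ← mon_mul]
        show φ0 _ * φ0 _ = φ0 _
        rw [← map_mul, MonoidAlgebra.single_mul_single, one_mul]
    have h5 : (h1.mk' ψ) = φ := by
      refine LinearMap.ext_on_range (v := mon k) span_mon ?_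
      exact h4
    exact congrArg (fun f : FAlt k D →ₗ[k] B => (f : FAlt k D → B)) h5

end

section

variable {k : Type} [Field k] {U V W : Type} [AddCommGroup U] [Module k U] [AddCommGroup V]
  [Module k V] [AddCommGroup W] [Module k W]

/-- The bundled bilinear map. -/
def IsBilin.mk {f : U → V → W} (hf : IsBilin k f) : U →ₗ[k] V →ₗ[k] W :=
  LinearMap.mk₂ k f (fun u u' v => (hf.2 v).map_add u u') (fun c u v => (hf.2 v).map_smul c u)
    (fun u v v' => (hf.1 u).map_add v v') (fun c u v => (hf.1 u).map_smul c v)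

theorem IsBilin.mk_apply {f : U → V → W} (hf : IsBilin k f) (u : U) (v : V) :
    hf.mk u v = f u v := rfl

end

section

variable {k : Type} [Field k] [CharZero k] {A : Type} [NonUnitalNonAssocRing A] [Module k A]
  [IsScalarTower k A A] [SMulCommClass k A A]

theorem inB_add (b c : BB k A) : (inB (b + c) : ABG k A) = inB b + inB c :=
  Prod.ext (add_zero _).symm rfl

theorem inB_smul (a : k) (b : BB k A) : (inB (a • b) : ABG k A) = a • inB b :=
  Prod.ext (smul_zero a : a • (0 : sl3 k ⊗[k] A) = 0).symm rfl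

theorem inT_smul (a : k) (s : sl3 k ⊗[k] A) : (inT (a • s) : ABG k A) = a • inT s :=
  Prod.ext rfl (smul_zero a : a • (0 : BB k A) = 0).symm

theorem isTensorPlusB_ABG : IsTensorPlusB k (fun (X : sl3 k) (p : A) => (inT (X ⊗ₜ[k] p) : ABG k A))
    (fun p q : A => inB (wd k p q)) := by
  refine ⟨⟨fun X => ⟨fun p q => ?_, fun c p => ?_⟩, fun p => ⟨fun X Y => ?_, fun c X => ?_⟩⟩,
    ⟨fun p => ⟨fun q r => ?_, fun c q => ?_⟩, fun q => ⟨fun p r => ?_, fun c p => ?_⟩⟩,
    ⟨fun p => ?_, fun p q r => ?_⟩, ?_⟩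
  · beta_reduce; rw [TensorProduct.tmul_add, inT_add]
  · beta_reduce; rw [TensorProduct.tmul_smul, inT_smul]
  · show inT ((X + Y) ⊗ₜ[k] p) = _
    rw [TensorProduct.add_tmul, inT_add]
  · show inT ((c • X) ⊗ₜ[k] p) = _
    rw [← TensorProduct.smul_tmul', inT_smul]
  · beta_reduce; rw [wd_add_right, inB_add]
  · beta_reduce; rw [wd_smul_right, inB_smul]
  · show inB (wd k (p + r) q) = _
    rw [wd_add_left, inB_add]
  · show inB (wd k (c • p) q) = _
    rw [wd_smul_left, inB_smul]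
  · beta_reduce; rw [wd_self]; rfl
  · show inB _ + inB _ + inB _ = (0 : ABG k A)
    rw [← inB_add, ← inB_add, wd_cyc]; rfl
  · intro N _ _ f g hf hg hw
    have hker : relB k A ≤ LinearMap.ker (TensorProduct.lift hg.mk) := by
      refine Submodule.span_le.2 ?_
      rintro x (⟨p, rfl⟩ | ⟨p, q, r, rfl⟩)
      · show TensorProduct.lift hg.mk (p ⊗ₜ[k] p) = 0
        rw [TensorProduct.lift.tmul, hg.mk_apply]; exact hw.1 p
      · show TensorProduct.lift hg.mk _ = 0
        rw [map_add, map_add, TensorProduct.lift.tmul, TensorProduct.lift.tmul,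
          TensorProduct.lift.tmul, hg.mk_apply, hg.mk_apply, hg.mk_apply]
        exact hw.2 p q r
    let gB : BB k A →ₗ[k] N := (relB k A).liftQ (TensorProduct.lift hg.mk) hker
    let h0 : ((sl3 k ⊗[k] A) × BB k A) →ₗ[k] N := (TensorProduct.lift hf.mk).coprod gB
    let h : ABG k A →ₗ[k] N := h0
    have hT : ∀ X p, h (inT (X ⊗ₜ[k] p)) = f X p := by
      intro X p
      show TensorProduct.lift hf.mk (X ⊗ₜ[k] p) + gB 0 = f X p
      rw [TensorProduct.lift.tmul, hf.mk_apply, map_zero, add_zero]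
    have hB : ∀ p q, h (inB (wd k p q)) = g p q := by
      intro p q
      show TensorProduct.lift hf.mk 0 + TensorProduct.lift hg.mk (p ⊗ₜ[k] q) = g p q
      rw [TensorProduct.lift.tmul, hg.mk_apply, map_zero, zero_add]
    refine ⟨h, ⟨h.isLinear, hT, hB⟩, ?_⟩
    rintro h' ⟨h1, h2, h3⟩
    funext x
    induction x using ABG_ind with
    | hT X p => rw [hT, h2]
    | hB p q => rw [hB, h3]
    | hadd x y hx hy => rw [h1.map_add, map_add, hx, hy]

variable [IsAlt A]

theorem isABG_ABG : IsABG (fun (X : sl3 k) (p : A) => (inT (X ⊗ₜ[k] p) : ABG k A))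
    (fun p q : A => inB (wd k p q)) := by
  refine ⟨isTensorPlusB_ABG, ?_, ⟨?_, ?_⟩, ⟨?_, ?_⟩⟩
  · intro X Y Z hZ p q
    have hZ' : Z = curly X Y := Subtype.ext hZ
    show ⁅inT _, inT _⁆ = inT _ + inT _ + _ • inB _
    rw [inT_brk, ttT_tmul, ttB_tmul, inT_add, hZ', inB_smul]
  · intro p q X r
    show ⁅inB _, inT _⁆ = inT _
    rw [inB_brk]
    refine Prod.ext ?_ ?_
    · exact LinearMap.lTensor_tmul _ _ _ _
    · exact map_zero (onB _)
  · intro p q r s
    show ⁅inB _, inB _⁆ = inB _ + inB _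
    rw [inB_brk]
    refine Prod.ext ?_ ?_
    · show LinearMap.lTensor (sl3 k) (DB (wd k p q)) 0 = 0 + 0
      rw [map_zero, add_zero]
    · exact onB_wd _ r s
  · intro X Y p; rfl
  · intro X p q; exact actG_inB X _

end

section

variable {k L : Type} [Field k] [CharZero k] [LieRing L] [LieAlgebra k L]
  [LieRingModule (sl3 k) L] [LieModule k (sl3 k) L] [DerAction (sl3 k) L]

/-- A direct summand of the homology, unfolded. -/
theorem hasSummand_of {V : Type} [AddCommGroup V] [Module k V] [LieRingModule (sl3 k) V] {j : ℕ}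
    (h : IsSummand k (sl3 k) V (HH k (sl3 k) L j)) : HasSummand k L V (fun X v => ⁅X, v⁆) j := by
  obtain ⟨i0, r0, h0⟩ := h
  let m : Zc k (sl3 k) L j →ₗ[k] HH k (sl3 k) L j :=
    (LieSubmodule.Quotient.mk' (Bc k (sl3 k) L j)).toLinearMap
  obtain ⟨s, hs⟩ := m.exists_rightInverse_of_surjective
    (LinearMap.range_eq_top.2 (LieSubmodule.Quotient.surjective_mk' _))
  have hs' : ∀ x, LieSubmodule.Quotient.mk' (Bc k (sl3 k) L j) (s x) = x :=
    fun x => LinearMap.congr_fun hs x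
  let f : Zc k (sl3 k) L j →ₗ[k] V := r0.toLinearMap ∘ₗ m
  obtain ⟨r, hr⟩ := LinearMap.exists_extend
    (p := (Zc k (sl3 k) L j : Submodule k (ExteriorAlgebra k L))) f
  have hr' : ∀ z : Zc k (sl3 k) L j, r z = r0 (LieSubmodule.Quotient.mk' (Bc k (sl3 k) L j) z) :=
    fun z => LinearMap.congr_fun hr z
  have hact : ∀ (X : sl3 k) (z : ExteriorAlgebra k L), act k L X z = ⁅X, z⁆ := fun X z => rfl
  refine ⟨(Zc k (sl3 k) L j : Submodule k (ExteriorAlgebra k L)).subtype ∘ₗ s ∘ₗ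
    (i0 : V →ₗ[k] HH k (sl3 k) L j), r, ?_, ?_, ?_, ?_, ?_⟩
  · intro v
    exact (s (i0 v)).2
  · rintro z ⟨y, hy, rfl⟩
    have hz : bd k L y ∈ Zc k (sl3 k) L j := ⟨bd_mem_pow hy, bd_bd y⟩
    have h1 := hr' ⟨bd k L y, hz⟩
    have h2 : LieSubmodule.Quotient.mk' (Bc k (sl3 k) L j) ⟨bd k L y, hz⟩ = 0 :=
      (LieSubmodule.Quotient.mk_eq_zero' (N := Bc k (sl3 k) L j)).2 ⟨y, hy, rfl⟩
    rw [h2, map_zero] at h1
    exact h1
  · intro X v
    have h1 : LieSubmodule.Quotient.mk' (Bc k (sl3 k) L j)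
        (⁅X, s (i0 v)⁆ - s (i0 ⁅X, v⁆)) = 0 := by
      rw [map_sub, LieModuleHom.map_lie, hs', hs', LieModuleHom.map_lie, sub_self]
    obtain ⟨y, hy, hy'⟩ := (LieSubmodule.Quotient.mk_eq_zero' (N := Bc k (sl3 k) L j)).1 h1
    exact ⟨y, hy, hy'⟩
  · intro X z hz
    have hz' : z ∈ Zc k (sl3 k) L j := hz
    have h1 := hr' ⟨z, hz'⟩
    have h2 := hr' ⁅X, (⟨z, hz'⟩ : Zc k (sl3 k) L j)⁆
    rw [LieModuleHom.map_lie, LieModuleHom.map_lie, ← h1] at h2
    exact h2
  · intro v
    have h1 := hr' (s (i0 v))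
    rw [hs'] at h1
    exact h1.trans (h0 v)

/-- Change of the module. -/
theorem HasSummand.congr {V V' : Type} [AddCommGroup V] [Module k V] [AddCommGroup V'] [Module k V']
    {a : sl3 k → V → V} {a' : sl3 k → V' → V'} {j : ℕ} (h : HasSummand k L V a j) (e : V ≃ₗ[k] V')
    (he : ∀ X v, e (a X v) = a' X (e v)) : HasSummand k L V' a' j := by
  obtain ⟨i, r, h1, h2, h3, h4, h5⟩ := h
  refine ⟨i ∘ₗ e.symm.toLinearMap, e.toLinearMap ∘ₗ r, ?_, ?_, ?_, ?_, ?_⟩
  · intro v; exact h1 _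
  · intro z hz
    show e (r z) = 0
    rw [h2 z hz, map_zero]
  · intro X v
    show act k L X (i (e.symm v)) - i (e.symm (a' X v)) ∈ bdry k L j
    have h6 : e.symm (a' X v) = a X (e.symm v) := by
      rw [LinearEquiv.symm_apply_eq, he, LinearEquiv.apply_symm_apply]
    rw [h6]
    exact h3 X _
  · intro X z hz
    show e (r (act k L X z)) = a' X (e (r z))
    rw [h4 X z hz, he]
  · intro v
    show e (r (i (e.symm v))) = v
    rw [h5, LinearEquiv.apply_symm_apply]

end

end Pool.Agent.R412.ABG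

end
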